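import Mathlib

/-! Bernoulli product measure: independence, Harris and BK inequalities. -/

namespace Pool.Agent.H.MP_1775a6_pr

open MeasureTheory ProbabilityTheory Filter Topology Set
open scoped ENNReal

noncomputable def p : ℝ≥0∞ := 100⁻¹

noncomputable def nu : Measure Bool := p • Measure.dirac true + (1 - p) • Measure.dirac false

lemma p_le : p ≤ 1 := by simp [p]
lemma p_ne : p ≠ 0 := by simp [p]
lemma p_top : p ≠ ⊤ := by simp [p]
lemma p_real : p.toReal = 1 / 100 := by simp [p]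
lemma q_real : (1 - p).toReal = 99 / 100 := by
  rw [ENNReal.toReal_sub_of_le p_le ENNReal.one_ne_top, p_real]; norm_num

instance : IsProbabilityMeasure nu := ⟨by simp [nu, add_tsub_cancel_of_le p_le]⟩

noncomputable def P (ι : Type) : Measure (ι → Bool) := Measure.infinitePi fun _ : ι => nu

instance (ι : Type) : IsProbabilityMeasure (P ι) := by unfold P; infer_instance

variable {ι : Type}

def Dep (E : Set ι) (A : Set (ι → Bool)) : Prop := MeasurableSet[cylinderEvents E] A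

lemma Dep.meas {E : Set ι} {A : Set (ι → Bool)} (h : Dep E A) : MeasurableSet A :=
  cylinderEvents_le_pi _ h

lemma Dep.mono {E E' : Set ι} {A : Set (ι → Bool)} (h : Dep E A) (h' : E ⊆ E') : Dep E' A :=
  cylinderEvents_mono h' _ h

lemma Dep.inter {E : Set ι} {A B : Set (ι → Bool)} (h : Dep E A) (h' : Dep E B) : Dep E (A ∩ B) :=
  @MeasurableSet.inter _ (cylinderEvents E) _ _ h h'

lemma Dep.union {E : Set ι} {A B : Set (ι → Bool)} (h : Dep E A) (h' : Dep E B) : Dep E (A ∪ B) :=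
  @MeasurableSet.union _ (cylinderEvents E) _ _ h h'

lemma Dep.compl {E : Set ι} {A : Set (ι → Bool)} (h : Dep E A) : Dep E Aᶜ :=
  @MeasurableSet.compl _ _ (cylinderEvents E) h

lemma dep_val {E : Set ι} {e : ι} (h : e ∈ E) (b : Bool) : Dep E {ω | ω e = b} :=
  measurable_cylinderEvent_apply (X := fun _ : ι => Bool) h (measurableSet_singleton b)

lemma indep {S T : Set ι} (h : Disjoint S T) {A B : Set (ι → Bool)} (hA : Dep S A)
    (hB : Dep T B) : P ι (A ∩ B) = P ι A * P ι B :=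
  (Indep_iff _ _ _).mp (indep_iSup_of_disjoint (fun i => (measurable_pi_apply i).comap_le)
    (iIndepFun_infinitePi (X := fun _ u => u) fun _ => measurable_id).iIndep h) A B hA hB

lemma P_val (e : ι) (b : Bool) : P ι {ω | ω e = b} = nu {b} :=
  (measurePreserving_eval_infinitePi (fun _ : ι => nu) e).measure_preimage
    (measurableSet_singleton b).nullMeasurableSet

lemma P_true (e : ι) : P ι {ω | ω e = true} = p := by rw [P_val]; simp [nu]
lemma P_false (e : ι) : P ι {ω | ω e = false} = 1 - p := by rw [P_val]; simp [nu]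

lemma indep_prod {κ : Type} (s : Finset κ) (E : κ → Set ι) (A : κ → Set (ι → Bool))
    (hE : ∀ i ∈ s, ∀ j ∈ s, i ≠ j → Disjoint (E i) (E j)) (hA : ∀ i ∈ s, Dep (E i) (A i)) :
    P ι (⋂ i ∈ s, A i) = ∏ i ∈ s, P ι (A i) := by
  classical
  induction s using Finset.induction_on with
  | empty => simp
  | insert a s ha ih =>
    rw [Finset.set_biInter_insert, Finset.prod_insert ha, indep (T := ⋃ i ∈ s, E i) _
      (hA a (by simp)), ih (fun i hi j hj => hE i (by simp [hi]) j (by simp [hj]))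
        fun i hi => hA i (by simp [hi])]
    · exact MeasurableSet.biInter s.countable_toSet fun i hi =>
        (hA i (by simp [show i ∈ s from hi])).mono (subset_biUnion_of_mem (u := E) hi)
    · simp only [disjoint_iUnion_right]
      exact fun i hi => hE a (by simp) i (by simp [hi]) (by rintro rfl; exact ha hi)

lemma P_map {κ : Type} {f : κ → ι} (hf : f.Injective) {A : Set (κ → Bool)} (hA : MeasurableSet A) :
    P ι ((fun ω i => ω (f i)) ⁻¹' A) = P κ A := by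
  rw [← Measure.map_apply (by fun_prop) hA, P, Measure.map_infinitePi_infinitePi_of_inj hf]; rfl

def Op (G : Finset ι) (ω : ι → Bool) : Prop := ∀ e ∈ G, ω e = true

def Up (F : Set ι) (𝓐 : Set (Finset ι)) : Set (ι → Bool) := {ω | ∃ G ∈ 𝓐, ↑G ⊆ F ∧ Op G ω}

def Box (F : Set ι) (𝓐 𝓑 : Set (Finset ι)) : Set (ι → Bool) :=
  {ω | ∃ G ∈ 𝓐, ∃ H ∈ 𝓑, ↑G ⊆ F ∧ ↑H ⊆ F ∧ Disjoint G H ∧ Op G ω ∧ Op H ω}

variable [Countable ι]

lemma dep_op {F : Set ι} {G : Finset ι} (h : ↑G ⊆ F) : Dep F {ω | Op G ω} := by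
  have : {ω | Op G ω} = ⋂ e ∈ G, {ω : ι → Bool | ω e = true} := by ext; simp [Op]
  rw [this]
  exact MeasurableSet.biInter G.countable_toSet fun e he => dep_val (h he) true

lemma dep_up (F : Set ι) (𝓐 : Set (Finset ι)) : Dep F (Up F 𝓐) := by
  have : Up F 𝓐 = ⋃ G : Finset ι, ⋃ _ : G ∈ 𝓐 ∧ ↑G ⊆ F, {ω | Op G ω} := by
    ext; simp [Up, and_assoc]
  rw [this]
  exact MeasurableSet.iUnion fun G => MeasurableSet.iUnion fun h => dep_op h.2

lemma dep_box (F : Set ι) (𝓐 𝓑 : Set (Finset ι)) : Dep F (Box F 𝓐 𝓑) := by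
  have : Box F 𝓐 𝓑 = ⋃ G : Finset ι, ⋃ H : Finset ι,
      ⋃ _ : G ∈ 𝓐 ∧ H ∈ 𝓑 ∧ ↑G ⊆ F ∧ ↑H ⊆ F ∧ Disjoint G H, {ω | Op G ω} ∩ {ω | Op H ω} := by
    ext; simp only [Box, mem_ofPred_eq, mem_iUnion, mem_inter_iff]
    constructor
    · rintro ⟨G, a, H, b, c, d, e, f, g⟩; exact ⟨G, H, ⟨a, b, c, d, e⟩, f, g⟩
    · rintro ⟨G, H, ⟨a, b, c, d, e⟩, f, g⟩; exact ⟨G, a, H, b, c, d, e, f, g⟩
  rw [this]
  exact MeasurableSet.iUnion fun G => MeasurableSet.iUnion fun H => MeasurableSet.iUnion fun h =>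
    (dep_op h.2.2.1).inter (dep_op h.2.2.2.1)

lemma split {F : Set ι} {e : ι} (he : e ∉ F) {X Y Z : Set (ι → Bool)} (hX : Dep F X) (hY : Dep F Y)
    (h : ∀ ω, ω ∈ Z ↔ if ω e = true then ω ∈ X else ω ∈ Y) :
    (P ι).real Z = 1 / 100 * (P ι).real X + 99 / 100 * (P ι).real Y := by
  have hd : Disjoint {e} F := by simpa using he
  have : Z = ({ω | ω e = true} ∩ X) ∪ ({ω | ω e = false} ∩ Y) := by
    ext ω; rw [h]; cases k : ω e <;> simp [k]
  have h1 := indep hd (dep_val (mem_singleton e) true) hX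
  have h2 := indep hd (dep_val (mem_singleton e) false) hY
  have h3 : Disjoint ({ω : ι → Bool | ω e = true} ∩ X) ({ω | ω e = false} ∩ Y) := by
    rw [Set.disjoint_left]; rintro ω ⟨a, -⟩ ⟨b, -⟩
    rw [mem_ofPred_eq] at a b; simp [a] at b
  have h4 := measure_union (μ := P ι) h3 ((dep_val (mem_univ e) false).meas.inter hY.meas)
  rw [h1, h2, P_true, P_false, ← this] at h4
  simp only [Measure.real]
  rw [h4, ENNReal.toReal_add (ENNReal.mul_ne_top p_top (measure_ne_top _ _))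
    (ENNReal.mul_ne_top (by simp) (measure_ne_top _ _)), ENNReal.toReal_mul, ENNReal.toReal_mul,
    p_real, q_real]

open Classical in
def one (e : ι) (𝓐 : Set (Finset ι)) : Set (Finset ι) := {G | G ∈ 𝓐 ∨ insert e G ∈ 𝓐}

omit [Countable ι] in
lemma up_one (F : Set ι) (e : ι) (𝓐 : Set (Finset ι)) : Up F 𝓐 ⊆ Up F (one e 𝓐) :=
  fun _ ⟨G, a, b⟩ => ⟨G, Or.inl a, b⟩

omit [Countable ι] in
lemma up_insert (F : Set ι) (e : ι) (𝓐 : Set (Finset ι)) (ω : ι → Bool) :
    ω ∈ Up (insert e F) 𝓐 ↔ if ω e = true then ω ∈ Up F (one e 𝓐) else ω ∈ Up F 𝓐 := by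
  classical
  split_ifs with k
  · constructor
    · rintro ⟨G, a, b, c⟩
      refine ⟨G.erase e, ?_, fun x hx => ?_, fun x hx => c x (Finset.mem_of_mem_erase hx)⟩
      · by_cases h : e ∈ G
        · right; convert a; exact Finset.insert_erase h
        · left; rwa [Finset.erase_eq_of_notMem h]
      · simp only [Finset.coe_erase, Set.mem_sdiff, mem_singleton_iff] at hx
        exact (b hx.1).resolve_left hx.2
    · rintro ⟨G, a | a, b, c⟩
      · exact ⟨G, a, b.trans (subset_insert _ _), c⟩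
      · refine ⟨_, a, by simpa using insert_subset_insert b, fun x hx => ?_⟩
        rcases Finset.mem_insert.1 hx with rfl | hx
        exacts [k, c x hx]
  · constructor
    · rintro ⟨G, a, b, c⟩
      exact ⟨G, a, fun x hx => (b hx).resolve_left (by rintro rfl; exact k (c _ hx)), c⟩
    · rintro ⟨G, a, b, c⟩
      exact ⟨G, a, b.trans (subset_insert _ _), c⟩

lemma up_real {F : Set ι} {e : ι} (he : e ∉ F) (𝓐 : Set (Finset ι)) :
    (P ι).real (Up (insert e F) 𝓐) =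
      1 / 100 * (P ι).real (Up F (one e 𝓐)) + 99 / 100 * (P ι).real (Up F 𝓐) :=
  split he (dep_up _ _) (dep_up _ _) (up_insert F e 𝓐)

omit [Countable ι] in
lemma up_empty (𝓐 : Set (Finset ι)) : Up ∅ 𝓐 = ∅ ∨ Up ∅ 𝓐 = univ := by
  by_cases h : ∅ ∈ 𝓐
  · right; exact eq_univ_of_forall fun ω => ⟨∅, h, by simp, by simp [Op]⟩
  · left; refine eq_empty_of_forall_notMem ?_
    rintro ω ⟨G, a, b, -⟩
    rw [subset_empty_iff, Finset.coe_eq_empty] at b
    exact h (b ▸ a)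

lemma alg1 {a0 a1 b0 b1 c0 c1 : ℝ} (h0 : a0 * b0 ≤ c0) (h1 : a1 * b1 ≤ c1) (a : a0 ≤ a1)
    (b : b0 ≤ b1) : (1 / 100 * a1 + 99 / 100 * a0) * (1 / 100 * b1 + 99 / 100 * b0) ≤
      1 / 100 * c1 + 99 / 100 * c0 := by
  nlinarith [mul_nonneg (sub_nonneg.2 a) (sub_nonneg.2 b)]

lemma alg2 {a0 a1 b0 b1 c x y u v : ℝ} (h0 : c ≤ a0 * b0) (h1 : x ≤ a1 * b0) (h2 : y ≤ a0 * b1)
    (a : a0 ≤ a1) (b : b0 ≤ b1) (h3 : u + v = x + y) (h4 : c ≤ v) :
    1 / 100 * u + 99 / 100 * c ≤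
      (1 / 100 * a1 + 99 / 100 * a0) * (1 / 100 * b1 + 99 / 100 * b0) := by
  nlinarith [mul_nonneg (sub_nonneg.2 a) (sub_nonneg.2 b)]

lemma harris_fin (F : Finset ι) : ∀ 𝓐 𝓑 : Set (Finset ι),
    (P ι).real (Up F 𝓐) * (P ι).real (Up F 𝓑) ≤ (P ι).real (Up F 𝓐 ∩ Up F 𝓑) := by
  classical
  induction F using Finset.induction_on with
  | empty =>
    intro 𝓐 𝓑
    rw [Finset.coe_empty]
    rcases up_empty 𝓐 with h | h <;> simp [h]
  | insert e F he ih =>
    intro 𝓐 𝓑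
    have d1 : Dep F (Up F (one e 𝓐) ∩ Up F (one e 𝓑)) :=
      (dep_up _ (one e 𝓐)).inter (dep_up _ (one e 𝓑))
    have d2 : Dep F (Up F 𝓐 ∩ Up F 𝓑) := (dep_up _ 𝓐).inter (dep_up _ 𝓑)
    have h := split (Z := Up (insert e F) 𝓐 ∩ Up (insert e F) 𝓑) he d1 d2 (fun ω => by
      rw [mem_inter_iff, up_insert, up_insert]
      by_cases k : ω e = true <;> simp only [k, if_true, if_false, mem_inter_iff, Bool.false_eq_true])
    rw [Finset.coe_insert, up_real he, up_real he, h]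
    have a := measureReal_mono (μ := P ι) (up_one F e 𝓐)
    have b := measureReal_mono (μ := P ι) (up_one F e 𝓑)
    exact alg1 (ih 𝓐 𝓑) (ih (one e 𝓐) (one e 𝓑)) a b

lemma bk_fin (F : Finset ι) : ∀ 𝓐 𝓑 : Set (Finset ι),
    (P ι).real (Box F 𝓐 𝓑) ≤ (P ι).real (Up F 𝓐) * (P ι).real (Up F 𝓑) := by
  classical
  induction F using Finset.induction_on with
  | empty =>
    intro 𝓐 𝓑
    have : Box (∅ : Finset ι) 𝓐 𝓑 ⊆ Up (∅ : Finset ι) 𝓐 ∩ Up (∅ : Finset ι) 𝓑 :=
      fun ω ⟨G, a, H, b, c, d, _, f, g⟩ => ⟨⟨G, a, c, f⟩, H, b, d, g⟩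
    refine (measureReal_mono (μ := P ι) this (measure_ne_top _ _)).trans ?_
    rw [Finset.coe_empty]
    rcases up_empty 𝓐 with h | h <;> simp [h]
  | insert e F he ih =>
    intro 𝓐 𝓑
    have d1 := dep_box (F : Set ι) (one e 𝓐) 𝓑
    have d2 := dep_box (F : Set ι) 𝓐 (one e 𝓑)
    have he' : e ∉ (F : Set ι) := he
    have h1 := split he' (d1.union d2) (dep_box (F : Set ι) 𝓐 𝓑) (Z := {ω | if ω e = true then
      ω ∈ Box F (one e 𝓐) 𝓑 ∪ Box F 𝓐 (one e 𝓑) else ω ∈ Box F 𝓐 𝓑}) fun ω => Iff.rfl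
    have h2 : Box (insert e F : Finset ι) 𝓐 𝓑 ⊆ {ω | if ω e = true then
        ω ∈ Box F (one e 𝓐) 𝓑 ∪ Box F 𝓐 (one e 𝓑) else ω ∈ Box F 𝓐 𝓑} := by
      rintro ω ⟨G, a, H, b, c, d, k, f, g⟩
      rw [Finset.coe_insert] at c d
      have t : ∀ G : Finset ι, ↑G ⊆ insert e (F : Set ι) → e ∉ G → ↑G ⊆ (F : Set ι) :=
        fun G c h x hx => (c hx).resolve_left (by rintro rfl; exact h hx)
      have t' : ∀ G : Finset ι, ↑G ⊆ insert e (F : Set ι) → ↑(G.erase e) ⊆ (F : Set ι) :=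
        fun G c => t _ ((Finset.coe_subset.2 (G.erase_subset e)).trans c) (by simp)
      rw [mem_ofPred_eq]
      split_ifs with w
      · by_cases hG : e ∈ G
        · exact Or.inl ⟨G.erase e, Or.inr (by convert a; exact Finset.insert_erase hG), H, b,
            t' G c, t H d (Finset.disjoint_left.1 k hG), k.mono_left (G.erase_subset e),
            fun x hx => f x (Finset.mem_of_mem_erase hx), g⟩
        · refine Or.inr ⟨G, a, H.erase e, ?_, t G c hG, t' H d, k.mono_right (H.erase_subset e), f,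
            fun x hx => g x (Finset.mem_of_mem_erase hx)⟩
          by_cases hH : e ∈ H
          · right; convert b; exact Finset.insert_erase hH
          · left; rwa [Finset.erase_eq_of_notMem hH]
      · exact ⟨G, a, H, b, t G c fun h => w (f e h), t H d fun h => w (g e h), k, f, g⟩
    have h3 := measureReal_union_add_inter (μ := P ι) (s := Box F (one e 𝓐) 𝓑) d2.meas
    have h4 := measureReal_mono (μ := P ι) (show Box F 𝓐 𝓑 ⊆ Box F (one e 𝓐) 𝓑 ∩ Box F 𝓐 (one e 𝓑)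
      from fun ω ⟨G, a, H, b, c⟩ => ⟨⟨G, Or.inl a, H, b, c⟩, G, a, H, Or.inl b, c⟩)
    refine (measureReal_mono (μ := P ι) h2 (measure_ne_top _ _)).trans ?_
    rw [h1, Finset.coe_insert, up_real he, up_real he]
    have a := measureReal_mono (μ := P ι) (up_one F e 𝓐)
    have b := measureReal_mono (μ := P ι) (up_one F e 𝓑)
    exact alg2 (ih 𝓐 𝓑) (ih (one e 𝓐) 𝓑) (ih 𝓐 (one e 𝓑)) a b h3 h4

lemma exh (ι : Type) [Countable ι] : ∃ F : ℕ → Finset ι, Monotone F ∧ ∀ G : Finset ι, ∃ n, G ⊆ F n := by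
  classical
  obtain ⟨g, hg⟩ := exists_surjective_nat (Finset ι)
  refine ⟨fun n => (Finset.range (n + 1)).biUnion g, fun a b h =>
    Finset.biUnion_subset_biUnion_of_subset_left _ (by simpa), fun G => ?_⟩
  obtain ⟨n, rfl⟩ := hg G
  exact ⟨n, Finset.subset_biUnion_of_mem g (by simp)⟩

lemma real_le {a b c : ℝ≥0∞} (ha : a ≠ ⊤) (hb : b ≠ ⊤) (hc : c ≠ ⊤) :
    (a.toReal * b.toReal ≤ c.toReal → a * b ≤ c) ∧ (c.toReal ≤ a.toReal * b.toReal → c ≤ a * b) := by
  rw [← ENNReal.toReal_mul, ENNReal.toReal_le_toReal (ENNReal.mul_ne_top ha hb) hc,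
    ENNReal.toReal_le_toReal hc (ENNReal.mul_ne_top ha hb)]
  exact ⟨id, id⟩

def Forces (A : Set (ι → Bool)) : Set (Finset ι) := {G | ∀ ω, Op G ω → ω ∈ A}

/-- increasing events witnessed by finitely many open edges of `E` -/
def Inc (E : Set ι) (A : Set (ι → Bool)) : Prop := A ⊆ Up E (Forces A)

omit [Countable ι] in
lemma up_sub (E : Set ι) (A : Set (ι → Bool)) : Up E (Forces A) ⊆ A :=
  fun ω ⟨_, a, _, c⟩ => a ω c

lemma Inc.dep {E : Set ι} {A : Set (ι → Bool)} (h : Inc E A) : Dep E A := by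
  rw [← (up_sub E A).antisymm h]; exact dep_up _ _

omit [Countable ι] in
lemma Inc.mono {E E' : Set ι} {A : Set (ι → Bool)} (h : Inc E A) (h' : E ⊆ E') : Inc E' A :=
  fun _ hω => let ⟨G, a, b, c⟩ := h hω; ⟨G, a, b.trans h', c⟩

omit [Countable ι] in
lemma Inc.inter {E : Set ι} {A B : Set (ι → Bool)} (h : Inc E A) (h' : Inc E B) :
    Inc E (A ∩ B) := by
  classical
  rintro ω ⟨a, b⟩
  obtain ⟨G, a1, a2, a3⟩ := h a
  obtain ⟨H, b1, b2, b3⟩ := h' b
  refine ⟨G ∪ H, fun ω' k => ⟨a1 ω' fun e he => k e (by simp [he]),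
    b1 ω' fun e he => k e (by simp [he])⟩, by simp [a2, b2], fun e he => ?_⟩
  rcases Finset.mem_union.1 he with he | he
  exacts [a3 e he, b3 e he]

omit [Countable ι] in
lemma Inc.iUnion {κ : Sort*} {E : Set ι} {A : κ → Set (ι → Bool)} (h : ∀ i, Inc E (A i)) :
    Inc E (⋃ i, A i) := by
  intro ω hω
  obtain ⟨i, hi⟩ := mem_iUnion.1 hω
  obtain ⟨G, a, b⟩ := h i hi
  exact ⟨G, fun ω' k => mem_iUnion.2 ⟨i, a ω' k⟩, b⟩

omit [Countable ι] in
lemma Inc.union {E : Set ι} {A B : Set (ι → Bool)} (h : Inc E A) (h' : Inc E B) :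
    Inc E (A ∪ B) := by
  rw [union_eq_iUnion]; exact Inc.iUnion fun b => by cases b <;> assumption

omit [Countable ι] in
lemma inc_val {E : Set ι} {e : ι} (h : e ∈ E) : Inc E {ω | ω e = true} :=
  fun ω hω => ⟨{e}, fun ω' k => k e (by simp), by simpa, by simpa [Op]⟩

lemma harris {E E' : Set ι} {A B : Set (ι → Bool)} (hA : Inc E A) (hB : Inc E' B) :
    P ι A * P ι B ≤ P ι (A ∩ B) := by
  obtain ⟨F, hF, hF'⟩ := exh ι
  have t : ∀ {E A}, Inc E A → Tendsto (fun n => P ι (Up (F n) (Forces A))) atTop (𝓝 (P ι A)) := by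
    intro E A h
    have : A = ⋃ n, Up (F n) (Forces A) := by
      refine Subset.antisymm (fun ω hω => ?_) (iUnion_subset fun n => up_sub _ _)
      obtain ⟨G, a, -, c⟩ := h hω
      obtain ⟨n, hn⟩ := hF' G
      exact mem_iUnion.2 ⟨n, G, a, hn, c⟩
    nth_rewrite 2 [this]
    exact tendsto_measure_iUnion_atTop fun a b h ω ⟨G, x, y, z⟩ =>
      ⟨G, x, y.trans (Finset.coe_subset.2 (hF h)), z⟩
  refine le_of_tendsto' (ENNReal.Tendsto.mul (t hA) (Or.inr (measure_ne_top _ _)) (t hB)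
    (Or.inr (measure_ne_top _ _))) fun n => ?_
  exact ((real_le (measure_ne_top _ _) (measure_ne_top _ _) (measure_ne_top _ _)).1
    (harris_fin (F n) _ _)).trans (measure_mono (inter_subset_inter (up_sub _ _) (up_sub _ _)))

lemma bk (A B : Set (ι → Bool)) : P ι (Box univ (Forces A) (Forces B)) ≤ P ι A * P ι B := by
  classical
  obtain ⟨F, hF, hF'⟩ := exh ι
  have : Box univ (Forces A) (Forces B) = ⋃ n, Box (F n) (Forces A) (Forces B) := by
    refine Subset.antisymm ?_ (iUnion_subset fun n ω ⟨G, a, H, b, _, _, c⟩ =>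
      ⟨G, a, H, b, subset_univ _, subset_univ _, c⟩)
    rintro ω ⟨G, a, H, b, -, -, c⟩
    obtain ⟨n, hn⟩ := hF' (G ∪ H)
    exact mem_iUnion.2 ⟨n, G, a, H, b, Finset.coe_subset.2 (Finset.subset_union_left.trans hn),
      Finset.coe_subset.2 (Finset.subset_union_right.trans hn), c⟩
  have hm : Monotone fun n => Box (F n) (Forces A) (Forces B) := by
    rintro a b h ω ⟨G, x, H, y, z, w, k⟩
    exact ⟨G, x, H, y, z.trans (Finset.coe_subset.2 (hF h)), w.trans (Finset.coe_subset.2 (hF h)), k⟩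
  rw [this, hm.measure_iUnion]
  refine iSup_le fun n => ?_
  exact ((real_le (measure_ne_top _ _) (measure_ne_top _ _) (measure_ne_top _ _)).2
    (bk_fin (F n) _ _)).trans (mul_le_mul' (measure_mono (up_sub _ _)) (measure_mono (up_sub _ _)))

lemma harris_compl {E E' : Set ι} {A B : Set (ι → Bool)} (hA : Inc E A) (hB : Inc E' B) :
    P ι Aᶜ * P ι Bᶜ ≤ P ι (A ∪ B)ᶜ := by
  refine (real_le (measure_ne_top _ _) (measure_ne_top _ _) (measure_ne_top _ _)).1 ?_
  have h := ENNReal.toReal_mono (measure_ne_top _ _) (harris hA hB)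
  rw [ENNReal.toReal_mul] at h
  have h1 := measureReal_union_add_inter (μ := P ι) (s := A) hB.dep.meas
  have h2 := probReal_compl_eq_one_sub (μ := P ι) hA.dep.meas
  have h3 := probReal_compl_eq_one_sub (μ := P ι) hB.dep.meas
  have h4 := probReal_compl_eq_one_sub (μ := P ι) (hA.dep.meas.union hB.dep.meas)
  simp only [Measure.real] at h1 h2 h3 h4
  rw [h2, h3, h4]
  nlinarith

end Pool.Agent.H.MP_1775a6_pr
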