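import Pool.Agent.H.MP_1775a6_pr.A

/-! Connection events, Simon-Lieb inequality, supersolutions. -/

namespace Pool.Agent.H.MP_1775a6_pr

open MeasureTheory ProbabilityTheory Filter Topology Set Relation
open scoped ENNReal

variable {W : Type}

def Step (Γ : SimpleGraph W) (R : Set W) (ω : Sym2 W → Bool) (a b : W) : Prop :=
  a ∈ R ∧ b ∈ R ∧ Γ.Adj a b ∧ ω s(a, b) = true

def conn (Γ : SimpleGraph W) (R : Set W) (x y : W) : Set (Sym2 W → Bool) :=
  {ω | ReflTransGen (Step Γ R ω) x y}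

def Ed (R : Set W) : Set (Sym2 W) := {e | ∀ a ∈ e, a ∈ R}

noncomputable def tau (Γ : SimpleGraph W) (R : Set W) (x y : W) : ℝ≥0∞ := P _ (conn Γ R x y)

variable {Γ : SimpleGraph W} {R S : Set W} {x y z : W} {ω : Sym2 W → Bool}

lemma Ed_mono (h : R ⊆ S) : Ed R ⊆ Ed S := fun _ he a ha => h (he a ha)

lemma Ed_disj (h : Disjoint R S) : Disjoint (Ed R) (Ed S) := by
  rw [Set.disjoint_left]
  intro e h1 h2
  induction e using Sym2.ind with
  | h a b => exact Set.disjoint_left.1 h (h1 a (by simp)) (h2 a (by simp))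

lemma Ed_mk {a b : W} (ha : a ∈ R) (hb : b ∈ R) : s(a, b) ∈ Ed R := by
  intro c hc
  rcases Sym2.mem_iff.1 hc with rfl | rfl <;> assumption

lemma conn_mono (h : R ⊆ S) : conn Γ R x y ⊆ conn Γ S x y := by
  intro ω hω
  induction hω with
  | refl => exact ReflTransGen.refl
  | tail _ s ih => exact ReflTransGen.tail ih ⟨h s.1, h s.2.1, s.2.2⟩

lemma tau_mono (h : R ⊆ S) : tau Γ R x y ≤ tau Γ S x y := measure_mono (conn_mono h)

lemma conn_symm (h : ω ∈ conn Γ R x y) : ω ∈ conn Γ R y x := by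
  induction h with
  | refl => exact ReflTransGen.refl
  | tail _ s ih =>
    exact ReflTransGen.head ⟨s.2.1, s.1, s.2.2.1.symm, Sym2.eq_swap ▸ s.2.2.2⟩ ih

lemma tau_symm : tau Γ R x y = tau Γ R y x :=
  le_antisymm (measure_mono fun _ => conn_symm) (measure_mono fun _ => conn_symm)

lemma tau_le : tau Γ R x y ≤ 1 := prob_le_one

lemma tau_self : tau Γ R x x = 1 := by
  have : conn Γ R x x = univ := eq_univ_of_forall fun _ => ReflTransGen.refl
  simp [tau, this]

lemma conn_inv {X : W → Prop} (h : ω ∈ conn Γ R x y) (hx : X x)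
    (hs : ∀ a b, X a → Step Γ R ω a b → X b) : X y := by
  induction h with
  | refl => exact hx
  | tail _ k ih => exact hs _ _ ih k

lemma tau_zero {X : W → Prop} (hx : X x) (hy : ¬ X y)
    (hs : ∀ a b, X a → a ∈ R → b ∈ R → Γ.Adj a b → X b) : tau Γ R x y = 0 := by
  have : conn Γ R x y = ∅ := eq_empty_of_forall_notMem fun ω h =>
    hy (conn_inv h hx fun a b k s => hs a b k s.1 s.2.1 s.2.2.1)
  simp [tau, this]

lemma tau_out (hy : y ∉ R) (h : x ≠ y) : tau Γ R x y = 0 :=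
  tau_zero (X := fun a => a ≠ y) h (by simp) fun a b _ _ hb _ => by rintro rfl; exact hy hb

lemma conn_restrict (h : ω ∈ conn Γ R x y) (hS : ∀ a, ω ∈ conn Γ R x a → a ∈ S) :
    ω ∈ conn Γ (R ∩ S) x y := by
  induction h with
  | refl => exact ReflTransGen.refl
  | tail k s ih => exact ih.tail ⟨⟨s.1, hS _ k⟩, ⟨s.2.1, hS _ (k.tail s)⟩, s.2.2⟩

lemma inc_conn (Γ : SimpleGraph W) (R : Set W) (x y : W) : Inc (Ed R) (conn Γ R x y) := by
  intro ω h
  induction h with
  | refl => exact ⟨∅, fun _ _ => ReflTransGen.refl, by simp, by simp [Op]⟩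
  | @tail b c _ s ih =>
    obtain ⟨G, a1, a2⟩ := ih
    classical
    refine ⟨insert s(b, c) G, fun ω' k => ReflTransGen.tail (a1 ω' fun e he => k e (by simp [he]))
      ⟨s.1, s.2.1, s.2.2.1, k _ (by simp)⟩, ?_, fun e he => ?_⟩
    · rw [Finset.coe_insert]; exact insert_subset (Ed_mk s.1 s.2.1) a2.1
    · rcases Finset.mem_insert.1 he with rfl | he
      exacts [s.2.2.2, a2.2 e he]

lemma conn_fin (h : ω ∈ conn Γ R x y) : ∃ F : Finset W, ω ∈ conn Γ (R ∩ F) x y := by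
  classical
  induction h with
  | refl => exact ⟨∅, ReflTransGen.refl⟩
  | @tail b c _ s ih =>
    obtain ⟨F, hF⟩ := ih
    exact ⟨insert b (insert c F), ReflTransGen.tail (conn_mono (inter_subset_inter_right _
      (fun a ha => by simp [show a ∈ F from ha])) hF) ⟨⟨s.1, by simp⟩, ⟨s.2.1, by simp⟩, s.2.2⟩⟩

lemma conn_map {W' : Type} {Γ' : SimpleGraph W'} {R : Set W'} {f : W' → W} (hf : f.Injective)
    (h : ∀ a ∈ R, ∀ b ∈ R, Γ.Adj (f a) (f b) ↔ Γ'.Adj a b) (x y : W') :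
    conn Γ (f '' R) (f x) (f y) = (fun ω e => ω (Sym2.map f e)) ⁻¹' conn Γ' R x y := by
  ext ω
  constructor
  · intro k
    obtain ⟨y', e, k'⟩ := conn_inv (X := fun b => ∃ b', f b' = b ∧
      (fun e => ω (Sym2.map f e)) ∈ conn Γ' R x b') k ⟨x, rfl, ReflTransGen.refl⟩ (by
        rintro _ _ ⟨a, rfl, k⟩ ⟨h1, ⟨b, h2, rfl⟩, h3, h4⟩
        rw [hf.mem_set_image] at h1
        exact ⟨b, rfl, k.tail ⟨h1, h2, (h _ h1 _ h2).1 h3, h4⟩⟩)
    exact hf e ▸ k'
  · intro k
    exact conn_inv (X := fun b => ω ∈ conn Γ (f '' R) (f x) (f b)) k ReflTransGen.refl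
      fun a b k ⟨h1, h2, h3, h4⟩ => ReflTransGen.tail k
        ⟨mem_image_of_mem f h1, mem_image_of_mem f h2, (h _ h1 _ h2).2 h3, h4⟩

variable [Countable W]

lemma tau_map {W' : Type} [Countable W'] {Γ' : SimpleGraph W'} {R : Set W'} {f : W' → W}
    (hf : f.Injective) (h : ∀ a ∈ R, ∀ b ∈ R, Γ.Adj (f a) (f b) ↔ Γ'.Adj a b) (x y : W') :
    tau Γ (f '' R) (f x) (f y) = tau Γ' R x y := by
  rw [tau, conn_map hf h, P_map (Sym2.map.injective hf) (inc_conn _ _ _ _).dep.meas, tau]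

lemma tau_trans : tau Γ R x y * tau Γ R y z ≤ tau Γ R x z :=
  (harris (inc_conn _ _ _ _) (inc_conn _ _ _ _)).trans
    (measure_mono fun _ h => ReflTransGen.trans h.1 h.2)

lemma tau_edge (hx : x ∈ R) (hy : y ∈ R) (h : Γ.Adj x y) : p ≤ tau Γ R x y :=
  (P_true s(x, y)).symm.trans_le (measure_mono fun _ k => ReflTransGen.single ⟨hx, hy, h, k⟩)

omit [Countable W] in
lemma last_exit {A : Set W} (h : ω ∈ conn Γ R x z) (hx : x ∈ A) (hz : z ∉ A) :
    ∃ a ∈ A, ∃ b ∉ A, Step Γ R ω a b ∧ ω ∈ conn Γ (R \ A) b z := by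
  induction h with
  | refl => exact absurd hx hz
  | @tail b c _ s ih =>
    by_cases hb : b ∈ A
    · exact ⟨b, hb, c, hz, s, ReflTransGen.refl⟩
    · obtain ⟨a, h1, d, h2, h3, h4⟩ := ih hb
      exact ⟨a, h1, d, h2, h3, h4.tail ⟨⟨s.1, hb⟩, ⟨s.2.1, hz⟩, s.2.2⟩⟩

def Ex (Γ : SimpleGraph W) (R S : Set W) (a b : W) : Prop := a ∈ S ∧ b ∉ S ∧ b ∈ R ∧ Γ.Adj a b

open Classical in
lemma simon_lieb (hx : x ∈ S) : tau Γ R x z ≤ tau Γ S x z +
    ∑' a, ∑' b, if Ex Γ R S a b then tau Γ S x a * (p * tau Γ (R \ {x}) b z) else 0 := by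
  have sub : conn Γ R x z ⊆ conn Γ S x z ∪ ⋃ a, ⋃ b, ⋃ _ : Ex Γ R S a b, Box univ
      (Forces (conn Γ S x a)) (Forces ({ω | ω s(a, b) = true} ∩ conn Γ ((R \ {x}) \ {a}) b z)) := by
    intro ω h
    by_cases hz : ω ∈ conn Γ S x z
    · exact Or.inl hz
    right
    let A := {a | ω ∈ conn Γ S x a}
    have hA : ∀ a ∈ A, a ∈ S := fun a ha => conn_inv ha hx fun _ _ _ s => s.2.1
    have xA : x ∈ A := ReflTransGen.refl
    obtain ⟨a, h1, b, h2, h3, h4⟩ := last_exit h xA hz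
    have bS : b ∉ S := fun k => h2 (ReflTransGen.tail h1 ⟨hA a h1, k, h3.2.2⟩)
    simp only [mem_iUnion]
    refine ⟨a, b, ⟨hA a h1, bS, h3.2.1, h3.2.2.1⟩, ?_⟩
    obtain ⟨G, g1, g2, g3⟩ := inc_conn _ _ _ _ (conn_restrict (S := A) h1 fun _ k => k)
    obtain ⟨H, k1, k2, k3⟩ := inc_conn _ _ _ _ h4
    refine ⟨G, fun ω' k => conn_mono inter_subset_left (g1 ω' k), insert s(a, b) H,
      fun ω' k => ⟨k _ (by simp), conn_mono (show R \ A ⊆ (R \ {x}) \ {a} from fun c hc =>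
        ⟨⟨hc.1, fun k => hc.2 (k ▸ xA)⟩, fun k => hc.2 (k ▸ h1)⟩)
        (k1 ω' fun e he => k e (by simp [he]))⟩, subset_univ _, subset_univ _, ?_, g3,
      fun e he => ?_⟩
    · rw [Finset.disjoint_insert_right]
      refine ⟨fun k => h2 (g2 k b (by simp)).2, Finset.disjoint_coe.1 ?_⟩
      exact (Ed_disj (disjoint_sdiff_right.mono_left inter_subset_right)).mono g2 k2
    · rcases Finset.mem_insert.1 he with rfl | he
      exacts [h3.2.2.2, k3 e he]
  refine (measure_mono sub).trans ((measure_union_le _ _).trans (add_le_add_right ?_ _))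
  refine (measure_iUnion_le _).trans (ENNReal.tsum_le_tsum fun a => (measure_iUnion_le _).trans
    (ENNReal.tsum_le_tsum fun b => ?_))
  split_ifs with k
  · have hd : Disjoint {s(a, b)} (Ed ((R \ {x}) \ {a})) := by
      simp only [disjoint_singleton_left]
      exact fun k => (k a (by simp)).2 rfl
    have h1 := indep hd (dep_val (mem_singleton s(a, b)) true) (inc_conn Γ _ b z).dep
    rw [P_true] at h1
    refine (measure_mono (iUnion_subset fun _ => Subset.rfl)).trans ((bk _ _).trans ?_)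
    rw [h1]
    exact mul_le_mul_right (mul_le_mul_right (tau_mono sdiff_subset) _) _
  · simp [k]

lemma sum_exh (w : W → ℝ≥0∞) {C : ℝ≥0∞}
    (h : ∀ F : Finset W, ∑' y, tau Γ (R ∩ F) x y * w y ≤ C) : ∑' y, tau Γ R x y * w y ≤ C := by
  obtain ⟨F, hF, hF'⟩ := exh W
  have hm : ∀ y, Monotone fun n => conn Γ (R ∩ F n) x y := fun y a b k =>
    conn_mono (inter_subset_inter_right _ (Finset.coe_subset.2 (hF k)))
  have : ∀ y, tau Γ R x y = ⨆ n, tau Γ (R ∩ F n) x y := by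
    intro y
    rw [tau, show conn Γ R x y = ⋃ n, conn Γ (R ∩ F n) x y from ?_, (hm y).measure_iUnion]
    · rfl
    refine Subset.antisymm (fun ω k => ?_) (iUnion_subset fun n => conn_mono inter_subset_left)
    obtain ⟨G, hG⟩ := conn_fin k
    obtain ⟨n, hn⟩ := hF' G
    exact mem_iUnion.2 ⟨n, conn_mono (inter_subset_inter_right _ (Finset.coe_subset.2 hn)) hG⟩
  rw [ENNReal.tsum_eq_iSup_sum]
  refine iSup_le fun s => ?_
  simp only [this, ENNReal.iSup_mul]
  rw [ENNReal.finsetSum_iSup_of_monotone (f := fun y n => tau Γ (R ∩ F n) x y * w y)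
    fun y a b k => mul_le_mul_left (measure_mono (hm y k)) _]
  exact iSup_le fun n => (ENNReal.sum_le_tsum s).trans (h _)

open Classical in
lemma sl_sum (hx : x ∈ S) (w : W → ℝ≥0∞) : ∑' z, tau Γ R x z * w z ≤ ∑' z, tau Γ S x z * w z +
    ∑' a, ∑' b, if Ex Γ R S a b then
      tau Γ S x a * (p * ∑' z, tau Γ (R \ {x}) b z * w z) else 0 := by
  refine (ENNReal.tsum_le_tsum fun z => mul_le_mul_left (simon_lieb hx) _).trans_eq ?_
  simp only [add_mul, ENNReal.tsum_add, ← ENNReal.tsum_mul_right]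
  congr 1
  rw [ENNReal.tsum_comm]
  refine tsum_congr fun a => ?_
  rw [ENNReal.tsum_comm]
  refine tsum_congr fun b => ?_
  split_ifs
  · simp only [← ENNReal.tsum_mul_left, mul_assoc]
  · simp

open Classical in
lemma super (X : Set W) (S : W → Set W) (w Φ : W → ℝ≥0∞) (h1 : ∀ x ∈ X, x ∈ S x)
    (h2 : ∀ x ∈ X, ∀ a b, Ex Γ R (S x) a b → b ∈ X)
    (h3 : ∀ x ∈ X, ∑' z, tau Γ (S x) x z * w z +
      ∑' a, ∑' b, (if Ex Γ R (S x) a b then tau Γ (S x) x a * (p * Φ b) else 0) ≤ Φ x)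
    (hx : x ∈ X) : ∑' z, tau Γ R x z * w z ≤ Φ x := by
  refine sum_exh w fun F => ?_
  induction F using Finset.strongInduction generalizing x with
  | H F ih =>
    by_cases hF : x ∈ F
    · refine (sl_sum (h1 x hx) w).trans (le_trans (add_le_add_right ?_ _) (h3 x hx))
      refine ENNReal.tsum_le_tsum fun a => ENNReal.tsum_le_tsum fun b => ?_
      by_cases k : Ex Γ (R ∩ F) (S x) a b
      · have k' : Ex Γ R (S x) a b := ⟨k.1, k.2.1, k.2.2.1.1, k.2.2.2⟩
        rw [if_pos k, if_pos k']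
        refine mul_le_mul_right (mul_le_mul_right ?_ _) _
        convert ih (F.erase x) (Finset.erase_ssubset hF) (h2 x hx a b k') using 5
        rw [Finset.coe_erase, inter_sdiff_assoc]
      · simp [k]
    · refine le_trans (ENNReal.tsum_le_tsum fun z => mul_le_mul_left ?_ _)
        (le_self_add.trans (h3 x hx))
      by_cases e : x = z
      · rw [← e, tau_self, tau_self]
      · rw [tau_symm, tau_out (fun k => hF k.2) (Ne.symm e)]; exact zero_le

lemma subcrit (N : W → Finset W) (hN : ∀ x ∈ R, ∀ y ∈ R, Γ.Adj x y → y ∈ N x)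
    (hc : ∀ x, (N x).card ≤ 6) (w : W → ℝ≥0∞) (hw : ∀ x ∈ R, ∀ y ∈ R, Γ.Adj x y → w y ≤ 8 * w x)
    (hx : x ∈ R) : ∑' z, tau Γ R x z * w z ≤ 2 * w x := by
  classical
  refine super R (fun x => {x}) w (fun x => 2 * w x) (fun _ _ => rfl) (fun _ _ _ _ h => h.2.2.1)
    (fun x hx => ?_) hx
  rw [tsum_eq_single x fun z hz => by rw [tau_out (by simpa) hz.symm, zero_mul], tau_self, one_mul,
    tsum_eq_single x fun a ha => by simp [Ex, ha], two_mul (w x),
    tsum_eq_sum (s := N x) fun b hb => if_neg fun k => hb (hN x hx b k.2.2.1 k.2.2.2)]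
  refine add_le_add_right ((Finset.sum_le_card_nsmul _ _ (p * (2 * (8 * w x))) fun b _ => ?_).trans
    ?_) _
  · split_ifs with k
    · rw [tau_self, one_mul]
      exact mul_le_mul_right (mul_le_mul_right (hw x hx b k.2.2.1 k.2.2.2) _) _
    · exact zero_le
  · rw [nsmul_eq_mul, ← mul_assoc, ← mul_assoc, ← mul_assoc]
    refine mul_le_of_le_one_left' (le_trans (mul_le_mul_left (mul_le_mul_left (mul_le_mul_left
      (Nat.cast_le.2 (hc x)) _) _) _) ?_)
    rw [← ENNReal.toReal_le_toReal (by simp [p]; finiteness) (by simp)]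
    simp [p]; norm_num

lemma bonf {Ω κ : Type*} [MeasurableSpace Ω] (μ : Measure Ω) (s : Finset κ) (Z : κ → Set Ω)
    (a : κ → ℝ≥0∞) (hZ : ∀ i ∈ s, MeasurableSet (Z i))
    (h : ∀ i ∈ s, ∀ j ∈ s, i ≠ j → μ (Z i ∩ Z j) ≤ a i * a j) :
    ∑ i ∈ s, μ (Z i) ≤ μ (⋃ i ∈ s, Z i) + (∑ i ∈ s, a i) ^ 2 := by
  classical
  induction s using Finset.induction_on with
  | empty => simp
  | insert b s hb ih =>
    have m : MeasurableSet (⋃ i ∈ s, Z i) :=
      MeasurableSet.biUnion s.countable_toSet fun i hi => hZ i (by simp [show i ∈ s from hi])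
    have h1 := measure_union_add_inter (μ := μ) (Z b) m
    have h2 : μ (Z b ∩ ⋃ i ∈ s, Z i) ≤ a b * ∑ i ∈ s, a i := by
      rw [inter_iUnion₂, Finset.mul_sum]
      exact (measure_biUnion_finset_le _ _).trans (Finset.sum_le_sum fun i hi =>
        h b (by simp) i (by simp [hi]) (by rintro rfl; exact hb hi))
    rw [Finset.sum_insert hb, Finset.sum_insert hb, Finset.set_biUnion_insert]
    calc _ ≤ μ (Z b) + (μ (⋃ i ∈ s, Z i) + (∑ i ∈ s, a i) ^ 2) := add_le_add_right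
          (ih (fun i hi => hZ i (by simp [hi])) fun i hi j hj => h i (by simp [hi]) j
            (by simp [hj])) _
      _ ≤ μ (Z b ∪ ⋃ i ∈ s, Z i) + (a b * ∑ i ∈ s, a i + (∑ i ∈ s, a i) ^ 2) := by
          rw [← add_assoc, ← h1, add_assoc]; gcongr
      _ ≤ _ := by
          gcongr
          rw [sq, sq, ← add_mul]
          exact mul_le_mul_right le_add_self _

end Pool.Agent.H.MP_1775a6_pr
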