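import Pool.Agent.H.MP_1775a6_pr.B

/-! Products with the line: fibre sums. -/

namespace Pool.Agent.H.MP_1775a6_pr

open MeasureTheory ProbabilityTheory Filter Topology Set Relation
open scoped ENNReal

variable {V : Type}

noncomputable abbrev Z (G : SimpleGraph V) : SimpleGraph (V × ℤ) := G.boxProd (SimpleGraph.hasse ℤ)

variable {G : SimpleGraph V} {R S : Set V} {v w z h : V}

lemma Z_adj {x y : V × ℤ} : (Z G).Adj x y ↔
    (G.Adj x.1 y.1 ∧ x.2 = y.2) ∨ (x.1 = y.1 ∧ (x.2 + 1 = y.2 ∨ y.2 + 1 = x.2)) := by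
  simp only [SimpleGraph.boxProd_adj, SimpleGraph.hasse_adj, Order.covBy_iff_add_one_eq]
  tauto

def cyl (S : Set V) : Set (V × ℤ) := {x | x.1 ∈ S}

def bx (S : Set V) (lo hi : ℤ) : Set (V × ℤ) := {x | x.1 ∈ S ∧ lo ≤ x.2 ∧ x.2 ≤ hi}

noncomputable def T (G : SimpleGraph V) (S : Set V) (v w : V) : ℝ≥0∞ :=
  ∑' n : ℤ, tau (Z G) (cyl S) (v, 0) (w, n)

lemma T_mono (h : R ⊆ S) : T G R v w ≤ T G S v w :=
  ENNReal.tsum_le_tsum fun _ => tau_mono fun _ k => h k

lemma T_zero {X : V → Prop} (hx : X v) (hy : ¬ X w)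
    (hs : ∀ a b, X a → a ∈ S → b ∈ S → G.Adj a b → X b) : T G S v w = 0 := by
  refine ENNReal.tsum_eq_zero.2 fun n => tau_zero (X := fun x => X x.1) hx hy ?_
  intro a b k ha hb hab
  rcases Z_adj.1 hab with e | e
  exacts [hs _ _ k ha hb e.1, e.1 ▸ k]

lemma T_out (hw : w ∉ S) (e : v ≠ w) : T G S v w = 0 :=
  T_zero (X := fun a => a ≠ w) e (by simp) fun a b _ _ hb _ => by rintro rfl; exact hw hb

lemma one_le_T : 1 ≤ T G S v v := tau_self.symm.trans_le (ENNReal.le_tsum (0 : ℤ))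

variable [Countable V]

lemma tau_lift {V' : Type} [Countable V'] {G' : SimpleGraph V'} {S : Set V'} {f : V' → V}
    (hf : f.Injective) (h : ∀ a ∈ S, ∀ b ∈ S, G.Adj (f a) (f b) ↔ G'.Adj a b) (k : ℤ)
    {A : Set (V' × ℤ)} {B : Set (V × ℤ)} (hA : A ⊆ cyl S)
    (hB : ∀ y, y ∈ B ↔ ∃ a, f a = y.1 ∧ (a, y.2 - k) ∈ A) (v w : V') (n m : ℤ) :
    tau (Z G) B (f v, n + k) (f w, m + k) = tau (Z G') A (v, n) (w, m) := by
  have := tau_map (Γ := Z G) (Γ' := Z G') (R := A) (f := fun x => (f x.1, x.2 + k))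
    (fun a b e => by
      simp only [Prod.mk.injEq, add_left_inj] at e
      exact Prod.ext (hf e.1) e.2)
    (fun a ha b hb => by
      simp only [Z_adj, h _ (hA ha) _ (hA hb), hf.eq_iff, add_left_inj, add_right_comm _ k])
    (v, n) (w, m)
  rw [← this]
  congr 1
  ext y
  rw [hB]
  constructor
  · rintro ⟨a, e, k⟩; exact ⟨_, k, by simp [e]⟩
  · rintro ⟨a, k, rfl⟩; exact ⟨a.1, rfl, by simpa⟩

lemma cyl_lift {V' : Type} [Countable V'] {G' : SimpleGraph V'} {S : Set V'} {f : V' → V}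
    (hf : f.Injective) (h : ∀ a ∈ S, ∀ b ∈ S, G.Adj (f a) (f b) ↔ G'.Adj a b) (k : ℤ)
    (v w : V') (n m : ℤ) :
    tau (Z G) (cyl (f '' S)) (f v, n + k) (f w, m + k) = tau (Z G') (cyl S) (v, n) (w, m) :=
  tau_lift hf h k Subset.rfl (fun y => by simp [cyl, and_comm]) v w n m

lemma bx_lift {V' : Type} [Countable V'] {G' : SimpleGraph V'} {S : Set V'} {f : V' → V}
    (hf : f.Injective) (h : ∀ a ∈ S, ∀ b ∈ S, G.Adj (f a) (f b) ↔ G'.Adj a b) (k lo hi : ℤ)
    (v w : V') (n m : ℤ) :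
    tau (Z G) (bx (f '' S) (lo + k) (hi + k)) (f v, n + k) (f w, m + k) =
      tau (Z G') (bx S lo hi) (v, n) (w, m) :=
  tau_lift hf h k (fun _ k => k.1) (fun y => by
    simp only [bx, mem_image, mem_ofPred_eq]
    constructor
    · rintro ⟨⟨a, h1, h2⟩, h3⟩; exact ⟨a, h2, h1, by omega⟩
    · rintro ⟨a, h1, h2, h3⟩; exact ⟨⟨a, h2, h1⟩, by omega⟩) v w n m

lemma T_lift {V' : Type} [Countable V'] {G' : SimpleGraph V'} {S : Set V'} {f : V' → V}
    (hf : f.Injective) (h : ∀ a ∈ S, ∀ b ∈ S, G.Adj (f a) (f b) ↔ G'.Adj a b) (v w : V') :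
    T G (f '' S) (f v) (f w) = T G' S v w :=
  tsum_congr fun n => by simpa using cyl_lift hf h 0 v w 0 n

lemma cyl_shift (n m : ℤ) :
    tau (Z G) (cyl S) (v, n) (w, m) = tau (Z G) (cyl S) (v, 0) (w, m - n) := by
  simpa using cyl_lift (G := G) (S := S) Function.injective_id (fun _ _ _ _ => Iff.rfl) n v w 0
    (m - n)

lemma T_at (k : ℤ) : ∑' n, tau (Z G) (cyl S) (v, k) (w, n) = T G S v w := by
  simp only [cyl_shift k]
  exact (Equiv.subRight k).tsum_eq fun n => tau (Z G) (cyl S) (v, 0) (w, n)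

lemma T_symm : T G S v w = T G S w v := by
  rw [T, T, ← (Equiv.neg ℤ).tsum_eq]
  refine tsum_congr fun n => ?_
  rw [tau_symm, cyl_shift]; simp

open Classical in
lemma exit_sum (x : V × ℤ) (Φ : V → ℝ≥0∞) :
    ∑' a, ∑' b, (if Ex (Z G) (cyl R) (cyl S) a b then tau (Z G) (cyl S) x a * (p * Φ b.1) else 0) ≤
      ∑' a, ∑' b, if Ex G R S a b then T G S x.1 a * (p * Φ b) else 0 := by
  rw [ENNReal.tsum_prod']
  refine ENNReal.tsum_le_tsum fun a => ?_
  simp only [ENNReal.tsum_prod']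
  rw [ENNReal.tsum_comm]
  refine ENNReal.tsum_le_tsum fun b => ?_
  have : ∀ n m, Ex (Z G) (cyl R) (cyl S) (a, n) (b, m) → m = n ∧ Ex G R S a b := by
    rintro n m ⟨h1, h2, h3, h4⟩
    rcases Z_adj.1 h4 with e | e
    · exact ⟨e.2.symm, h1, h2, h3, e.1⟩
    · exact absurd (show b ∈ S from (show a = b from e.1) ▸ h1) h2
  split_ifs with k
  · rw [← T_at x.2, ← ENNReal.tsum_mul_right]
    refine ENNReal.tsum_le_tsum fun n => ?_
    rw [tsum_eq_single n fun m hm => if_neg fun k => hm (this n m k).1]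
    split_ifs
    exacts [le_rfl, zero_le]
  · simp only [nonpos_iff_eq_zero, ENNReal.tsum_eq_zero]
    exact fun n m => if_neg fun k' => k (this n m k').2

open Classical in
lemma sum_fib (A : Set (V × ℤ)) (x : V × ℤ) :
    ∑' y, tau (Z G) A x y * (if y.1 = z then 1 else 0) = ∑' n, tau (Z G) A x (z, n) := by
  rw [ENNReal.tsum_prod', tsum_eq_single z fun a ha => by simp [ha]]
  simp

open Classical in
lemma T_sl (hv : v ∈ S) : T G R v z ≤ T G S v z +
    ∑' a, ∑' b, if Ex G R S a b then T G S v a * (p * T G R b z) else 0 := by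
  have := sl_sum (Γ := Z G) (R := cyl R) (S := cyl S) (x := (v, 0)) hv
    fun y => if y.1 = z then 1 else 0
  simp only [sum_fib] at this
  refine this.trans (add_le_add_right (le_trans ?_ (exit_sum (v, 0) fun b => T G R b z)) _)
  refine ENNReal.tsum_le_tsum fun a => ENNReal.tsum_le_tsum fun b => ?_
  split_ifs
  · refine mul_le_mul_right (mul_le_mul_right ?_ _) _
    rw [← T_at b.2]
    exact ENNReal.tsum_le_tsum fun n => tau_mono sdiff_subset
  · rfl

open Classical in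
lemma T_super (X : Set V) (S : V → Set V) (Φ : V → ℝ≥0∞) (h1 : ∀ x ∈ X, x ∈ S x)
    (h2 : ∀ x ∈ X, ∀ a b, Ex G R (S x) a b → b ∈ X)
    (h3 : ∀ x ∈ X, T G (S x) x z +
      ∑' a, ∑' b, (if Ex G R (S x) a b then T G (S x) x a * (p * Φ b) else 0) ≤ Φ x)
    (hv : v ∈ X) : T G R v z ≤ Φ v := by
  have := super (Γ := Z G) (R := cyl R) (x := (v, 0)) (cyl X) (fun x => cyl (S x.1))
    (fun y => if y.1 = z then 1 else 0) (fun y => Φ y.1) (fun x hx => h1 _ hx) ?_ ?_ hv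
  · rwa [sum_fib] at this
  · rintro x hx a b ⟨k1, k2, k3, k4⟩
    rcases Z_adj.1 k4 with e | e
    · exact h2 _ hx _ _ ⟨k1, k2, k3, e.1⟩
    · exact absurd (show b.1 ∈ S x.1 from e.1 ▸ k1) k2
  · intro x hx
    rw [sum_fib, show x = (x.1, x.2) from rfl, T_at]
    exact le_trans (add_le_add_right (exit_sum x Φ) _) (h3 _ hx)

/-- bounded degree region -/
def Thin (G : SimpleGraph V) (O : Set V) : Prop :=
  ∃ N : V → Finset V, (∀ x ∈ O, ∀ y ∈ O, G.Adj x y → y ∈ N x) ∧ ∀ x, (N x).card ≤ 4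

lemma Thin.sub {O : Set V} (hO : Thin G O) (w : V × ℤ → ℝ≥0∞)
    (hw : ∀ x ∈ cyl O, ∀ y ∈ cyl O, (Z G).Adj x y → w y ≤ 8 * w x) {x : V × ℤ} (hx : x.1 ∈ O) :
    ∑' y, tau (Z G) (cyl O) x y * w y ≤ 2 * w x := by
  classical
  obtain ⟨N, h1, h2⟩ := hO
  refine subcrit (fun x => insert (x.1, x.2 + 1) (insert (x.1, x.2 - 1)
    ((N x.1).image fun a => (a, x.2)))) (fun x hx y hy k => ?_) (fun x => ?_) w hw hx
  · simp only [Finset.mem_insert, Finset.mem_image, Prod.ext_iff]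
    rcases Z_adj.1 k with e | ⟨e, e' | e'⟩
    · exact Or.inr (Or.inr ⟨_, h1 _ hx _ hy e.1, rfl, e.2⟩)
    · exact Or.inl ⟨e.symm, e'.symm⟩
    · exact Or.inr (Or.inl ⟨e.symm, by omega⟩)
  · have := h2 x.1
    grw [Finset.card_insert_le, Finset.card_insert_le, Finset.card_image_le]
    omega

lemma Thin.depth {O : Set V} (hO : Thin G O) (g : V → ℕ)
    (hg : ∀ x ∈ O, ∀ y ∈ O, G.Adj x y → g x ≤ g y + 1) (hv : v ∈ O) :
    ∑' a, T G O v a * 8⁻¹ ^ g a ≤ 2 * 8⁻¹ ^ g v := by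
  have := hO.sub (fun y => 8⁻¹ ^ g y.1) (fun x hx y hy k => ?_) (x := (v, 0)) hv
  · simpa only [ENNReal.tsum_prod', ENNReal.tsum_mul_right, T] using this
  · have : g x.1 ≤ g y.1 + 1 := by
      rcases Z_adj.1 k with e | e
      exacts [hg _ hx _ hy e.1, by rw [e.1]; omega]
    calc (8⁻¹ : ℝ≥0∞) ^ g y.1 = 8 * 8⁻¹ ^ (g y.1 + 1) := by
          rw [pow_succ', ← mul_assoc, ENNReal.mul_inv_cancel (by simp) (by simp), one_mul]
      _ ≤ _ := mul_le_mul_right (pow_le_pow_right_of_le_one' (by simp) this) _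

lemma Thin.total {O : Set V} (hO : Thin G O) (hv : v ∈ O) : ∑' a, T G O v a ≤ 2 := by
  simpa using hO.depth (fun _ => 0) (by simp) hv

lemma Thin.vert {O : Set V} (hO : Thin G O) {x : V × ℤ} (hx : x.1 ∈ O) (r : ℕ) :
    ∑' y, (if r ≤ (y.2 - x.2).natAbs then tau (Z G) (cyl O) x y else 0) ≤ 2 * 8⁻¹ ^ r := by
  have := hO.sub (fun y => 8 ^ (y.2 - x.2).natAbs) (fun a _ b _ k => ?_) hx
  · simp only [sub_self, Int.natAbs_zero, pow_zero, mul_one] at this
    refine le_trans ?_ (mul_le_mul_left this _)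
    rw [← ENNReal.tsum_mul_right]
    refine ENNReal.tsum_le_tsum fun y => ?_
    split_ifs with k
    · rw [mul_assoc]
      refine le_mul_of_one_le_right' ?_
      calc (1 : ℝ≥0∞) = 8 ^ r * 8⁻¹ ^ r := by
            rw [← mul_pow, ENNReal.mul_inv_cancel (by simp) (by simp), one_pow]
        _ ≤ _ := mul_le_mul_left (pow_le_pow_right₀ (by norm_num) k) _
    · exact zero_le
  · rw [← pow_succ']
    refine pow_le_pow_right₀ (by norm_num) ?_
    rcases Z_adj.1 k with e | e <;> omega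

lemma Thin.far {O : Set V} (hO : Thin G O) {x : V × ℤ} (hx : x.1 ∈ O) (r : ℕ) :
    P _ (⋃ y, ⋃ _ : r ≤ (y.2 - x.2).natAbs, conn (Z G) (cyl O) x y) ≤ 2 * 8⁻¹ ^ r := by
  refine (measure_iUnion_le _).trans (le_trans (ENNReal.tsum_le_tsum fun y => ?_) (hO.vert hx r))
  split_ifs with k
  · simp only [k, iUnion_true]; rfl
  · simp [k]

structure Piece (G : SimpleGraph V) (S : Set V) (h : V) (Rt : Finset V) : Prop where
  hub : h ∈ S
  rt : ∀ a, a ∈ Rt ↔ a ∈ S ∧ G.Adj a h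
  thin : Thin G (S \ {h})

noncomputable def beta (G : SimpleGraph V) (S : Set V) (h : V) (Rt : Finset V) (v : V) : ℝ≥0∞ :=
  p * ∑ a ∈ Rt, T G (S \ {h}) v a

variable {Rt : Finset V}

omit [Countable V] in
lemma Piece.rt_mem (hP : Piece G S h Rt) {a : V} (ha : a ∈ Rt) : a ∈ S \ {h} :=
  ⟨((hP.rt a).1 ha).1, ((hP.rt a).1 ha).2.ne⟩

lemma Piece.m1 (hP : Piece G S h Rt) (hv : v ∈ S \ {h}) :
    T G S v z ≤ T G (S \ {h}) v z + beta G S h Rt v * T G S h z := by
  classical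
  refine (T_sl hv).trans (add_le_add_right ?_ _)
  have : ∀ a b, Ex G S (S \ {h}) a b → b = h ∧ a ∈ Rt := by
    rintro a b ⟨h1, h2, h3, h4⟩
    have : b = h := by_contra fun k => h2 ⟨h3, k⟩
    exact ⟨this, (hP.rt a).2 ⟨h1.1, this ▸ h4⟩⟩
  rw [tsum_eq_sum (s := Rt) fun a ha => by
    simp only [ENNReal.tsum_eq_zero]; exact fun b => if_neg fun k => ha (this a b k).2,
    beta, mul_comm p, Finset.sum_mul, Finset.sum_mul]
  refine Finset.sum_le_sum fun a _ => ?_
  rw [tsum_eq_single h fun b hb => if_neg fun k => hb (this a b k).1, mul_assoc]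
  split_ifs
  exacts [le_rfl, zero_le]

lemma Piece.m1' (hP : Piece G S h Rt) (hv : v ∈ S \ {h}) :
    T G S h v ≤ beta G S h Rt v * T G S h h := by
  rw [T_symm]
  refine (hP.m1 hv).trans_eq ?_
  rw [T_out (by simp) hv.2, zero_add]

lemma Piece.m1'' (hP : Piece G S h Rt) (hv : v ∈ S \ {h}) (hz : z ∈ S \ {h}) :
    T G S v z ≤ T G (S \ {h}) v z + beta G S h Rt v * beta G S h Rt z * T G S h h := by
  rw [mul_assoc]
  exact (hP.m1 hv).trans (add_le_add_right (mul_le_mul_right (hP.m1' hz) _) _)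

lemma two_p : p * 2 ≤ 1 := by
  rw [← ENNReal.toReal_le_toReal (by simp [p]; finiteness) (by simp)]
  simp [p]; norm_num

lemma Piece.m2 (hP : Piece G S h Rt) (g : V → ℕ)
    (hg : ∀ x ∈ S \ {h}, ∀ y ∈ S \ {h}, G.Adj x y → g x ≤ g y + 1) (hr : ∀ a ∈ Rt, g a ≤ 1)
    (hv : v ∈ S \ {h}) : beta G S h Rt v ≤ 8⁻¹ ^ g v := by
  have h1 : (∑ a ∈ Rt, T G (S \ {h}) v a) ≤ 8 * (2 * 8⁻¹ ^ g v) := by
    refine le_trans ?_ (mul_le_mul_right ((ENNReal.sum_le_tsum Rt).trans (hP.thin.depth g hg hv)) _)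
    rw [Finset.mul_sum]
    refine Finset.sum_le_sum fun a ha => ?_
    rw [mul_left_comm]
    refine le_mul_of_one_le_right' ?_
    calc (1 : ℝ≥0∞) = 8 * 8⁻¹ ^ 1 := by rw [pow_one, ENNReal.mul_inv_cancel (by simp) (by simp)]
      _ ≤ _ := mul_le_mul_right (pow_le_pow_right_of_le_one' (by simp) (hr a ha)) _
  refine (mul_le_mul_right h1 p).trans ?_
  rw [← mul_assoc, ← mul_assoc]
  refine mul_le_of_le_one_left' ?_
  rw [← ENNReal.toReal_le_toReal (by simp [p]; finiteness) (by simp)]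
  simp [p]; norm_num

lemma Piece.m3 (hP : Piece G S h Rt) : ∑' v, T G S h v ≤ (1 + Rt.card) * T G S h h := by
  classical
  have h1 : ∀ v, T G S h v ≤ (if v = h then T G S h h else 0) +
      (∑ a ∈ Rt, p * T G (S \ {h}) a v) * T G S h h := by
    intro v
    by_cases e : v = h
    · simp [e]
    by_cases hv : v ∈ S
    · refine (hP.m1' ⟨hv, e⟩).trans (le_trans (le_of_eq ?_) le_add_self)
      simp only [beta, Finset.mul_sum, T_symm (v := v)]
    · rw [T_out hv (Ne.symm e)]; exact zero_le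
  refine (ENNReal.tsum_le_tsum h1).trans ?_
  rw [ENNReal.tsum_add, tsum_ite_eq, ENNReal.tsum_mul_right, add_mul, one_mul,
    Summable.tsum_finsetSum fun _ _ => ENNReal.summable]
  refine add_le_add_right (mul_le_mul_left ?_ _) _
  refine (Finset.sum_le_card_nsmul _ _ 1 fun a ha => ?_).trans (by simp)
  rw [ENNReal.tsum_mul_left]
  exact (mul_le_mul_right (hP.thin.total (hP.rt_mem ha)) _).trans two_p

lemma tail (N : ℕ) : N * ∑' t : ℤ, (if (N : ℤ) ≤ t then tau (Z G) (cyl S) (h, 0) (h, t) else 0) ≤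
    (∑' v, T G S h v) ^ 2 := by
  classical
  have key : ∀ j : ℕ, j < N → ∑' t : ℤ, (if (N : ℤ) ≤ t then tau (Z G) (cyl S) (h, 0) (h, t) else 0)
      ≤ ∑' v, tau (Z G) (cyl S) (h, 0) (v, j) * T G S h v := by
    intro j hj
    by_cases hS : h ∈ S
    swap
    · refine le_of_eq_of_le (ENNReal.tsum_eq_zero.2 fun t => ?_) zero_le
      split_ifs with k
      · exact tau_out hS (by simp; omega)
      · rfl
    let A : Set (V × ℤ) := {x | x.1 ∈ S ∧ x.2 ≤ j}
    have := sl_sum (Γ := Z G) (R := cyl S) (S := A) (x := (h, 0)) ⟨hS, by simp⟩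
      fun y => if y.1 = h ∧ (N : ℤ) ≤ y.2 then 1 else 0
    rw [ENNReal.tsum_eq_zero.2 (fun y => show tau (Z G) A (h, 0) y * _ = 0 by
      split_ifs with k
      · rw [tau_out (fun k' => by have := k'.2; omega) (by rintro rfl; simp at k; omega), zero_mul]
      · simp), zero_add, ENNReal.tsum_prod', tsum_eq_single h fun a ha => by simp [ha]] at this
    simp only [true_and, mul_ite, mul_one, mul_zero] at this
    refine this.trans ?_
    rw [ENNReal.tsum_prod']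
    refine ENNReal.tsum_le_tsum fun v => ?_
    have ex : ∀ n b, Ex (Z G) (cyl S) A (v, n) b → n = j ∧ b = (v, (j : ℤ) + 1) := by
      rintro n b ⟨h1, h2, h3, h4⟩
      have h5 : ¬ b.2 ≤ j := fun k => h2 ⟨h3, k⟩
      have h6 : n ≤ j := h1.2
      rcases Z_adj.1 h4 with e | e
      · simp at e; omega
      · simp only at e
        exact ⟨by omega, Prod.ext e.1.symm (by simp; omega)⟩
    rw [tsum_eq_single (j : ℤ) fun n hn => ENNReal.tsum_eq_zero.2 fun b => if_neg fun k =>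
      hn (ex n b k).1, tsum_eq_single _ fun b hb => if_neg fun k => hb (ex _ b k).2]
    split_ifs
    · refine mul_le_mul' (tau_mono fun _ k => k.1) (mul_le_of_le_one_of_le p_le ?_)
      rw [T_symm, ← T_at ((j : ℤ) + 1), ← sum_fib]
      refine ENNReal.tsum_le_tsum fun y => ?_
      split_ifs with k1 k2
      · rw [mul_one]; exact tau_mono sdiff_subset
      · exact absurd k1.1 k2
      all_goals exact zero_le
    · exact zero_le
  calc _ = ∑ j ∈ Finset.range N, ∑' t : ℤ,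
        (if (N : ℤ) ≤ t then tau (Z G) (cyl S) (h, 0) (h, t) else 0) := by simp
    _ ≤ ∑ j ∈ Finset.range N, ∑' v, tau (Z G) (cyl S) (h, 0) (v, j) * T G S h v :=
        Finset.sum_le_sum fun j hj => key j (Finset.mem_range.1 hj)
    _ ≤ ∑' v, T G S h v * ∑' v, T G S h v := by
        rw [← Summable.tsum_finsetSum fun _ _ => ENNReal.summable]
        refine ENNReal.tsum_le_tsum fun v => ?_
        rw [← Finset.sum_mul]
        refine mul_le_mul' ?_ (ENNReal.le_tsum v)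
        exact (ENNReal.sum_le_tsum _).trans (ENNReal.tsum_comp_le_tsum_of_injective
          Nat.cast_injective fun n : ℤ => tau (Z G) (cyl S) (h, 0) (v, n))
    _ = _ := by rw [ENNReal.tsum_mul_right, sq]

end Pool.Agent.H.MP_1775a6_pr
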