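import Pool.Agent.H.MP_1775a6_pr.C

/-! Two-sided bounds for one piece. -/

namespace Pool.Agent.H.MP_1775a6_pr

open MeasureTheory ProbabilityTheory Filter Topology Set Relation
open scoped ENNReal

variable {V : Type} {G : SimpleGraph V} {S : Set V} {v w z h : V} {Rt : Finset V}

def Br (G : SimpleGraph V) (A : Set (V × ℤ)) (t : ℤ) (a : V) : Set (Sym2 (V × ℤ) → Bool) :=
  ⋃ i : ℕ, ⋃ y : V × ℤ, ⋃ _ : t < y.2, conn (Z G) A (a, t - i) y

def Fa (G : SimpleGraph V) (O : Set V) (t : ℤ) (J : ℕ) (a : V) : Set (Sym2 (V × ℤ) → Bool) :=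
  ⋃ i : ℕ, ⋃ y : V × ℤ, ⋃ _ : max (i + 1) J ≤ (y.2 - (t - i)).natAbs,
    conn (Z G) (cyl O) (a, t - i) y

def Cu (G : SimpleGraph V) (A : Set (V × ℤ)) (h : V) (Rt : Finset V) (t : ℤ) :
    Set (Sym2 (V × ℤ) → Bool) :=
  {ω | ω s((h, t), (h, t + 1)) = true} ∪ ⋃ a ∈ Rt, Br G A t a

lemma bx_of {O : Set V} {lo hi : ℤ} {x y : V × ℤ} {ω : Sym2 (V × ℤ) → Bool}
    (k : ω ∈ conn (Z G) (cyl O) x y)
    (k' : ∀ a, ω ∈ conn (Z G) (cyl O) x a → lo ≤ a.2 ∧ a.2 ≤ hi) : ω ∈ conn (Z G) (bx O lo hi) x y :=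
  conn_restrict (S := {x : V × ℤ | lo ≤ x.2 ∧ x.2 ≤ hi}) k k'

lemma mem_bx {O : Set V} {lo hi n : ℤ} (k : v ∈ O) (k1 : lo ≤ n) (k2 : n ≤ hi) :
    (v, n) ∈ bx O lo hi := ⟨k, k1, k2⟩

lemma bx_sub {O : Set V} {lo hi : ℤ} : bx O lo hi ⊆ cyl O := fun _ k => k.1

lemma bx_univ {O : Set V} {lo hi : ℤ} : bx O lo hi ⊆ bx univ lo hi := fun _ k => ⟨trivial, k.2⟩

lemma hor {n : ℤ} {ω : Sym2 (V × ℤ) → Bool} (hv : v ∈ S) (hw : w ∈ S) (k : G.Adj v w)
    (k' : ω s((v, n), (w, n)) = true) : ω ∈ conn (Z G) (cyl S) (v, n) (w, n) :=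
  ReflTransGen.single ⟨hv, hw, Z_adj.2 (Or.inl ⟨k, rfl⟩), k'⟩

lemma Piece.cut1 (hP : Piece G S h Rt) {n t : ℤ} (h0 : 0 ≤ t) (hn : t < n) :
    conn (Z G) (cyl S) (h, 0) (h, n) ⊆ Cu G (cyl (S \ {h})) h Rt t := by
  intro ω hω
  by_contra hc
  simp only [Cu, Br, mem_union, mem_iUnion, mem_ofPred_eq, not_or, not_exists] at hc
  have := conn_inv (X := fun y => y.2 ≤ t ∧ (y.1 = h ∨ ∃ a ∈ Rt, ∃ i : ℕ,
    ω ∈ conn (Z G) (cyl (S \ {h})) (a, t - i) y)) hω ⟨h0, Or.inl rfl⟩ ?_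
  · exact absurd this.1 (not_le.2 hn)
  rintro ⟨a, s⟩ ⟨b, r⟩ ⟨k1, k2⟩ ⟨h1, h2, h3, h4⟩
  by_cases ha : a = h
  · subst ha
    rcases Z_adj.1 h3 with ⟨e, e'⟩ | ⟨e, e'⟩
    · simp only at e e' k1
      refine ⟨e' ▸ k1, Or.inr ⟨b, (hP.rt b).2 ⟨h2, e.symm⟩, (t - r).toNat, ?_⟩⟩
      rw [show t - ((t - r).toNat : ℤ) = r by omega]
      exact ReflTransGen.refl
    · simp only at e e' k1
      subst e
      refine ⟨not_lt.1 fun k => hc.1 ?_, Or.inl rfl⟩
      rw [show t = s by simp at k; omega, show s + 1 = r by simp at k; omega, h4]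
  obtain ⟨c, hc', i, k⟩ := k2.resolve_left ha
  by_cases hb : b = h
  · rcases Z_adj.1 h3 with ⟨-, e'⟩ | ⟨e, -⟩
    · exact ⟨e' ▸ k1, Or.inl hb⟩
    · exact absurd (e.trans hb) ha
  · have := ReflTransGen.tail k ⟨⟨h1, ha⟩, ⟨h2, hb⟩, h3, h4⟩
    exact ⟨not_lt.1 fun k' => hc.2 c hc' i _ k' this, Or.inr ⟨c, hc', i, this⟩⟩

lemma cut2 (O : Set V) (t : ℤ) (J : ℕ) : Cu G (cyl O) h Rt t ⊆
    Cu G (bx O (t - 2 * J + 1) (t + J)) h Rt t ∪ ⋃ a ∈ Rt, Fa G O t J a := by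
  intro ω hω
  by_contra hc
  simp only [Cu, Br, Fa, mem_union, mem_iUnion, mem_ofPred_eq, not_or, not_exists] at hc hω
  obtain ⟨a, ha, i, y, h1, h2⟩ := hω.resolve_left hc.1.1
  have h3 : ∀ y, ω ∈ conn (Z G) (cyl O) (a, t - i) y → (y.2 - (t - i)).natAbs < max (i + 1) J :=
    fun y k => not_le.1 fun k' => hc.2 a ha i y k' k
  have h4 := h3 y h2
  refine hc.1.2 a ha i y h1 (bx_of h2 fun x hx => ?_)
  have := h3 x hx
  constructor <;> omega

variable [Countable V]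

lemma Thin.fa {O : Set V} (hO : Thin G O) {a : V} (ha : a ∈ O) (t : ℤ) (J : ℕ) :
    P _ (Fa G O t J a) ≤ 2 * 4⁻¹ ^ J := by
  refine (measure_iUnion_le _).trans ((ENNReal.tsum_le_tsum fun i : ℕ =>
    (hO.far (x := (a, t - i)) ha (max (i + 1) J)).trans
      (show _ ≤ 2 * 4⁻¹ ^ J * 2⁻¹ ^ (i + 1) from ?_)).trans_eq ?_)
  · rw [mul_assoc, show (8⁻¹ : ℝ≥0∞) = 4⁻¹ * 2⁻¹ by
      rw [← ENNReal.mul_inv (by simp) (by simp)]; norm_num, mul_pow]
    exact mul_le_mul_right (mul_le_mul' (pow_le_pow_right_of_le_one' (by simp) (le_max_right _ _))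
      (pow_le_pow_right_of_le_one' (by simp) (le_max_left _ _))) _
  · rw [ENNReal.tsum_mul_left, ENNReal.tsum_geometric_add_one, ENNReal.one_sub_inv_two, inv_inv,
      ENNReal.inv_mul_cancel (by simp) (by simp), mul_one]

lemma inc_br (A : Set (V × ℤ)) (t : ℤ) (a : V) : Inc (Ed A) (Br G A t a) :=
  Inc.iUnion fun _ => Inc.iUnion fun _ => Inc.iUnion fun _ => inc_conn _ _ _ _

lemma half_compl {Ω : Type*} [MeasurableSpace Ω] {μ : Measure Ω} [IsProbabilityMeasure μ]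
    {A : Set Ω} (hA : MeasurableSet A) (h : μ A ≤ 2⁻¹) : 2⁻¹ ≤ μ Aᶜ := by
  rw [prob_compl_eq_one_sub hA, ← ENNReal.one_sub_inv_two]
  exact tsub_le_tsub_left h _

lemma Thin.cu {O : Set V} (hO : Thin G O) {A : Set (V × ℤ)} (hA : A ⊆ cyl O) (t : ℤ)
    (hR : ∀ a ∈ Rt, a ∈ O) : 2⁻¹ ^ (Rt.card + 1) ≤ P _ (Cu G A h Rt t)ᶜ := by
  classical
  induction Rt using Finset.induction_on with
  | empty =>
    simp only [Cu, Finset.card_empty, zero_add, pow_one, Finset.notMem_empty, iUnion_of_empty,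
      iUnion_empty, union_empty]
    refine half_compl (dep_val (mem_univ _) true).meas ?_
    rw [P_true, p]; exact ENNReal.inv_le_inv.2 (by norm_num)
  | insert a s ha ih =>
    have e : Cu G A h (insert a s) t = Br G A t a ∪ Cu G A h s t := by
      simp only [Cu, Finset.set_biUnion_insert, union_left_comm]
    have i2 : Inc univ (Cu G A h s t) := (inc_val (mem_univ _)).union
      (Inc.iUnion fun b => Inc.iUnion fun _ => (inc_br A t b).mono (subset_univ _))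
    rw [e, Finset.card_insert_of_notMem ha, pow_succ']
    refine le_trans (mul_le_mul' (half_compl (inc_br A t a).dep.meas ?_)
      (ih fun b hb => hR b (by simp [hb]))) (harris_compl (inc_br A t a) i2)
    refine le_trans (measure_mono ?_) ((hO.fa (hR a (by simp)) t 1).trans_eq ?_)
    · refine iUnion_mono fun i => iUnion_mono fun y => iUnion_subset fun k => ?_
      exact subset_iUnion_of_subset (by omega) (conn_mono hA)
    · rw [pow_one, show (4 : ℝ≥0∞) = 2 * 2 by norm_num, ENNReal.mul_inv (by simp) (by simp),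
        ← mul_assoc, ENNReal.mul_inv_cancel (by simp) (by simp), one_mul]

lemma Piece.decay (hP : Piece G S h Rt) (J : ℕ) {n : ℤ} (hn : 3 * (J : ℤ) ^ 2 ≤ n) :
    tau (Z G) (cyl S) (h, 0) (h, n) ≤ (1 + 2 * Rt.card) * (1 - 2⁻¹ ^ (Rt.card + 1)) ^ J := by
  rcases Nat.eq_zero_or_pos J with rfl | hJ
  · simpa using tau_le.trans le_self_add
  let O := S \ {h}
  let t : ℕ → ℤ := fun j => 3 * J * j + 2 * J
  let C := fun j => Cu G (bx O (t j - 2 * J + 1) (t j + J)) h Rt (t j)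
  have iC : ∀ j, Inc (Ed (bx univ (t j - 2 * J + 1) (t j + J))) (C j) := fun j =>
    (inc_val (Ed_mk (mem_bx (mem_univ _) (by omega) (by omega))
      (mem_bx (mem_univ _) (by omega) (by omega)))).union
      (Inc.iUnion fun b => Inc.iUnion fun _ => (inc_br _ _ b).mono (Ed_mono bx_univ))
  have sub : conn (Z G) (cyl S) (h, 0) (h, n) ⊆ (⋂ j ∈ Finset.range J, C j) ∪
      ⋃ j ∈ Finset.range J, ⋃ a ∈ Rt, Fa G O (t j) J a := by
    intro ω hω
    by_cases k : ω ∈ ⋃ j ∈ Finset.range J, ⋃ a ∈ Rt, Fa G O (t j) J a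
    · exact Or.inr k
    refine Or.inl (mem_iInter₂.2 fun j hj => (cut2 O (t j) J (hP.cut1 (by positivity) ?_ hω)).resolve_right
      fun k' => k (mem_iUnion₂.2 ⟨j, hj, k'⟩))
    have : (j : ℤ) + 1 ≤ J := by exact_mod_cast Finset.mem_range.1 hj
    have : (0 : ℤ) < J := by exact_mod_cast hJ
    simp only [t]; nlinarith
  have r2 : (2⁻¹ : ℝ≥0∞) ≤ 1 - 2⁻¹ ^ (Rt.card + 1) := by
    rw [← ENNReal.one_sub_inv_two]
    refine tsub_le_tsub_left ?_ _
    rw [ENNReal.one_sub_inv_two]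
    exact pow_le_of_le_one zero_le (by simp) (by simp)
  refine (measure_mono sub).trans ((measure_union_le _ _).trans ?_)
  rw [add_mul, one_mul]
  refine add_le_add ?_ ?_
  · rw [indep_prod _ _ C (fun i _ j _ hij => Ed_disj ?_) fun j _ => (iC j).dep]
    · refine (Finset.prod_le_pow_card _ _ _ fun j _ => ?_).trans_eq (by rw [Finset.card_range])
      rw [← compl_compl (C j), prob_compl_eq_one_sub (iC j).dep.meas.compl]
      exact tsub_le_tsub_left (hP.thin.cu bx_sub _ fun a => hP.rt_mem) _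
    · rw [Set.disjoint_left]
      rintro x ⟨-, a1, a2⟩ ⟨-, b1, b2⟩
      simp only [t] at a1 a2 b1 b2
      have : (0 : ℤ) < J := by exact_mod_cast hJ
      rcases hij.lt_or_gt with k | k
      · have : (i : ℤ) + 1 ≤ j := by exact_mod_cast k
        nlinarith
      · have : (j : ℤ) + 1 ≤ i := by exact_mod_cast k
        nlinarith
  · refine (measure_biUnion_finset_le _ _).trans ((Finset.sum_le_card_nsmul _ _
      ((Rt.card : ℝ≥0∞) * (2 * 4⁻¹ ^ J)) fun j _ => (measure_biUnion_finset_le _ _).trans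
        ((Finset.sum_le_card_nsmul _ _ _ fun a ha =>
          hP.thin.fa (hP.rt_mem ha) _ _).trans_eq (nsmul_eq_mul _ _))).trans ?_)
    rw [Finset.card_range, nsmul_eq_mul, mul_left_comm, mul_left_comm (J : ℝ≥0∞), ← mul_assoc,
      mul_comm _ 2]
    refine mul_le_mul_right (le_trans ?_ (pow_le_pow_left' r2 J)) _
    rw [show (4 : ℝ≥0∞) = 2 * 2 by norm_num, ENNReal.mul_inv (by simp) (by simp), mul_pow,
      ← mul_assoc]
    refine mul_le_of_le_one_left' ?_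
    calc (J : ℝ≥0∞) * 2⁻¹ ^ J ≤ 2 ^ J * 2⁻¹ ^ J :=
          mul_le_mul_left (by exact_mod_cast J.lt_two_pow_self.le) _
      _ = 1 := by rw [← mul_pow, ENNReal.mul_inv_cancel (by simp) (by simp), one_pow]

lemma tau_neg (n : ℤ) : tau (Z G) (cyl S) (h, 0) (h, -n) = tau (Z G) (cyl S) (h, 0) (h, n) := by
  rw [tau_symm, cyl_shift]; simp

lemma surj (n : ℕ) : ∃ (k : Fin 6) (a b : ℕ), n = 3 * (a + b) ^ 2 + 6 * a + k := by
  induction n with
  | zero => exact ⟨0, 0, 0, rfl⟩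
  | succ n ih =>
    obtain ⟨k, a, b, rfl⟩ := ih
    by_cases hk : k.1 < 5
    · exact ⟨⟨k + 1, by omega⟩, a, b, by simp [add_assoc]⟩
    have : k.1 = 5 := by omega
    rcases b with _ | b
    · exact ⟨3, 0, a + 1, by rw [this]; simp; ring⟩
    · exact ⟨0, a + 1, b, by rw [this]; simp; ring⟩

lemma Piece.m5 (hP : Piece G S h Rt) : T G S h h ≤ 2 ^ (3 * Rt.card + 7) := by
  let φ : Bool × Fin 6 × ℕ × ℕ → ℤ := fun x => (if x.1 then 1 else -1) *
    ((3 * (x.2.2.1 + x.2.2.2) ^ 2 + 6 * x.2.2.1 + x.2.1 : ℕ) : ℤ)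
  have hφ : φ.Surjective := by
    intro n
    obtain ⟨k, a, b, e⟩ := surj n.natAbs
    rcases Int.natAbs_eq n with c | c
    · exact ⟨(true, k, a, b), by simp only [φ, ← e]; simpa using c.symm⟩
    · exact ⟨(false, k, a, b), by simp only [φ, ← e]; simpa using c.symm⟩
  set r : ℝ≥0∞ := 1 - 2⁻¹ ^ (Rt.card + 1) with hr
  have h1 : ∀ x, tau (Z G) (cyl S) (h, 0) (h, φ x) ≤
      (1 + 2 * Rt.card) * (r ^ x.2.2.1 * r ^ x.2.2.2) := by
    rintro ⟨σ, k, a, b⟩
    have := hP.decay (a + b) (n := ((3 * (a + b) ^ 2 + 6 * a + k : ℕ) : ℤ)) (by push_cast; omega)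
    rw [pow_add] at this
    cases σ
    · simpa only [φ, Bool.false_eq_true, if_false, neg_one_mul, tau_neg] using this
    · simpa only [φ, if_true, one_mul] using this
  have h2 : ∑' n : ℕ, r ^ n = 2 ^ (Rt.card + 1) := by
    rw [ENNReal.tsum_geometric, hr, ENNReal.sub_sub_cancel (by simp)
      (pow_le_one₀ zero_le (by simp)), ← ENNReal.inv_pow, inv_inv]
  refine (ENNReal.tsum_le_tsum_comp_of_surjective hφ _).trans ((ENNReal.tsum_le_tsum h1).trans ?_)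
  simp only [ENNReal.tsum_prod', ENNReal.tsum_mul_left, ENNReal.tsum_mul_right, h2, tsum_fintype,
    Finset.sum_const, Finset.card_univ, Fintype.card_fin, Fintype.card_bool, nsmul_eq_mul]
  have : (1 + 2 * Rt.card) * (2 * (6 * (2 ^ (Rt.card + 1) * 2 ^ (Rt.card + 1)))) ≤
      2 ^ (3 * Rt.card + 7) := by
    have := Rt.card.lt_two_pow_self
    rw [show 3 * Rt.card + 7 = Rt.card + (Rt.card + Rt.card) + 7 by ring]
    simp only [pow_add]
    generalize 2 ^ Rt.card = X at *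
    nlinarith [Nat.mul_le_mul_right (X * X) (show 1 + 2 * Rt.card ≤ 2 * X by omega)]
  exact_mod_cast this

lemma Piece.m6 (hP : Piece G S h Rt) : ((1 - p ^ 3) ^ Rt.card)⁻¹ ≤ T G S h h := by
  set η := (1 - p ^ 3) ^ Rt.card
  have h1 : ∀ n : ℤ, 1 - η ≤ tau (Z G) (cyl S) (h, n) (h, n + 1) := by
    intro n
    let X : V → Set (Sym2 (V × ℤ) → Bool) := fun a => {ω | ω s((h, n), (a, n)) = true} ∩
      ({ω | ω s((a, n), (a, n + 1)) = true} ∩ {ω | ω s((a, n + 1), (h, n + 1)) = true})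
    let E : V → Set (Sym2 (V × ℤ)) := fun a => {e | (∃ y ∈ e, y.1 = a) ∧ ∀ y ∈ e, y.1 = a ∨ y.1 = h}
    have iX : ∀ a, Inc (E a) (X a) := fun a =>
      (inc_val (by simp [E]; tauto)).inter ((inc_val (by simp [E]; tauto)).inter
        (inc_val (by simp [E]; tauto)))
    have h2 : P _ (⋂ a ∈ Rt, (X a)ᶜ) ≤ η := by
      rw [indep_prod _ E _ (fun a ha b hb k => ?_) fun a _ => (iX a).dep.compl]
      · refine Finset.prod_le_pow_card _ _ _ fun a _ => ?_
        rw [prob_compl_eq_one_sub (iX a).dep.meas]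
        refine tsub_le_tsub_left (le_trans ?_ (harris (inc_val (mem_univ _))
          ((inc_val (mem_univ _)).inter (inc_val (mem_univ _))))) _
        rw [P_true, pow_succ', sq]
        refine mul_le_mul_right (le_trans ?_ (harris (inc_val (mem_univ _))
          (inc_val (mem_univ _)))) _
        rw [P_true, P_true]
      · rw [Set.disjoint_left]
        rintro e ⟨⟨y, hy, rfl⟩, -⟩ ⟨-, k'⟩
        exact (k' y hy).elim k (hP.rt_mem ha).2
    refine (tsub_le_tsub_left h2 _).trans ?_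
    rw [← prob_compl_eq_one_sub (Rt.measurableSet_biInter fun a _ => (iX a).dep.meas.compl)]
    refine measure_mono fun ω hω => ?_
    simp only [mem_compl_iff, mem_iInter, not_forall, not_not] at hω
    obtain ⟨a, ha, k1, k2, k3⟩ := hω
    obtain ⟨a1, a2⟩ := (hP.rt a).1 ha
    exact ((hor hP.hub a1 a2.symm k1).tail (c := (a, n + 1))
      ⟨a1, a1, Z_adj.2 (Or.inr ⟨rfl, Or.inl rfl⟩), k2⟩).trans (hor a1 hP.hub a2 k3)
  have h2 : ∀ n : ℕ, (1 - η) ^ n ≤ tau (Z G) (cyl S) (h, 0) (h, n) := by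
    intro n
    induction n with
    | zero => simp [tau_self]
    | succ n ih => rw [pow_succ]; exact (mul_le_mul' ih (h1 n)).trans tau_trans
  refine le_trans ?_ (ENNReal.tsum_comp_le_tsum_of_injective Nat.cast_injective
    fun n : ℤ => tau (Z G) (cyl S) (h, 0) (h, n))
  refine le_trans ?_ (ENNReal.tsum_le_tsum h2)
  rw [ENNReal.tsum_geometric, ENNReal.sub_sub_cancel (by simp)
    (pow_le_one₀ zero_le tsub_le_self)]

lemma beta_step (hv : v ∈ S \ {h}) (hw : w ∈ S \ {h}) (k : G.Adj v w) :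
    p * beta G S h Rt w ≤ beta G S h Rt v := by
  refine mul_le_mul_right ?_ _
  rw [beta, Finset.mul_sum]
  refine Finset.sum_le_sum fun a _ => ?_
  rw [T, ← ENNReal.tsum_mul_left]
  exact ENNReal.tsum_le_tsum fun n => (mul_le_mul_left
    (tau_edge (x := (v, 0)) (y := (w, 0)) hv hw (Z_adj.2 (Or.inl ⟨k, rfl⟩))) _).trans tau_trans

omit [Countable V] in
lemma beta_root (hv : v ∈ Rt) : p ≤ beta G S h Rt v :=
  le_mul_of_one_le_right' (one_le_T.trans
    (Finset.single_le_sum (f := fun a => T G (S \ {h}) v a) (fun _ _ => zero_le) hv))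

omit [Countable V] in
lemma beta_mono {S' : Set V} (k : S ⊆ S') : beta G S h Rt v ≤ beta G S' h Rt v :=
  mul_le_mul_right (Finset.sum_le_sum fun _ _ => T_mono (sdiff_subset_sdiff_left k)) _

lemma halve {x y e : ℝ≥0∞} (hx : x ≠ ⊤) (h1 : x ≤ y + e) (h2 : 2 * e ≤ x) : x ≤ 2 * y := by
  refine (ENNReal.add_le_add_iff_right hx).1 ?_
  calc x + x ≤ 2 * y + 2 * e := by rw [← two_mul, ← mul_add]; exact mul_le_mul_right h1 _
    _ ≤ _ := add_le_add_right h2 _

lemma Piece.m8 (hP : Piece G S h Rt) (hR : Rt.Nonempty) (hv : v ∈ S \ {h}) (H : ℕ)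
    (hH : 2 * ((1 + Rt.card * (2 * H + 1)) * (2 * 8⁻¹ ^ H)) ≤ beta G S h Rt v) :
    ∃ a ∈ Rt, ∃ s : ℤ, p * tau (Z G) (bx (S \ {h}) (-H) H) (v, 0) (a, s) ≤ beta G S h Rt v ∧
      beta G S h Rt v ≤ p * (2 * ((Rt.card * (2 * H + 1) : ℕ) *
        tau (Z G) (bx (S \ {h}) (-H) H) (v, 0) (a, s))) := by
  classical
  set O := S \ {h}
  obtain ⟨⟨a, s⟩, ha, hm⟩ := Finset.exists_max_image (Rt ×ˢ Finset.Icc (-H : ℤ) H)
    (fun y => tau (Z G) (bx O (-H) H) (v, 0) y) (hR.product ⟨0, by simp⟩)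
  have ha' := (Finset.mem_product.1 ha).1
  refine ⟨a, ha', s, mul_le_mul_right ((tau_mono bx_sub).trans ((ENNReal.le_tsum
    (f := fun n => tau (Z G) (cyl O) (v, 0) (a, n)) s).trans
    (Finset.single_le_sum (f := fun a => T G O v a) (fun _ _ => zero_le) ha'))) _,
    mul_le_mul_right (halve (ne_top_of_le_ne_top (by simp) ((ENNReal.sum_le_tsum _).trans
      (hP.thin.total hv))) ?_ (hH.trans (mul_le_of_le_one_left' p_le))) _⟩
  set q := tau (Z G) (bx O (-H) H) (v, 0) (a, s)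
  have hc : (Rt ×ˢ Finset.Icc (-H : ℤ) H).card = Rt.card * (2 * H + 1) := by
    rw [Finset.card_product, Int.card_Icc]; congr 1; omega
  have h1 : ∀ y, tau (Z G) (cyl O) (v, 0) y ≤ tau (Z G) (bx O (-H) H) (v, 0) y + 2 * 8⁻¹ ^ H := by
    intro y
    refine le_trans (measure_mono fun ω hω => ?_) ((measure_union_le _ _).trans
      (add_le_add_right (hP.thin.far (x := (v, 0)) hv H) _))
    by_contra hc
    simp only [mem_union, mem_iUnion, not_or, not_exists] at hc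
    refine hc.1 (bx_of hω fun x hx => ?_)
    have : ¬ H ≤ (x.2 - 0).natAbs := fun k => hc.2 x k hx
    constructor <;> omega
  calc ∑ a ∈ Rt, T G O v a = ∑' y : V × ℤ, if y.1 ∈ Rt then tau (Z G) (cyl O) (v, 0) y else 0 := by
        rw [ENNReal.tsum_prod', tsum_eq_sum (s := Rt) fun a ha => by simp [ha]]
        exact Finset.sum_congr rfl fun a ha => by simp [ha, T]
    _ ≤ ∑' y : V × ℤ, ((if y ∈ Rt ×ˢ Finset.Icc (-H : ℤ) H then q + 2 * 8⁻¹ ^ H else 0) +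
          if H ≤ (y.2 - 0).natAbs then tau (Z G) (cyl O) (v, 0) y else 0) := by
        refine ENNReal.tsum_le_tsum fun y => ?_
        by_cases k1 : y.1 ∈ Rt
        swap
        · rw [if_neg k1]; exact zero_le
        by_cases k2 : H ≤ (y.2 - 0).natAbs
        · rw [if_pos k1, if_pos k2]; exact le_add_self
        have k3 : y ∈ Rt ×ˢ Finset.Icc (-H : ℤ) H :=
          Finset.mem_product.2 ⟨k1, Finset.mem_Icc.2 (by omega)⟩
        rw [if_pos k1, if_pos k3]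
        exact ((h1 y).trans (add_le_add_left (hm y k3) _)).trans le_self_add
    _ ≤ ((Rt.card * (2 * H + 1) : ℕ) : ℝ≥0∞) * (q + 2 * 8⁻¹ ^ H) + 2 * 8⁻¹ ^ H := by
        rw [ENNReal.tsum_add, tsum_eq_sum (s := Rt ×ˢ Finset.Icc (-H : ℤ) H)
          fun y hy => if_neg hy, Finset.sum_ite_of_true fun _ k => k, Finset.sum_const, hc,
          nsmul_eq_mul]
        exact add_le_add_right (hP.thin.vert (x := (v, 0)) hv H) _
    _ = _ := by push_cast; ring

lemma Piece.m4 (hP : Piece G S h Rt) (N : ℕ) (hN : 4 * ((1 + Rt.card) ^ 2 * T G S h h) ≤ N) :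
    T G S h h ≤ 2 * ∑ t ∈ Finset.Ioo (-N : ℤ) N, tau (Z G) (cyl S) (h, 0) (h, t) := by
  classical
  have fin : T G S h h ≠ ⊤ := ne_top_of_le_ne_top (by simp) hP.m5
  set X := ∑' t : ℤ, (if (N : ℤ) ≤ t then tau (Z G) (cyl S) (h, 0) (h, t) else 0)
  have N0 : (N : ℝ≥0∞) ≠ 0 := by
    intro e
    rw [e] at hN
    simp [(zero_lt_one.trans_le (one_le_T (G := G) (S := S) (v := h))).ne'] at hN
  refine halve (e := X + X) fin ?_ ?_
  · calc T G S h h ≤ ∑' t : ℤ, ((if t ∈ Finset.Ioo (-N : ℤ) N then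
            tau (Z G) (cyl S) (h, 0) (h, t) else 0) + ((if (N : ℤ) ≤ t then
              tau (Z G) (cyl S) (h, 0) (h, t) else 0) + if (N : ℤ) ≤ -t then
                tau (Z G) (cyl S) (h, 0) (h, -t) else 0)) := by
          refine ENNReal.tsum_le_tsum fun t => ?_
          simp only [tau_neg, Finset.mem_Ioo]
          split_ifs <;> first | (exfalso; omega) | simp
      _ = _ := by
          rw [ENNReal.tsum_add, ENNReal.tsum_add, tsum_eq_sum (s := Finset.Ioo (-N : ℤ) N)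
            fun y hy => if_neg hy, Finset.sum_ite_of_true fun _ k => k]
          congr 2
          exact (Equiv.neg ℤ).tsum_eq fun t =>
            if (N : ℤ) ≤ t then tau (Z G) (cyl S) (h, 0) (h, t) else 0
  · refine (ENNReal.mul_le_mul_iff_right N0 (by simp)).1 ?_
    have := (tail (G := G) (S := S) (h := h) N).trans (pow_le_pow_left' hP.m3 2)
    calc N * (2 * (X + X)) = 4 * (N * X) := by ring
      _ ≤ 4 * ((1 + Rt.card) * T G S h h) ^ 2 := mul_le_mul_right this _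
      _ = 4 * ((1 + Rt.card) ^ 2 * T G S h h) * T G S h h := by ring
      _ ≤ _ := mul_le_mul_left hN _

lemma m9 {S1 S2 : Set V} {h1 h2 a1 a2 u : V} (hd : Disjoint S1 S2) (k1 : h1 ∈ S1) (k2 : h2 ∈ S2)
    (k3 : a1 ∈ S1) (k4 : a2 ∈ S2) (k5 : w ∈ S1) (k6 : u ∈ S2) (e1 : G.Adj h1 a1)
    (e2 : G.Adj w u) (e3 : G.Adj a2 h2) (s1 s2 : ℤ) (N H : ℕ) (hN : 0 < N) {q : ℝ≥0∞}
    (hq : q = tau (Z G) (bx (S1 \ {h1}) (-H) H) (w, 0) (a1, s1) *
      tau (Z G) (bx (S2 \ {h2}) (-H) H) (u, 0) (a2, s2)) :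
    ∃ r, p ^ 3 * q * ((∑ t ∈ Finset.Ioo (-N : ℤ) N, tau (Z G) (cyl S1) (h1, 0) (h1, t)) *
      ∑ t ∈ Finset.Ioo (-N : ℤ) N, tau (Z G) (cyl S2) (h2, 0) (h2, t)) ≤
      (4 * N * (2 * H + 1) : ℕ) *
        (tau (Z G) (cyl (S1 ∪ S2)) (h1, 0) (h2, r) + ((2 * N : ℕ) * q) ^ 2) := by
  classical
  let Rs := Finset.Ioo (s2 - s1 - 2 * N) (s2 - s1 + 2 * N)
  obtain ⟨r0, -, hm⟩ := Finset.exists_max_image Rs
    (fun r => tau (Z G) (cyl (S1 ∪ S2)) (h1, 0) (h2, r)) ⟨s2 - s1, by simp [Rs, hN]⟩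
  refine ⟨r0, ?_⟩
  let B1 := fun t : ℤ => conn (Z G) (bx (S1 \ {h1}) (-H + (t - s1)) (H + (t - s1)))
    (w, 0 + (t - s1)) (a1, s1 + (t - s1))
  let B2 := fun t : ℤ => conn (Z G) (bx (S2 \ {h2}) (-H + (t - s1)) (H + (t - s1)))
    (u, 0 + (t - s1)) (a2, s2 + (t - s1))
  have iB : ∀ t, Inc (Ed (bx univ (-H + (t - s1)) (H + (t - s1)))) (B1 t ∩ B2 t) := fun t =>
    ((inc_conn _ _ _ _).mono (Ed_mono bx_univ)).inter
      ((inc_conn _ _ _ _).mono (Ed_mono bx_univ))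
  have pB : ∀ t, P _ (B1 t ∩ B2 t) = q := by
    intro t
    rw [indep (Ed_disj (Set.disjoint_left.2 fun x a b => Set.disjoint_left.1 hd a.1.1 b.1.1))
      (inc_conn _ _ _ _).dep (inc_conn _ _ _ _).dep, hq]
    have c1 := bx_lift (G := G) (S := S1 \ {h1}) Function.injective_id (fun _ _ _ _ => Iff.rfl)
      (t - s1) (-H) H w a1 0 s1
    have c2 := bx_lift (G := G) (S := S2 \ {h2}) Function.injective_id (fun _ _ _ _ => Iff.rfl)
      (t - s1) (-H) H u a2 0 s2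
    simp only [id, image_id'] at c1 c2
    rw [← c1, ← c2]; rfl
  let Y := fun r t : ℤ => (conn (Z G) (cyl S1) (h1, 0) (h1, t) ∩
    conn (Z G) (cyl S2) (h2, s2 + (t - s1)) (h2, r)) ∩ ({ω | ω s((h1, t), (a1, t)) = true} ∩
      ({ω | ω s((w, 0 + (t - s1)), (u, 0 + (t - s1))) = true} ∩
        {ω | ω s((a2, s2 + (t - s1)), (h2, s2 + (t - s1))) = true}))
  have iu : ∀ (R : Set (V × ℤ)) x y, Inc univ (conn (Z G) R x y) := fun R x y =>
    (inc_conn _ _ _ _).mono (subset_univ _)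
  have iv : ∀ e : Sym2 (V × ℤ), Inc univ {ω | ω e = true} := fun e => inc_val (mem_univ _)
  have iY : ∀ r t, Inc univ (Y r t) := fun r t =>
    ((iu _ _ _).inter (iu _ _ _)).inter ((iv _).inter ((iv _).inter (iv _)))
  have low : ∀ r t, p ^ 3 * q * (tau (Z G) (cyl S1) (h1, 0) (h1, t) *
      tau (Z G) (cyl S2) (h2, 0) (h2, r - (s2 + (t - s1)))) ≤ P _ (Y r t ∩ (B1 t ∩ B2 t)) := by
    intro r t
    refine le_trans ?_ (harris (iY r t) (iB t))
    rw [pB, mul_right_comm, ← cyl_shift, mul_comm (p ^ 3)]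
    refine mul_le_mul_left (le_trans (mul_le_mul' (harris (iu _ _ _) (iu _ _ _)) ?_)
      (harris ((iu _ _ _).inter (iu _ _ _)) ((iv _).inter ((iv _).inter (iv _))))) _
    refine le_trans ?_ (harris (iv _) ((iv _).inter (iv _)))
    rw [P_true, pow_succ', sq]
    refine mul_le_mul_right (le_trans ?_ (harris (iv _) (iv _))) _
    rw [P_true, P_true]
  have sub : ∀ r t, Y r t ∩ (B1 t ∩ B2 t) ⊆ conn (Z G) (cyl (S1 ∪ S2)) (h1, 0) (h2, r) := by
    rintro r t ω ⟨⟨⟨c1, c2⟩, c3, c4, c5⟩, c6, c7⟩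
    have m1 : cyl S1 ⊆ cyl (S1 ∪ S2) := fun _ k => Or.inl k
    have m2 : cyl S2 ⊆ cyl (S1 ∪ S2) := fun _ k => Or.inr k
    have c6 := conn_mono (S := cyl (S1 ∪ S2)) (fun _ k => Or.inl k.1.1) (conn_symm c6)
    have c7 := conn_mono (S := cyl (S1 ∪ S2)) (fun _ k => Or.inr k.1.1) c7
    rw [add_sub_cancel] at c6
    exact (((((conn_mono m1 c1).trans (hor (S := S1 ∪ S2) (Or.inl k1) (Or.inl k3) e1 c3)).trans
      c6).trans (hor (S := S1 ∪ S2) (Or.inl k5) (Or.inr k6) e2 c4)).trans c7).trans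
      ((hor (S := S1 ∪ S2) (Or.inr k4) (Or.inr k2) e3 c5).trans (conn_mono m2 c2))
  have cls : ∀ r ∈ Rs, ∀ c : ℤ, ∑ t ∈ (Finset.Ioo (-N : ℤ) N).filter (· % (2 * H + 1) = c),
      P _ (Y r t ∩ (B1 t ∩ B2 t)) ≤
        tau (Z G) (cyl (S1 ∪ S2)) (h1, 0) (h2, r0) + ((2 * N : ℕ) * q) ^ 2 := by
    intro r hr c
    refine (bonf _ _ _ (fun _ => q) (fun t _ => ((iY r t).dep.meas.inter (iB t).dep.meas))
      fun t ht t' ht' hne => ?_).trans (add_le_add ((measure_mono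
        (iUnion₂_subset fun t _ => sub r t)).trans (hm r hr)) (pow_le_pow_left' ?_ 2))
    · refine (measure_mono (inter_subset_inter inter_subset_right inter_subset_right)).trans_eq ?_
      rw [indep (Ed_disj ?_) (iB t).dep (iB t').dep, pB, pB]
      rw [Set.disjoint_left]
      rintro x ⟨-, x1, x2⟩ ⟨-, x3, x4⟩
      have d : (2 * H + 1 : ℤ) ∣ t - t' := Int.ModEq.dvd
        ((Finset.mem_filter.1 ht').2.trans (Finset.mem_filter.1 ht).2.symm)
      exact hne (sub_eq_zero.1 (Int.eq_zero_of_abs_lt_dvd d (abs_lt.2 ⟨by omega, by omega⟩)))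
    · rw [Finset.sum_const, nsmul_eq_mul]
      refine mul_le_mul_left (Nat.cast_le.2 ((Finset.card_filter_le _ _).trans ?_)) _
      rw [Int.card_Ioo]; omega
  calc _ ≤ ∑ t ∈ Finset.Ioo (-N : ℤ) N, ∑ r ∈ Rs, P _ (Y r t ∩ (B1 t ∩ B2 t)) := by
        rw [Finset.sum_mul, Finset.mul_sum]
        refine Finset.sum_le_sum fun t ht => le_trans ?_ (Finset.sum_le_sum fun r _ => low r t)
        rw [← Finset.mul_sum, ← Finset.mul_sum]
        refine mul_le_mul_right (mul_le_mul_right ?_ _) _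
        rw [Finset.mem_Ioo] at ht
        refine le_trans (le_of_eq ?_) (Finset.sum_le_sum_of_subset (s := (Finset.Ioo (-N : ℤ) N).map
          (addRightEmbedding (s2 + (t - s1)))) fun x hx => ?_)
        · simp only [Finset.sum_map, addRightEmbedding_apply, add_sub_cancel_right]
        · simp only [Finset.mem_map, addRightEmbedding_apply, Finset.mem_Ioo, Rs] at hx ⊢
          omega
    _ = ∑ r ∈ Rs, ∑ c ∈ Finset.Ico (0 : ℤ) (2 * H + 1),
          ∑ t ∈ (Finset.Ioo (-N : ℤ) N).filter (· % (2 * H + 1) = c),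
            P _ (Y r t ∩ (B1 t ∩ B2 t)) := by
        rw [Finset.sum_comm]
        refine Finset.sum_congr rfl fun r _ => (Finset.sum_fiberwise_of_maps_to (fun t _ => ?_) _).symm
        exact Finset.mem_Ico.2 ⟨Int.emod_nonneg _ (by omega), Int.emod_lt_of_pos _ (by omega)⟩
    _ ≤ _ := by
        refine (Finset.sum_le_card_nsmul _ _ _ fun r hr =>
          Finset.sum_le_card_nsmul _ _ _ fun c _ => cls r hr c).trans ?_
        rw [smul_smul, nsmul_eq_mul]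
        refine mul_le_mul_left (Nat.cast_le.2 (Nat.mul_le_mul ?_ ?_)) _
        · rw [Int.card_Ioo]; omega
        · rw [Int.card_Ico]; omega

end Pool.Agent.H.MP_1775a6_pr
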