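import Pool.Agent.H.MP_1775a6_pr.D

/-! The model piece and the tuning of its lengths. -/

namespace Pool.Agent.H.MP_1775a6_pr

open MeasureTheory ProbabilityTheory Filter Topology Set Relation
open scoped ENNReal

def par (m : ℕ) (x : ℕ × ℕ) : ℕ × ℕ :=
  if x.2 ≠ 0 then (x.1, x.2 - 1) else if x.1 < 2 ^ (m + 1) then (x.1 / 2, 0) else (0, 0)

def TG (m : ℕ) : SimpleGraph (ℕ × ℕ) where
  Adj a b := a ≠ b ∧ (par m a = b ∨ par m b = a)
  symm := ⟨fun _ _ h => ⟨h.1.symm, h.2.symm⟩⟩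
  loopless := ⟨fun _ h => h.1 rfl⟩

def Sp (m D : ℕ) (l : ℕ → ℕ) : Set (ℕ × ℕ) := {x | x.1 < 2 ^ (m + 1) + D ∧ x.2 ≤ l x.1}

def Rp (m D : ℕ) : Finset (ℕ × ℕ) :=
  insert (0, 1) (insert (1, 0) ((Finset.Ico (2 ^ (m + 1)) (2 ^ (m + 1) + D)).image fun n => (n, 0)))

def Ch (m : ℕ) : Finset ℕ := Finset.Ico (2 ^ m) (2 ^ (m + 1))

variable {m D : ℕ} {l : ℕ → ℕ}

lemma par_cases {a b : ℕ × ℕ} (h : par m a = b) : (a.1 = b.1 ∧ a.2 = b.2 + 1) ∨
    (a.2 = 0 ∧ b.2 = 0 ∧ ((a.1 < 2 ^ (m + 1) ∧ b.1 = a.1 / 2) ∨ (2 ^ (m + 1) ≤ a.1 ∧ b.1 = 0))) := by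
  subst h
  unfold par
  split_ifs <;> simp <;> omega

lemma adj_path (n j : ℕ) : (TG m).Adj (n, j + 1) (n, j) := ⟨by simp, Or.inl (by simp [par])⟩

lemma two_le (m : ℕ) : 2 ≤ 2 ^ (m + 1) := by
  have := Nat.one_le_two_pow (n := m); omega

lemma card_Rp : (Rp m D).card = D + 2 := by
  have := two_le m
  rw [Rp, Finset.card_insert_of_notMem (by simp), Finset.card_insert_of_notMem (by simp),
    Finset.card_image_of_injective _ fun _ _ h => by simpa using h]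
  simp

lemma card_Ch : (Ch m).card = 2 ^ m := by simp [Ch, pow_succ]; omega

lemma mem_Ch {c : ℕ} (h : c ∈ Ch m) : 1 ≤ c ∧ c < 2 ^ (m + 1) := by
  have := Nat.one_le_two_pow (n := m)
  simp only [Ch, Finset.mem_Ico] at h; omega

lemma piece (h : 1 ≤ l 0) : Piece (TG m) (Sp m D l) (0, 0) (Rp m D) := by
  have := two_le m
  refine ⟨⟨by simp, by simp⟩, fun a => ?_, fun x => {par m x, (x.1, x.2 + 1), (2 * x.1, 0),
    (2 * x.1 + 1, 0)}, fun x hx y hy k => ?_, fun x => Finset.card_le_four⟩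
  · simp only [Rp, Finset.mem_insert, Finset.mem_image, Finset.mem_Ico, Sp, mem_ofPred_eq]
    constructor
    · rintro (rfl | rfl | ⟨n, h1, rfl⟩)
      · exact ⟨⟨by omega, h⟩, adj_path 0 0⟩
      · exact ⟨⟨by omega, by simp⟩, by simp, Or.inl (by simp [par])⟩
      · exact ⟨⟨h1.2, by simp⟩, by simp; omega, Or.inl (by simp [par]; omega)⟩
    · rintro ⟨h1, h2, h3 | h3⟩
      · have := par_cases h3
        simp only [Ne, Prod.ext_iff] at h2 ⊢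
        rcases this with k | ⟨k, -, k' | k'⟩
        · omega
        · omega
        · exact Or.inr (Or.inr ⟨a.1, ⟨k'.1, h1.1⟩, rfl, k.symm⟩)
      · exact absurd (h3.symm.trans (by simp [par])) h2
  · rcases k.2 with e | e
    · simp [e]
    · have := par_cases e
      have h1 := hx.2
      simp only [Finset.mem_insert, Finset.mem_singleton, Prod.ext_iff, mem_singleton_iff] at h1 ⊢
      omega

noncomputable def be (m D : ℕ) (l : ℕ → ℕ) (x : ℕ × ℕ) : ℝ≥0∞ :=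
  beta (TG m) (Sp m D l) (0, 0) (Rp m D) x

noncomputable def xi (m D : ℕ) (l : ℕ → ℕ) : ℝ≥0∞ := T (TG m) (Sp m D l) (0, 0) (0, 0)

lemma be_le (h : 1 ≤ l 0) {x : ℕ × ℕ} (hx : x ∈ Sp m D l \ {(0, 0)}) : be m D l x ≤ 8⁻¹ ^ x.2 :=
  (piece h).m2 Prod.snd (fun x _ y _ k => by
    rcases k.2 with e | e <;> have := par_cases e <;> omega) (fun a ha => by
      simp only [Rp, Finset.mem_insert, Finset.mem_image] at ha
      rcases ha with rfl | rfl | ⟨n, -, rfl⟩ <;> simp) hx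

lemma mem_O {i j : ℕ} (hi : i < 2 ^ (m + 1)) (hj : j ≤ l i) (h : i ≠ 0 ∨ j ≠ 0) :
    (i, j) ∈ Sp m D l \ {(0, 0)} := ⟨⟨by simp; omega, hj⟩, by simp; omega⟩

lemma be_tree : ∀ k n, 1 ≤ n → n < 2 ^ (k + 1) → n < 2 ^ (m + 1) → p ^ (k + 1) ≤ be m D l (n, 0) := by
  intro k
  induction k with
  | zero =>
    intro n h1 h2 _
    rw [show n = 1 by omega, pow_one]
    exact beta_root (by simp [Rp])
  | succ k ih =>
    intro n h1 h2 h3
    by_cases e : n = 1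
    · exact (pow_le_of_le_one zero_le p_le (by simp)).trans (beta_root (by simp [Rp, e]))
    rw [pow_succ']
    refine (mul_le_mul_right (ih (n / 2) (by omega) (by rw [pow_succ] at h2; omega)
      (by omega)) _).trans (beta_step (mem_O h3 (by simp) (by omega))
        (mem_O (by omega) (by simp) (by omega)) ⟨by simp; omega, Or.inl (by simp [par, h3])⟩)

lemma be_low {i : ℕ} (hi : i < 2 ^ (m + 1)) : ∀ j, j + 1 ≤ l i →
    p ^ (j + m + 2) ≤ be m D l (i, j + 1) := by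
  intro j
  induction j with
  | zero =>
    intro h
    by_cases e : i = 0
    · exact (pow_le_of_le_one zero_le p_le (by simp)).trans (beta_root (by simp [Rp, e]))
    rw [zero_add, pow_succ']
    exact (mul_le_mul_right (be_tree m i (by omega) hi hi) _).trans
      (beta_step (mem_O hi h (by omega)) (mem_O hi (by simp) (by omega)) (adj_path _ _))
  | succ j ih =>
    intro h
    rw [show j + 1 + m + 2 = j + m + 2 + 1 by ring, pow_succ']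
    exact (mul_le_mul_right (ih (by omega)) _).trans
      (beta_step (mem_O hi h (by omega)) (mem_O hi (by omega) (by omega)) (adj_path _ _))

noncomputable def Zi (m D : ℕ) (l : ℕ → ℕ) (i : ℕ) : ℝ≥0∞ :=
  (if i = 0 then 1 else 2 ^ m) * be m D l (i, l i) ^ 2 * xi m D l

lemma mem_I {i : ℕ} (h : i ∈ insert 0 (Ch m)) : i < 2 ^ (m + 1) := by
  rcases Finset.mem_insert.1 h with rfl | h
  exacts [by positivity, (mem_Ch h).2]

lemma p_two : (2⁻¹ : ℝ≥0∞) ^ 14 ≤ p ^ 2 := by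
  rw [← ENNReal.toReal_le_toReal (by simp) (by simp [p])]
  simp [p]; norm_num

lemma Zi_le (h : 1 ≤ l 0) (i : ℕ) :
    Zi m D l i ≤ 2 ^ (m + 3 * D + 13) * be m D l (i, l i) ^ 2 := by
  have := (piece (m := m) (D := D) h).m5
  rw [card_Rp] at this
  rw [Zi, mul_right_comm, show m + 3 * D + 13 = m + (3 * (D + 2) + 7) by ring, pow_add]
  refine mul_le_mul_left (mul_le_mul' ?_ this) _
  split_ifs
  exacts [one_le_pow₀ (by norm_num), le_rfl]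

lemma inv_pow_le {a b : ℕ} (h : (2⁻¹ : ℝ≥0∞) ^ a ≤ 2⁻¹ ^ b) : b ≤ a := by
  rw [← ENNReal.inv_pow, ← ENNReal.inv_pow, ENNReal.inv_le_inv] at h
  exact (Nat.pow_le_pow_iff_right (by norm_num : 1 < 2)).1 (by exact_mod_cast h)

lemma be_ge (h : 1 ≤ l 0) {i : ℕ} (hi : i < 2 ^ (m + 1)) (h1 : 1 ≤ l i) (h2 : p ^ 2 ≤ Zi m D l i) :
    2⁻¹ ^ (m + 3 * D + 27) ≤ be m D l (i, l i) := by
  have h3 := (be_le h (mem_O (D := D) hi le_rfl (by omega))).trans (pow_le_one₀ zero_le (by simp))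
  calc (2⁻¹ : ℝ≥0∞) ^ (m + 3 * D + 27) = 2⁻¹ ^ (m + 3 * D + 13) * 2⁻¹ ^ 14 := by rw [← pow_add]
    _ ≤ 2⁻¹ ^ (m + 3 * D + 13) * (2 ^ (m + 3 * D + 13) * be m D l (i, l i) ^ 2) :=
        mul_le_mul_right (p_two.trans (h2.trans (Zi_le h i))) _
    _ = be m D l (i, l i) ^ 2 := by
        rw [← mul_assoc, ← mul_pow, ENNReal.inv_mul_cancel (by simp) (by simp), one_pow, one_mul]
    _ ≤ _ := pow_le_of_le_one zero_le h3 (by simp)

lemma stair {L : ℕ} (h0 : (1 - p ^ 3) ^ D ≤ (p ^ 2) ^ (L + m + 1)) : ∃ l : ℕ → ℕ,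
    ∀ i ∈ insert 0 (Ch m), L + 1 ≤ l i ∧ p ^ 2 ≤ Zi m D l i ∧ Zi m D l i ≤ 1 := by
  classical
  let I := insert 0 (Ch m)
  let Inv := fun l : ℕ → ℕ => ∀ i ∈ I, L + 1 ≤ l i ∧ p ^ 2 ≤ Zi m D l i
  have ne : Inv fun _ => L + 1 := by
    refine fun i hi => ⟨le_rfl, ?_⟩
    have h1 := (piece (m := m) (D := D) (l := fun _ => L + 1) (by simp)).m6
    rw [card_Rp] at h1
    have h2 := be_low (D := D) (l := fun _ => L + 1) (mem_I hi) L le_rfl
    have h3 : ((p ^ 2) ^ (L + m + 1))⁻¹ ≤ xi m D fun _ => L + 1 :=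
      (ENNReal.inv_le_inv.2 ((pow_le_pow_right_of_le_one' tsub_le_self (by omega)).trans h0)).trans h1
    calc p ^ 2 = 1 * (p ^ (L + m + 2)) ^ 2 * ((p ^ 2) ^ (L + m + 1))⁻¹ := by
          rw [one_mul, ← pow_mul, show (L + m + 2) * 2 = 2 + 2 * (L + m + 1) by ring, pow_add,
            pow_mul, mul_assoc, ENNReal.mul_inv_cancel (by simp [p_ne]) (by simp [p_top]), mul_one]
      _ ≤ _ := by
          refine mul_le_mul' (mul_le_mul' ?_ (pow_le_pow_left' h2 2)) h3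
          split_ifs
          exacts [le_rfl, one_le_pow₀ (by norm_num)]
  have bd : ∀ l, Inv l → ∑ i ∈ I, l i ≤ I.card * (m + 3 * D + 27) := by
    refine fun l hl => Finset.sum_le_card_nsmul _ _ _ fun i hi => inv_pow_le ?_
    have h0 : 1 ≤ l 0 := by have := (hl 0 (by simp [I])).1; omega
    have h1 : 1 ≤ l i := by have := (hl i hi).1; omega
    exact (be_ge h0 (mem_I hi) h1 (hl i hi).2).trans ((be_le h0 (mem_O (mem_I hi) le_rfl
      (by omega))).trans (pow_le_pow_left' (ENNReal.inv_le_inv.2 (by norm_num)) _))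
  have hb : BddAbove {n | ∃ l, Inv l ∧ ∑ i ∈ I, l i = n} := ⟨_, by rintro _ ⟨l, hl, rfl⟩; exact bd l hl⟩
  obtain ⟨l, hl, e⟩ := Nat.sSup_mem (s := {n | ∃ l, Inv l ∧ ∑ i ∈ I, l i = n}) ⟨_, _, ne, rfl⟩ hb
  refine ⟨l, fun i hi => ⟨(hl i hi).1, (hl i hi).2, not_lt.1 fun k => ?_⟩⟩
  let l' := Function.update l i (l i + 1)
  have hle : ∀ n, l n ≤ l' n := fun n => by
    by_cases e : n = i
    · simp [l', e]
    · simp [l', e]
  have sub : Sp m D l ⊆ Sp m D l' := fun x hx => ⟨hx.1, hx.2.trans (hle _)⟩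
  have : Inv l' := by
    refine fun n hn => ⟨(hl n hn).1.trans (hle n), ?_⟩
    by_cases e : n = i
    · subst e
      have h1 : p * be m D l (n, l n) ≤ be m D l' (n, l' n) := by
        rw [show l' n = l n + 1 by simp [l']]
        exact (mul_le_mul_right (beta_mono sub) _).trans (beta_step (mem_O (mem_I hi) (by simp [l'])
          (by omega)) (mem_O (mem_I hi) (hle n) (by have := (hl n hn).1; omega)) (adj_path _ _))
      calc p ^ 2 ≤ p ^ 2 * Zi m D l n := le_mul_of_one_le_right' k.le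
        _ = (if n = 0 then 1 else 2 ^ m) * (p * be m D l (n, l n)) ^ 2 * xi m D l := by
            rw [Zi]; ring
        _ ≤ _ := mul_le_mul' (mul_le_mul_right (pow_le_pow_left' h1 2) _) (T_mono sub)
    · refine (hl n hn).2.trans (mul_le_mul' (mul_le_mul_right (pow_le_pow_left' ?_ 2) _)
        (T_mono sub))
      rw [show l' n = l n by simp [l', e]]
      exact beta_mono sub
  have h2 := le_csSup hb ⟨l', this, rfl⟩
  rw [← e] at h2
  exact absurd (Finset.sum_lt_sum (fun n _ => hle n) ⟨i, hi, by simp [l']⟩) (not_lt.2 h2)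

lemma num {q x ξ σ τ Q E N K : ℝ} (q0 : 0 ≤ q) (h1 : x ≤ 4 * E ^ 2 * q / 10 ^ 4)
    (h2 : q / 10 ^ 4 ≤ x) (h3 : x * ξ * Q ≤ 1) (h4 : 1 / 10 ^ 4 ≤ x * ξ * Q) (ξ1 : 1 ≤ ξ)
    (h5 : ξ ≤ 2 * σ) (N0 : 0 ≤ N) (h6 : N ≤ 5 * E ^ 2 * ξ) (K0 : 0 ≤ K) (h7 : K ≤ E) (E1 : 1 ≤ E)
    (h8 : 2 * 10 ^ 14 * E ^ 7 ≤ Q) (τ0 : 0 ≤ τ)
    (h9 : q / 10 ^ 6 * (σ * σ) ≤ 4 * N * K * (τ + (2 * N * q) ^ 2)) : 4 ≤ Q ^ 2 * τ := by
  have E7 : E ^ 5 ≤ E ^ 7 := pow_le_pow_right₀ E1 (by norm_num)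
  have E5 : 0 < E ^ 5 := by positivity
  have Q0 : 0 < Q := by nlinarith
  have ξ0 : 0 < ξ := by linarith
  set y := q * ξ with hy
  have y0 : 0 ≤ y := by positivity
  have y1 : y * Q ≤ 10 ^ 4 := by
    have := mul_le_mul_of_nonneg_right h2 (show 0 ≤ ξ * Q by positivity)
    nlinarith
  have y2 : 1 ≤ 4 * E ^ 2 * (y * Q) := by
    have := mul_le_mul_of_nonneg_right h1 (show 0 ≤ ξ * Q by positivity)
    nlinarith
  have a1 : 4 * N * K ≤ 20 * E ^ 3 * ξ := by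
    have := mul_le_mul h6 h7 K0 (by positivity)
    nlinarith
  have a2 : (2 * N * q) ^ 2 ≤ (10 * E ^ 2 * y) ^ 2 :=
    pow_le_pow_left₀ (by positivity) (by nlinarith [mul_le_mul_of_nonneg_right h6 q0]) 2
  have a3 : q / 10 ^ 6 * (ξ / 2 * (ξ / 2)) ≤ 20 * E ^ 3 * ξ * (τ + (10 * E ^ 2 * y) ^ 2) :=
    (mul_le_mul_of_nonneg_left (mul_self_le_mul_self (by positivity) (by linarith))
      (by positivity)).trans (h9.trans (mul_le_mul a1 (by linarith) (by positivity) (by positivity)))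
  have a4 : y / (4 * 10 ^ 6) ≤ 20 * E ^ 3 * τ + 2000 * E ^ 7 * y * y := by
    refine le_of_mul_le_mul_right ?_ ξ0
    calc _ = q / 10 ^ 6 * (ξ / 2 * (ξ / 2)) := by rw [hy]; ring
      _ ≤ _ := a3
      _ = _ := by ring
  have a5 : 2000 * E ^ 7 * y ≤ 1 / (8 * 10 ^ 6) := by
    refine le_of_mul_le_mul_right ?_ Q0
    have : 0 ≤ E ^ 7 := by positivity
    nlinarith [mul_le_mul_of_nonneg_left y1 this]
  have a6 : y ≤ 16 * 10 ^ 7 * E ^ 3 * τ := by nlinarith [mul_le_mul_of_nonneg_right a5 y0]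
  have a7 : 1 ≤ 64 * 10 ^ 7 * E ^ 5 * (Q * τ) := by
    have := mul_le_mul_of_nonneg_right a6 (show 0 ≤ 4 * E ^ 2 * Q by positivity)
    nlinarith
  refine le_of_mul_le_mul_left ?_ (show 0 < 64 * 10 ^ 7 * E ^ 5 by positivity)
  nlinarith [mul_le_mul_of_nonneg_left a7 Q0.le]

lemma sq_le {a b : ℝ≥0∞} (h : a ^ 2 ≤ b ^ 2) : a ≤ b :=
  (ENNReal.pow_le_pow_left_iff two_ne_zero).1 h

structure Good (j μ D : ℕ) (l : ℕ → ℕ) : Prop where
  mu : 1 ≤ μ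
  len : ∀ i ∈ insert 0 (Ch (2 * μ)), j * (2 * μ) + 1 ≤ l i
  uu : T (TG (2 * μ)) (Sp (2 * μ) D l) (0, l 0) (0, l 0) ≤ 3
  uw : ∀ c ∈ Ch (2 * μ), 2 ^ μ * T (TG (2 * μ)) (Sp (2 * μ) D l) (0, l 0) (c, l c) ≤ 1
  ww : ∀ c ∈ Ch (2 * μ),
    ∑ c' ∈ Ch (2 * μ), T (TG (2 * μ)) (Sp (2 * μ) D l) (c, l c) (c', l c') ≤ 3
  hub : ∀ i ∈ insert 0 (Ch (2 * μ)),
    T (TG (2 * μ)) (Sp (2 * μ) D l) (0, 0) (i, l i) ≤ xi (2 * μ) D l
  cross : ∃ N H : ℕ, 0 < N ∧ ∃ a ∈ Rp (2 * μ) D, ∃ s : ℤ, ∀ c ∈ Ch (2 * μ), ∃ a' ∈ Rp (2 * μ) D,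
    ∃ s' : ℤ, ∀ q σ τ : ℝ≥0∞, τ ≤ 1 →
      q = tau (Z (TG (2 * μ))) (bx (Sp (2 * μ) D l \ {(0, 0)}) (-H) H) ((c, l c), 0) (a', s') *
        tau (Z (TG (2 * μ))) (bx (Sp (2 * μ) D l \ {(0, 0)}) (-H) H) ((0, l 0), 0) (a, s) →
      σ = ∑ t ∈ Finset.Ioo (-N : ℤ) N,
        tau (Z (TG (2 * μ))) (cyl (Sp (2 * μ) D l)) ((0, 0), 0) ((0, 0), t) →
      p ^ 3 * q * (σ * σ) ≤ (4 * N * (2 * H + 1) : ℕ) * (τ + ((2 * N : ℕ) * q) ^ 2) →
      4 ≤ 2 ^ (2 * μ) * τ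

lemma big (C k : ℕ) : ∃ μ, 1 ≤ μ ∧ C * μ ^ k ≤ 2 ^ μ := by
  have := ((tendsto_pow_const_div_const_pow_of_one_lt k (show (1 : ℝ) < 2 by norm_num)).const_mul
    (C : ℝ)).eventually (eventually_le_nhds (show (C : ℝ) * 0 < 1 by simp))
  obtain ⟨μ, h1, h2⟩ := ((eventually_ge_atTop 1).and this).exists
  refine ⟨μ, h1, ?_⟩
  rw [← mul_div_assoc, div_le_one (by positivity)] at h2
  exact_mod_cast h2

lemma arith1 (D H : ℕ) : 2 * ((1 + (D + 2) * (2 * H + 1)) * 2) ≤ 2 ^ (D + H + 5) := by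
  have a := (D + 2).lt_two_pow_self
  have b := H.lt_two_pow_self
  rw [show D + H + 5 = (D + 2) + H + 3 by ring, pow_add, pow_add 2 (D + 2)]
  generalize 2 ^ (D + 2) = X at *
  generalize 2 ^ H = Y at *
  nlinarith [Nat.mul_le_mul (Nat.succ_le_of_lt a) (Nat.succ_le_of_lt b)]

lemma arith2 {m D H : ℕ} (hH : H = m + 4 * D + 32) :
    2 * ((1 + ((D + 2 : ℕ) : ℝ≥0∞) * (2 * H + 1)) * (2 * 8⁻¹ ^ H)) ≤ 2⁻¹ ^ (m + 3 * D + 27) := by
  rw [← mul_assoc, ← mul_assoc, mul_assoc 2]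
  calc _ ≤ (2 : ℝ≥0∞) ^ (D + H + 5) * 8⁻¹ ^ H := mul_le_mul_left (by exact_mod_cast arith1 D H) _
    _ = 2 ^ (D + H + 5) * 2⁻¹ ^ (D + H + 5) * 2⁻¹ ^ (H + H - (D + 5)) := by
        rw [mul_assoc, ← pow_add, show D + H + 5 + (H + H - (D + 5)) = 3 * H by omega, pow_mul,
          ← ENNReal.inv_pow (a := 2)]; norm_num
    _ ≤ _ := by
        rw [← mul_pow, ENNReal.mul_inv_cancel (by simp) (by simp), one_pow, one_mul]
        exact pow_le_pow_right_of_le_one' (by simp) (by omega)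

lemma arith3 (c j : ℕ) : ∃ μ, 1 ≤ μ ∧ ∀ D H, D = c * (j * (2 * μ) + 2 * μ + 1) →
    H = 2 * μ + 4 * D + 32 → 2 * 10 ^ 14 * ((D + 3) * (2 * H + 1)) ^ 7 ≤ 2 ^ μ := by
  obtain ⟨A, hA⟩ : ∃ A, A = c * (2 * j + 3) := ⟨_, rfl⟩
  obtain ⟨μ, μ1, hμ⟩ := big (2 * 10 ^ 14 * ((A + 3) * (8 * A + 69)) ^ 7) 14
  refine ⟨μ, μ1, fun D H hD hH => le_trans ?_ hμ⟩
  have h1 : D ≤ A * μ := by
    rw [hD, hA, mul_assoc c]; exact Nat.mul_le_mul_left _ (by nlinarith)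
  have h2 : (D + 3) * (2 * H + 1) ≤ (A + 3) * (8 * A + 69) * μ ^ 2 := by
    calc _ ≤ ((A + 3) * μ) * ((8 * A + 69) * μ) := Nat.mul_le_mul (by nlinarith) (by nlinarith)
      _ = _ := by ring
  have h3 := Nat.mul_le_mul_left (2 * 10 ^ 14) (Nat.pow_le_pow_left h2 7)
  rwa [mul_pow _ (μ ^ 2), ← pow_mul, ← mul_assoc] at h3

lemma num2 {q x ξ σ τ : ℝ≥0∞} {μ D H N : ℕ} (qf : q ≠ ⊤) (σf : σ ≠ ⊤) (τf : τ ≠ ⊤) (fin : ξ ≠ ⊤)
    (x1 : x ≤ p ^ 2 * (4 * (((D + 2) * (2 * H + 1) : ℕ) ^ 2 * q))) (x2 : p ^ 2 * q ≤ x)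
    (x3 : p ^ 2 ≤ x * ξ * 2 ^ μ) (x4 : x * ξ * 2 ^ μ ≤ 1) (ξ1 : 1 ≤ ξ.toReal) (m4 : ξ ≤ 2 * σ)
    (hN : N = ⌈4 * ((1 + (D + 2 : ℕ)) ^ 2 * ξ.toReal)⌉₊)
    (hμ : 2 * 10 ^ 14 * ((D + 3) * (2 * H + 1)) ^ 7 ≤ 2 ^ μ)
    (h : p ^ 3 * q * (σ * σ) ≤ (4 * N * (2 * H + 1) : ℕ) * (τ + ((2 * N : ℕ) * q) ^ 2)) :
    4 ≤ 2 ^ (2 * μ) * τ := by
  have := p_top
  have xf : x ≠ ⊤ := ne_top_of_le_ne_top (by finiteness) x1
  replace x1 := ENNReal.toReal_mono (by finiteness) x1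
  replace x2 := ENNReal.toReal_mono xf x2
  replace x3 := ENNReal.toReal_mono (by finiteness) x3
  replace x4 := ENNReal.toReal_mono (by simp) x4
  replace m4 := ENNReal.toReal_mono (by finiteness) m4
  replace h := ENNReal.toReal_mono (by finiteness) h
  rw [← ENNReal.toReal_le_toReal (by simp) (by finiteness), pow_mul']
  rw [ENNReal.toReal_mul (a := ((4 * N * (2 * H + 1) : ℕ) : ℝ≥0∞)),
    ENNReal.toReal_add τf (by finiteness)] at h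
  simp only [ENNReal.toReal_mul, ENNReal.toReal_pow, p_real, ENNReal.toReal_natCast,
    ENNReal.toReal_ofNat, ENNReal.toReal_one] at x1 x2 x3 x4 m4 h ⊢
  have D0 : (0 : ℝ) ≤ D := Nat.cast_nonneg _
  have H0 : (0 : ℝ) ≤ H := Nat.cast_nonneg _
  refine num (E := (D + 3) * (2 * H + 1)) (N := N) (K := 2 * H + 1) (x := x.toReal) (q := q.toReal)
    (ξ := ξ.toReal) (σ := σ.toReal) ENNReal.toReal_nonneg ?_ (by linarith) x4
    (by linarith) ξ1 m4 (Nat.cast_nonneg _) ?_ (by positivity) (by nlinarith) (by nlinarith)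
    (by exact_mod_cast hμ) ENNReal.toReal_nonneg (by push_cast at h; linarith)
  · push_cast at x1
    have := mul_le_mul_of_nonneg_right (pow_le_pow_left₀ (by positivity)
      (show ((D : ℝ) + 2) * (2 * H + 1) ≤ (D + 3) * (2 * H + 1) by nlinarith) 2)
      (ENNReal.toReal_nonneg (a := q))
    linarith
  · have h1 := Nat.ceil_lt_add_one
      (show 0 ≤ 4 * ((1 + (D + 2 : ℕ)) ^ 2 * ξ.toReal) by positivity)
    rw [← hN] at h1
    push_cast at h1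
    have h2 := mul_le_mul_of_nonneg_right (pow_le_pow_left₀ (by positivity)
      (show 1 + ((D : ℝ) + 2) ≤ (D + 3) * (2 * H + 1) by nlinarith) 2) (by linarith : 0 ≤ ξ.toReal)
    have h3 : 1 ≤ (1 + ((D : ℝ) + 2)) ^ 2 * ξ.toReal :=
      one_le_mul_of_one_le_of_one_le (by nlinarith) ξ1
    linarith

lemma good_of {j μ D H : ℕ} (μ1 : 1 ≤ μ) (hH : H = 2 * μ + 4 * D + 32)
    (hμ : 2 * 10 ^ 14 * ((D + 3) * (2 * H + 1)) ^ 7 ≤ 2 ^ μ)
    (hl : ∀ i ∈ insert 0 (Ch (2 * μ)), j * (2 * μ) + 1 ≤ l i ∧ p ^ 2 ≤ Zi (2 * μ) D l i ∧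
      Zi (2 * μ) D l i ≤ 1) : Good j μ D l := by
  have l0 : 1 ≤ l 0 := by have := (hl 0 (by simp)).1; omega
  have hP := piece (m := 2 * μ) (D := D) l0
  have mO : ∀ i ∈ insert 0 (Ch (2 * μ)), (i, l i) ∈ Sp (2 * μ) D l \ {(0, 0)} := fun i hi =>
    mem_O (mem_I hi) le_rfl (by have := (hl i hi).1; omega)
  have ci : ∀ c ∈ Ch (2 * μ), c ∈ insert 0 (Ch (2 * μ)) := fun c hc => by simp [hc]
  have zu := (hl 0 (by simp)).2
  have zc : ∀ c ∈ Ch (2 * μ), p ^ 2 ≤ 2 ^ (2 * μ) * be (2 * μ) D l (c, l c) ^ 2 * xi (2 * μ) D l ∧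
      2 ^ (2 * μ) * be (2 * μ) D l (c, l c) ^ 2 * xi (2 * μ) D l ≤ 1 := fun c hc => by
    have := (hl c (ci c hc)).2
    rwa [Zi, if_neg (by have := mem_Ch hc; omega)] at this
  rw [Zi, if_pos rfl, one_mul] at zu
  have xu : ∀ c ∈ Ch (2 * μ),
      p ^ 2 ≤ be (2 * μ) D l (c, l c) * be (2 * μ) D l (0, l 0) * xi (2 * μ) D l * 2 ^ μ ∧
      be (2 * μ) D l (c, l c) * be (2 * μ) D l (0, l 0) * xi (2 * μ) D l * 2 ^ μ ≤ 1 := by
    intro c hc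
    have e : (be (2 * μ) D l (c, l c) * be (2 * μ) D l (0, l 0) * xi (2 * μ) D l * 2 ^ μ) ^ 2 =
        2 ^ (2 * μ) * be (2 * μ) D l (c, l c) ^ 2 * xi (2 * μ) D l *
          (be (2 * μ) D l (0, l 0) ^ 2 * xi (2 * μ) D l) := by ring
    exact ⟨sq_le (by rw [e, sq]; exact mul_le_mul' (zc c hc).1 zu.1),
      sq_le (by rw [e, one_pow]; exact mul_le_one' (zc c hc).2 zu.2)⟩
  refine ⟨μ1, fun i hi => (hl i hi).1, ?_, fun c hc => ?_, fun c hc => ?_, fun i hi => ?_, ?_⟩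
  · refine (hP.m1'' (mO 0 (by simp)) (mO 0 (by simp))).trans ?_
    rw [show (3 : ℝ≥0∞) = 2 + 1 by norm_num, ← sq]
    exact add_le_add ((ENNReal.le_tsum _).trans (hP.thin.total (mO 0 (by simp)))) zu.2
  · refine (mul_le_mul_right (hP.m1'' (mO 0 (by simp)) (mO c (ci c hc))) _).trans ?_
    rw [T_zero (X := fun a => a.1 = 0) rfl (by have := mem_Ch hc; simp; omega), zero_add]
    · refine le_trans (le_of_eq ?_) (xu c hc).2
      simp only [be, xi]; ring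
    · intro a b h1 h2 _ k
      have := h2.2
      simp only [mem_singleton_iff, Prod.ext_iff] at this
      rcases k.2 with e | e <;> have := par_cases e <;> omega
  · refine (Finset.sum_le_sum fun c' hc' => hP.m1'' (mO c (ci c hc)) (mO c' (ci c' hc'))).trans ?_
    rw [show (3 : ℝ≥0∞) = 2 + 1 by norm_num, Finset.sum_add_distrib]
    refine add_le_add (le_trans ?_ (hP.thin.total (mO c (ci c hc)))) ?_
    · exact (ENNReal.sum_le_tsum _).trans (ENNReal.tsum_comp_le_tsum_of_injective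
        (f := fun c => (c, l c)) (fun _ _ k => congrArg Prod.fst k) _)
    · refine (Finset.sum_le_card_nsmul _ _ (2 ^ (2 * μ))⁻¹ fun c' hc' => ?_).trans ?_
      · rw [ENNReal.le_inv_iff_mul_le]
        refine sq_le ?_
        rw [one_pow]
        refine le_trans (le_of_eq ?_) (mul_le_one' (zc c hc).2 (zc c' hc').2)
        simp only [be, xi]; ring
      · rw [card_Ch, nsmul_eq_mul]; push_cast
        exact ENNReal.mul_inv_le_one _
  · exact (hP.m1' (mO i hi)).trans (mul_le_of_le_one_left'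
      ((be_le l0 (mO i hi)).trans (pow_le_one₀ zero_le (by simp))))
  have fin : xi (2 * μ) D l ≠ ⊤ := ne_top_of_le_ne_top (by simp) hP.m5
  have ξ1 : 1 ≤ (xi (2 * μ) D l).toReal := by
    simpa using ENNReal.toReal_mono fin one_le_T
  obtain ⟨N, hN⟩ : ∃ N, N = ⌈4 * ((1 + (D + 2 : ℕ)) ^ 2 * (xi (2 * μ) D l).toReal)⌉₊ := ⟨_, rfl⟩
  have m4 := hP.m4 N (by
    rw [card_Rp, ← xi, ← ENNReal.toReal_le_toReal (ENNReal.mul_ne_top (by simp)
      (ENNReal.mul_ne_top (by simp) fin)) (by simp), hN]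
    simpa [ENNReal.toReal_add] using
      Nat.le_ceil (4 * ((1 + (D + 2 : ℕ)) ^ 2 * (xi (2 * μ) D l).toReal)))
  have m8 := fun i (hi : i ∈ insert 0 (Ch (2 * μ))) => hP.m8 ⟨(0, 1), by simp [Rp]⟩ (mO i hi) H (by
    rw [card_Rp]
    exact (arith2 hH).trans (be_ge l0 (mem_I hi) (by have := (hl i hi).1; omega) (hl i hi).2.1))
  obtain ⟨a, ha, s, u1, u2⟩ := m8 0 (by simp)
  refine ⟨N, H, hN ▸ Nat.ceil_pos.2 (by positivity), a, ha, s, fun ch hch => ?_⟩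
  obtain ⟨a', ha', s', w1, w2⟩ := m8 ch (ci ch hch)
  refine ⟨a', ha', s', fun q σ τ τ1 hq hσ h => num2
    (ne_top_of_le_ne_top (by simp) (hq ▸ mul_le_one' tau_le tau_le)) ?_
    (ne_top_of_le_ne_top (by simp) τ1) fin ?_ ?_ (xu ch hch).1 (xu ch hch).2 ξ1 (hσ ▸ m4) hN hμ h⟩
  · rw [hσ]; exact ENNReal.sum_ne_top.2 fun _ _ => ne_top_of_le_ne_top (by simp) tau_le
  · refine (mul_le_mul' w2 u2).trans_eq ?_
    rw [hq, card_Rp]; ring
  · refine le_trans (le_of_eq ?_) (mul_le_mul' w1 u1)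
    rw [hq]; ring

lemma exists_good (j : ℕ) : ∃ μ D l, Good j μ D l := by
  obtain ⟨c, hc⟩ : ∃ c : ℕ, (1 - p ^ 3) ^ c ≤ p ^ 2 :=
    ((ENNReal.tendsto_pow_atTop_nhds_zero_of_lt_one (ENNReal.sub_lt_self ENNReal.one_ne_top
      one_ne_zero (pow_ne_zero 3 p_ne))).eventually (eventually_le_nhds
        (pos_iff_ne_zero.2 (pow_ne_zero 2 p_ne)))).exists
  obtain ⟨μ, μ1, hμ⟩ := arith3 c j
  obtain ⟨l, hl⟩ := stair (m := 2 * μ) (D := c * (j * (2 * μ) + 2 * μ + 1)) (L := j * (2 * μ)) (by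
    rw [pow_mul]; exact pow_le_pow_left' hc _)
  exact ⟨μ, _, l, good_of μ1 rfl (hμ _ _ rfl rfl) hl⟩

end Pool.Agent.H.MP_1775a6_pr
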