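import Pool.Agent.H.MP_1775a6_pr.E

/-! The tree of pieces: structure, the upper bound and critical probability one. -/

namespace Pool.Agent.H.MP_1775a6_pr

open MeasureTheory ProbabilityTheory Filter Topology Set Relation
open scoped ENNReal

abbrev Vh := List ℕ × ℕ × ℕ

structure Pr where
  mu : ℕ → ℕ
  D : ℕ → ℕ
  l : ℕ → ℕ → ℕ

variable (π : Pr)

def Pr.ch (k : ℕ) : Finset ℕ := Ch (2 * π.mu k)
def Pr.sp (k : ℕ) : Set (ℕ × ℕ) := Sp (2 * π.mu k) (π.D k) (π.l k)
def Pr.tg (k : ℕ) : SimpleGraph (ℕ × ℕ) := TG (2 * π.mu k)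

def Jn (x y : Vh) : Prop := y.1 = x.2.1 :: x.1 ∧ x.2.1 ∈ π.ch x.1.length ∧
  x.2.2 = π.l x.1.length x.2.1 ∧ y.2 = (0, π.l y.1.length 0)

def GG : SimpleGraph Vh where
  Adj x y := (x.1 = y.1 ∧ (π.tg x.1.length).Adj x.2 y.2) ∨ Jn π x y ∨ Jn π y x
  symm := ⟨fun _ _ h => by
    rcases h with ⟨a, b⟩ | h | h
    exacts [Or.inl ⟨a.symm, a ▸ b.symm⟩, Or.inr (Or.inr h), Or.inr (Or.inl h)]⟩
  loopless := ⟨fun x h => by
    rcases h with ⟨-, b⟩ | h | h
    exacts [b.ne rfl, List.cons_ne_self _ _ h.1.symm, List.cons_ne_self _ _ h.1.symm]⟩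

def va : List ℕ → Prop
  | [] => True
  | c :: a => c ∈ π.ch a.length ∧ va a

def Val : Set Vh := {x | va π x.1 ∧ x.2 ∈ π.sp x.1.length}

def Pc (a : List ℕ) : Set Vh := (fun v => (a, v)) '' π.sp a.length

def Ad : ℕ → Finset (List ℕ)
  | 0 => {[]}
  | k + 1 => (π.ch k ×ˢ Ad k).image fun x => x.1 :: x.2

variable {π}

lemma mem_Ad : ∀ {a : List ℕ}, va π a → a ∈ Ad π a.length
  | [], _ => by simp [Ad]
  | c :: a, h => Finset.mem_image.2 ⟨(c, a), Finset.mem_product.2 ⟨h.1, mem_Ad h.2⟩, rfl⟩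

lemma va_suffix {a : List ℕ} : ∀ {b : List ℕ}, va π b → a <:+ b → va π a
  | [], h, k => by rwa [List.suffix_nil.1 k]
  | c :: b, h, k => by
    rcases List.suffix_cons_iff.1 k with rfl | k
    exacts [h, va_suffix h.2 k]

lemma mem_Pc {a : List ℕ} {x : Vh} : x ∈ Pc π a ↔ x.1 = a ∧ x.2 ∈ π.sp a.length :=
  ⟨by rintro ⟨v, h, rfl⟩; exact ⟨rfl, h⟩, fun ⟨h1, h2⟩ => ⟨x.2, h2, by rw [← h1]⟩⟩

lemma emb_inj (a : List ℕ) : Function.Injective fun v : ℕ × ℕ => ((a, v) : Vh) :=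
  fun _ _ h => congrArg Prod.snd h

lemma emb_adj (a : List ℕ) (v w : ℕ × ℕ) : (GG π).Adj (a, v) (a, w) ↔ (π.tg a.length).Adj v w :=
  ⟨fun h => by
    rcases h with ⟨-, b⟩ | h | h
    exacts [b, absurd h.1.symm (List.cons_ne_self _ _), absurd h.1.symm (List.cons_ne_self _ _)],
    fun h => Or.inl ⟨rfl, h⟩⟩

lemma T_pc (a : List ℕ) (v w : ℕ × ℕ) :
    T (GG π) (Pc π a) (a, v) (a, w) = T (π.tg a.length) (π.sp a.length) v w :=
  T_lift (emb_inj a) (fun v _ w _ => emb_adj a v w) v w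

lemma fin_val (K : ℕ) : {x ∈ Val π | x.1.length < K}.Finite := by
  refine (Finite.biUnion (finite_lt_nat K) fun k _ => (Ad π k).finite_toSet.prod
    (show (π.sp k).Finite from ?_)).subset ?_
  · refine (Finite.biUnion (finite_lt_nat (2 ^ (2 * π.mu k + 1) + π.D k)) fun n _ =>
      (finite_le_nat (π.l k n)).image fun j => (n, j)).subset fun x hx => ?_
    exact mem_biUnion hx.1 ⟨x.2, hx.2, rfl⟩
  · rintro x ⟨h1, h2⟩
    exact mem_biUnion h2 ⟨mem_Ad h1.1, h1.2⟩

lemma ex_cases {a : List ℕ} {x y : Vh} (h : Ex (GG π) (Val π) (Pc π a) x y) :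
    (∃ c ∈ π.ch a.length, (x, y) = ((a, c, π.l a.length c), (c :: a, 0, π.l (a.length + 1) 0))) ∨
    ∃ c b, a = c :: b ∧ c ∈ π.ch b.length ∧
      (x, y) = ((a, 0, π.l a.length 0), (b, c, π.l b.length c)) := by
  obtain ⟨x1, x2, x3⟩ := x
  obtain ⟨y1, y2, y3⟩ := y
  obtain ⟨h1, h2, h3, h4⟩ := h
  rw [mem_Pc] at h1 h2
  obtain ⟨rfl, h1⟩ : x1 = a ∧ _ := h1
  rcases h4 with ⟨e, -⟩ | ⟨e1, e2, e3, e4⟩ | ⟨e1, e2, e3, e4⟩
  · obtain rfl : x1 = y1 := e
    exact absurd ⟨rfl, h3.2⟩ h2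
  · simp only [Prod.mk.injEq] at e1 e2 e3 e4
    exact Or.inl ⟨x2, e2, by simp [e1, e3, e4]⟩
  · simp only [Prod.mk.injEq] at e1 e2 e3 e4
    exact Or.inr ⟨y2, y1, e1, e2, by simp [e3, e4]⟩

open Classical in
lemma ex_sum (a : List ℕ) (F : Vh → Vh → ℝ≥0∞) {C : ℝ≥0∞} (hC : ∀ c b, a = c :: b →
      c ∈ π.ch b.length → F (a, 0, π.l a.length 0) (b, c, π.l b.length c) ≤ C) :
    ∑' x, ∑' y, (if Ex (GG π) (Val π) (Pc π a) x y then F x y else 0) ≤
      ∑ c ∈ π.ch a.length, F (a, c, π.l a.length c) (c :: a, 0, π.l (a.length + 1) 0) + C := by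
  rw [← ENNReal.tsum_prod]
  calc _ ≤ ∑' e : Vh × Vh, (∑ c ∈ π.ch a.length, (if e = ((a, c, π.l a.length c),
        (c :: a, 0, π.l (a.length + 1) 0)) then
          F (a, c, π.l a.length c) (c :: a, 0, π.l (a.length + 1) 0) else 0) +
        if e = ((a, 0, π.l a.length 0), (a.tail, a.headI, π.l a.tail.length a.headI)) then C
          else 0) := by
        refine ENNReal.tsum_le_tsum fun ⟨x, y⟩ => ?_
        by_cases k : Ex (GG π) (Val π) (Pc π a) x y
        swap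
        · rw [if_neg k]; exact zero_le
        rw [if_pos k]
        rcases ex_cases k with ⟨c, hc, e⟩ | ⟨c, b, e1, hc, e⟩
        · refine le_trans (le_trans ?_ (Finset.single_le_sum (fun _ _ => zero_le) hc)) le_self_add
          rw [if_pos e]
          obtain ⟨rfl, rfl⟩ := Prod.mk.inj e
          rfl
        · refine le_trans ?_ le_add_self
          rw [if_pos (by rw [e, e1]; rfl)]
          obtain ⟨rfl, rfl⟩ := Prod.mk.inj e
          exact hC c b e1 hc
    _ = _ := by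
        rw [ENNReal.tsum_add, Summable.tsum_finsetSum fun _ _ => ENNReal.summable]
        simp only [tsum_ite_eq]

noncomputable def lam (π : Pr) (k : ℕ) : ℝ≥0∞ := ∏ i ∈ Finset.range k, (2 ^ π.mu i)⁻¹

lemma absorb {s Φ : ℝ≥0∞} (h : 2 * s ≤ Φ) : s + p * (4 * Φ) ≤ Φ := by
  refine (ENNReal.mul_le_mul_iff_right (a := 2) (by simp) (by simp)).1 ?_
  rw [mul_add, two_mul Φ, ← mul_assoc, ← mul_assoc]
  refine add_le_add h (mul_le_of_le_one_left' ?_)
  rw [← ENNReal.toReal_le_toReal (by simp [p]; finiteness) (by simp)]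
  simp [p]; norm_num

variable {J : ℕ → ℕ}

lemma fin_T (hg : ∀ k, Good (J k) (π.mu k) (π.D k) (π.l k)) :
    T (GG π) (Val π) ([], 0, 0) ([], 0, 0) ≠ ⊤ := by
  classical
  have l0 : ∀ k, 1 ≤ π.l k 0 := fun k => by have := (hg k).len 0 (by simp); omega
  obtain ⟨ξ, hξ⟩ : ∃ ξ, ξ = xi (2 * π.mu 0) (π.D 0) (π.l 0) := ⟨_, rfl⟩
  have fin : ξ ≠ ⊤ := hξ ▸ ne_top_of_le_ne_top (by simp) (piece (l0 0)).m5
  let R := 2 * 2 ^ π.mu 0 * ξ
  let Φ : Vh → ℝ≥0∞ := fun x => R * lam π (x.1.length + if x.2.1 = 0 then 0 else 1)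
  have c0 : ∀ {k c}, c ∈ π.ch k → c ≠ 0 := fun h => by have := mem_Ch h; omega
  have inv : ∀ k, (2 : ℝ≥0∞) ^ π.mu k * (2 ^ π.mu k)⁻¹ = 1 := fun k =>
    ENNReal.mul_inv_cancel (by simp) (by simp)
  have uw : ∀ k, ∀ c ∈ π.ch k, T (π.tg k) (π.sp k) (0, π.l k 0) (c, π.l k c) ≤ (2 ^ π.mu k)⁻¹ :=
    fun k c hc => ENNReal.le_inv_iff_mul_le.2 ((mul_comm _ _).trans_le ((hg k).uw c hc))
  have key : ∀ v ∈ {x : Vh | va π x.1 ∧ x.2.1 ∈ insert 0 (π.ch x.1.length) ∧
      x.2.2 = π.l x.1.length x.2.1}, T (GG π) (Val π) v ([], 0, 0) ≤ Φ v := by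
    refine fun v hv => T_super _ (fun x => Pc π x.1) Φ (fun x hx => ?_) (fun x hx a b h => ?_) ?_ hv
    · exact mem_Pc.2 ⟨rfl, (mem_I hx.2.1).trans_le le_self_add, hx.2.2.le⟩
    · rcases ex_cases h with ⟨c, hc, e⟩ | ⟨c, b, e1, hc, e⟩ <;> obtain ⟨rfl, rfl⟩ := Prod.mk.inj e
      · exact ⟨h.2.2.1.1, by simp, rfl⟩
      · exact ⟨h.2.2.1.1, by simp [hc], rfl⟩
    rintro ⟨a, i, j⟩ ⟨h1, h2, h3⟩
    obtain rfl : j = π.l a.length i := h3
    have src : 2 * T (GG π) (Pc π a) (a, i, π.l a.length i) ([], 0, 0) ≤ Φ (a, i, π.l a.length i) := by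
      rcases a with _ | ⟨c, a⟩
      · rw [T_pc, T_symm]
        refine (mul_le_mul_right (((hg 0).hub i h2).trans_eq hξ.symm) _).trans ?_
        simp only [Φ, R]
        split_ifs
        · simp only [List.length_nil, lam, add_zero, Finset.range_zero, Finset.prod_empty, mul_one]
          exact mul_le_mul_left (le_mul_of_one_le_right' (one_le_pow₀ (by norm_num))) _
        · simp only [List.length_nil, lam, zero_add, Finset.prod_range_one]
          rw [mul_right_comm, mul_assoc 2, inv, mul_one]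
      · rw [T_out (by simp [mem_Pc]) (by simp), mul_zero]; exact zero_le
    refine le_trans (add_le_add_right ?_ _) (absorb src)
    rcases Finset.mem_insert.1 h2 with e | hi
    · obtain rfl : i = 0 := e
      refine (ex_sum a _ (C := 3 * (p * (R * lam π a.length))) ?_).trans ?_
      · rintro c b rfl hc
        rw [T_pc]
        exact mul_le_mul' (hg _).uu (by simp [Φ, c0 hc])
      · refine (add_le_add_left (Finset.sum_le_card_nsmul _ _
          ((2 ^ π.mu a.length)⁻¹ * (p * (R * lam π (a.length + 1)))) fun c hc => ?_) _).trans_eq ?_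
        · rw [T_pc]
          exact mul_le_mul' (uw _ c hc) (by simp [Φ])
        · simp only [Φ, Pr.ch, card_Ch, nsmul_eq_mul, lam, Finset.prod_range_succ, if_true, add_zero]
          push_cast
          rw [pow_mul']
          generalize (∏ i ∈ Finset.range a.length, ((2 : ℝ≥0∞) ^ π.mu i)⁻¹) = Y
          have := inv a.length
          generalize ((2 : ℝ≥0∞) ^ π.mu a.length)⁻¹ = U at this ⊢
          generalize (2 : ℝ≥0∞) ^ π.mu a.length = W at this ⊢
          calc _ = (W * U) * (W * U) * (p * R * Y) + 3 * (p * (R * Y)) := by ring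
            _ = _ := by rw [this]; ring
    · refine (ex_sum a _ (C := p * (R * lam π (a.length + 1))) ?_).trans ?_
      · rintro c b rfl hc
        rw [T_pc, T_symm]
        refine (mul_le_mul_left (uw _ i hi) _).trans_eq ?_
        simp only [Φ, c0 hc, if_false, lam, Finset.prod_range_succ, List.length_cons]
        ring
      · simp only [T_pc, Φ, c0 hi, if_true, if_false, List.length_cons, add_zero]
        rw [← Finset.sum_mul]
        refine (add_le_add_left (mul_le_mul_left ((hg _).ww i hi) _) _).trans_eq ?_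
        ring
  refine ne_top_of_le_ne_top ?_ ((T_sl (S := Pc π []) (v := ([], 0, 0)) ⟨(0, 0), (piece (l0 0)).hub, rfl⟩).trans
    (add_le_add_right (ex_sum [] _ (C := 0) (by simp)) _))
  simp only [T_pc, add_zero]
  have fin' : xi (2 * π.mu 0) (π.D 0) (π.l 0) ≠ ⊤ := by rwa [← hξ]
  refine ENNReal.add_ne_top.2 ⟨fin', ENNReal.sum_ne_top.2 fun c hc => ENNReal.mul_ne_top
    (ne_top_of_le_ne_top fin' ((hg 0).hub c (Finset.mem_insert_of_mem hc)))
    (ENNReal.mul_ne_top p_top (ne_top_of_le_ne_top ?_ (key _ ⟨⟨hc, trivial⟩, by simp, rfl⟩)))⟩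
  refine ENNReal.mul_ne_top (by finiteness) (ENNReal.prod_ne_top fun _ _ => by simp)

def GV (π : Pr) : SimpleGraph (Val π) := (GG π).comap Subtype.val

lemma cut_edge {a : List ℕ} {c i : ℕ} (hc : c ∈ π.ch a.length) (hi : i < π.l a.length c) {u v : Vh}
    (h : (GG π).Adj u v) (hu : ¬ (c :: a <:+ u.1 ∨ (u.1 = a ∧ u.2.1 = c ∧ i < u.2.2)))
    (hv : c :: a <:+ v.1 ∨ (v.1 = a ∧ v.2.1 = c ∧ i < v.2.2)) :
    u = (a, c, i) ∧ v = (a, c, i + 1) := by
  rw [not_or] at hu
  rcases h with ⟨e, h⟩ | ⟨e1, -, e3, e4⟩ | ⟨e1, -⟩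
  · obtain ⟨v1, v2, v3⟩ := hv.resolve_left (e ▸ hu.1)
    have h2 : ¬ (u.2.1 = c ∧ i < u.2.2) := fun k => hu.2 ⟨e.trans v1, k⟩
    simp only [Prod.ext_iff, e, v1, true_and]
    rcases h.2 with k | k <;> have := par_cases k <;> omega
  · exfalso
    rcases hv with k | ⟨-, k, -⟩
    · rw [e1] at k
      rcases List.suffix_cons_iff.1 k with k | k
      · obtain ⟨k1, k2⟩ := List.cons.inj k
        exact hu.2 ⟨k2.symm, k1.symm, by rw [e3, ← k1, ← k2]; exact hi⟩
      · exact hu.1 k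
    · rw [e4] at k
      have := mem_Ch hc
      simp only at k; omega
  · exfalso
    rcases hv with k | ⟨k1, k2, -⟩
    · exact hu.1 (e1 ▸ k.trans (List.suffix_cons _ _))
    · exact hu.1 (by rw [e1, k1, k2])

lemma cut_set (L : ℕ → ℕ) (hL : ∀ k, ∀ c ∈ π.ch k, L k ≤ π.l k c) (x : Val π) {k1 : ℕ}
    (hk : x.1.1.length < k1) : ∀ b, va π b → ∃ F : Finset (Sym2 (Val π)),
      F.card = ∑ k ∈ Finset.Ico k1 b.length, L k ∧ (∀ e ∈ F, ∀ y ∈ e, y.1.1.length < b.length) ∧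
      ∀ H ≤ GV π, ∀ y, H.Reachable x y → b <:+ y.1.1 → ∀ e ∈ F, e ∈ H.edgeSet
  | [], _ => ⟨∅, by simp, by simp, by simp⟩
  | c :: a, h => by
    classical
    obtain ⟨F, h1, h2, h3⟩ := cut_set L hL x hk a h.2
    by_cases k : k1 ≤ a.length
    swap
    · refine ⟨∅, ?_, by simp, by simp⟩
      rw [Finset.Ico_eq_empty (by simp; omega)]; simp
    have vv : ∀ i ≤ L a.length, (a, c, i) ∈ Val π := fun i hi =>
      ⟨h.2, (mem_Ch h.1).2.trans_le le_self_add, hi.trans (hL _ c h.1)⟩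
    let g : Fin (L a.length) → Sym2 (Val π) := fun i =>
      s(⟨(a, c, i), vv i i.2.le⟩, ⟨(a, c, i + 1), vv _ i.2⟩)
    have hg : g.Injective := fun i j e => by
      simp only [g, Sym2.eq_iff, Subtype.mk.injEq, Prod.mk.injEq, true_and] at e
      exact Fin.ext (by omega)
    refine ⟨F ∪ Finset.univ.image g, ?_, fun e he y hy => ?_, fun H hH y hy hb e he => ?_⟩
    · rw [Finset.card_union_of_disjoint, Finset.card_image_of_injective _ hg, h1, List.length_cons,
        Finset.sum_Ico_succ_top k, Finset.card_univ, Fintype.card_fin]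
      rw [Finset.disjoint_left]
      intro e he he'
      obtain ⟨i, -, rfl⟩ := Finset.mem_image.1 he'
      exact absurd (h2 _ he _ (Sym2.mem_mk_left _ _)) (lt_irrefl _)
    · rcases Finset.mem_union.1 he with he | he
      · exact (h2 e he y hy).trans (by simp)
      · obtain ⟨i, -, rfl⟩ := Finset.mem_image.1 he
        rcases Sym2.mem_iff.1 hy with rfl | rfl <;> simp
    · rcases Finset.mem_union.1 he with he | he
      · exact h3 H hH y hy ((List.suffix_cons _ _).trans hb) e he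
      obtain ⟨i, -, rfl⟩ := Finset.mem_image.1 he
      by_contra hne
      have : ¬ (c :: a <:+ y.1.1 ∨ (y.1.1 = a ∧ y.1.2.1 = c ∧ i < y.1.2.2)) := by
        clear hb
        rw [SimpleGraph.reachable_iff_reflTransGen] at hy
        induction hy with
        | refl =>
          rintro (k' | ⟨k', -⟩)
          · have := k'.length_le; simp at this; omega
          · rw [k'] at hk; omega
        | tail _ s ih =>
          intro k'
          obtain ⟨e1, e2⟩ := cut_edge h.1 (i.2.trans_le (hL _ c h.1)) (hH s) ih k'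
          refine hne ?_
          simp only [g, ← e1, ← e2]
          exact s
      exact this (Or.inl hb)

lemma pc_one (hg : ∀ k, Good (J k) (π.mu k) (π.D k) (π.l k)) (hJ : Tendsto J atTop atTop)
    {q : ℝ} (q1 : q < 1) {Ω : Type} [MeasurableSpace Ω] (Q : Measure Ω) [IsProbabilityMeasure Q]
    (ξ : Ω → Set (Sym2 (Val π))) (hi : iIndepSet (fun e => {w : Ω | e ∈ ξ w}) Q)
    (hq : ∀ e, Q {w : Ω | e ∈ ξ w} = ENNReal.ofReal q) :
    ∀ᵐ w ∂Q, ∀ x, Set.Finite {y | (GV π ⊓ SimpleGraph.fromEdgeSet (ξ w)).Reachable x y} := by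
  refine ae_all_iff.2 fun x => ?_
  set r := ENNReal.ofReal q
  have r1 : r < 1 := ENNReal.ofReal_lt_one.2 q1
  obtain ⟨k1, hk⟩ := eventually_atTop.1 ((((ENNReal.tendsto_pow_atTop_nhds_zero_of_lt_one
    r1).comp hJ).eventually (eventually_le_nhds (show (0 : ℝ≥0∞) < 4⁻¹ by simp))).and
      (eventually_gt_atTop x.1.1.length))
  let L := fun k => J k * (2 * π.mu k)
  have B : ∀ n, ((Ad π (k1 + n)).card : ℝ≥0∞) * r ^ (∑ k ∈ Finset.Ico k1 (k1 + n), L k) ≤
      (Ad π k1).card * 2⁻¹ ^ n := by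
    intro n
    induction n with
    | zero => simp
    | succ n ih =>
      have h1 : ((Ad π (k1 + n + 1)).card : ℝ≥0∞) ≤ 2 ^ (2 * π.mu (k1 + n)) * (Ad π (k1 + n)).card := by
        have := Finset.card_image_le (s := π.ch (k1 + n) ×ˢ Ad π (k1 + n)) (f := fun x => x.1 :: x.2)
        rw [Finset.card_product, Pr.ch, card_Ch] at this
        exact_mod_cast this
      have h2 : 2 ^ (2 * π.mu (k1 + n)) * r ^ L (k1 + n) ≤ 2⁻¹ := by
        rw [pow_mul r, ← mul_pow]
        have : 2 * r ^ J (k1 + n) ≤ 2⁻¹ := by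
          refine (mul_le_mul_right (hk _ le_self_add).1 _).trans_eq ?_
          rw [show (4 : ℝ≥0∞) = 2 * 2 by norm_num, ENNReal.mul_inv (by simp) (by simp),
            ← mul_assoc, ENNReal.mul_inv_cancel (by simp) (by simp), one_mul]
        exact (pow_le_of_le_one zero_le (this.trans (by simp))
          (by have := (hg (k1 + n)).mu; omega)).trans this
      rw [← add_assoc, Finset.sum_Ico_succ_top le_self_add, pow_add, pow_succ, ← mul_assoc,
        ← mul_assoc]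
      refine le_trans ?_ (mul_le_mul' ih h2)
      refine (mul_le_mul_left (mul_le_mul_left h1 _) _).trans_eq ?_
      ring
  rw [ae_iff]
  refine le_zero_iff.1 (ge_of_tendsto' (f := fun n : ℕ => ((Ad π k1).card : ℝ≥0∞) * 2⁻¹ ^ n)
    (x := atTop) ?_ fun n => le_trans ?_ (B n))
  · simpa using ENNReal.Tendsto.const_mul (ENNReal.tendsto_pow_atTop_nhds_zero_of_lt_one
      (show (2⁻¹ : ℝ≥0∞) < 1 by simp)) (Or.inr (ENNReal.natCast_ne_top (Ad π k1).card))
  choose! F h1 h2 h3 using cut_set L (fun k c hc => by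
    have := (hg k).len c (by simp [show c ∈ Ch _ from hc]); simp only [L]; omega) x
      (hk k1 le_rfl).2
  classical
  refine (measure_mono (t := ⋃ b ∈ (Ad π (k1 + n)).filter fun b => va π b ∧ b.length = k1 + n,
    ⋂ e ∈ F b, {w | e ∈ ξ w}) fun w hw => ?_).trans ((measure_biUnion_finset_le _ _).trans
      ((Finset.sum_le_card_nsmul _ _ (r ^ (∑ k ∈ Finset.Ico k1 (k1 + n), L k)) fun b hb => ?_).trans
        ?_))
  · obtain ⟨y, hy, hy'⟩ := (Set.not_subset.1 fun k => hw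
      (((fin_val (π := π) (k1 + n)).preimage Subtype.val_injective.injOn).subset k))
    have hl : k1 + n ≤ y.1.1.length := not_lt.1 fun k => hy' ⟨y.2, k⟩
    have s1 := List.drop_suffix (y.1.1.length - (k1 + n)) y.1.1
    have s2 := va_suffix y.2.1 s1
    have s3 : (y.1.1.drop (y.1.1.length - (k1 + n))).length = k1 + n := by simp; omega
    refine mem_iUnion₂.2 ⟨_, Finset.mem_filter.2 ⟨by have := mem_Ad s2; rwa [s3] at this, s2, s3⟩, mem_iInter₂.2
      fun e he => ?_⟩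
    have := h3 _ s2 _ inf_le_left y hy s1 e he
    rw [SimpleGraph.edgeSet_inf, SimpleGraph.edgeSet_fromEdgeSet] at this
    exact this.2.1
  · obtain ⟨-, b1, b2⟩ := Finset.mem_filter.1 hb
    rw [hi.meas_biInter, Finset.prod_congr rfl fun e _ => hq e, Finset.prod_const, h1 b b1, b2]
  · rw [nsmul_eq_mul]
    exact mul_le_mul_left (Nat.cast_le.2 (Finset.card_filter_le _ _)) _

end Pool.Agent.H.MP_1775a6_pr
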