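import Pool.Agent.H.MP_1775a6_pr.F

/-! Survival of the cluster of the root. -/

namespace Pool.Agent.H.MP_1775a6_pr

open MeasureTheory ProbabilityTheory Filter Topology Set Relation
open scoped ENNReal

lemma reach {m D : ℕ} {l : ℕ → ℕ} : ∀ n, ∀ x ∈ Sp m D l, x.1 + x.2 = n →
    (fun _ => true) ∈ conn (TG m) (Sp m D l) (0, 0) x := by
  intro n
  induction n using Nat.strong_induction_on with
  | _ n ih =>
    intro x hx e
    by_cases h : x = (0, 0)
    · rw [h]; exact ReflTransGen.refl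
    have h1 := par_cases (m := m) (a := x) rfl
    have h2 := two_le m
    have h3 := hx.1
    have h4 := hx.2
    simp only [Prod.ext_iff] at h
    have h5 : par m x ∈ Sp m D l := by
      refine ⟨by omega, ?_⟩
      rcases h1 with k | k
      · rw [← k.1]; omega
      · omega
    exact ReflTransGen.tail (ih _ (by omega) _ h5 rfl)
      ⟨h5, hx, ⟨fun k => by rw [Prod.ext_iff] at k; omega, Or.inr rfl⟩, rfl⟩

lemma tau_ne {V : Type} [Countable V] {G : SimpleGraph V} {S : Set V} {v w : V}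
    (h : (fun _ => true) ∈ conn G S v w) : tau (Z G) (cyl S) (v, 0) (w, 0) ≠ 0 :=
  conn_inv (X := fun b => tau (Z G) (cyl S) (v, 0) (b, 0) ≠ 0) h (by simp [tau_self])
    fun a b k s => ne_bot_of_le_ne_bot (mul_ne_zero k p_ne) ((mul_le_mul_right
      (tau_edge (x := (a, 0)) (y := (b, 0)) s.1 s.2.1 (Z_adj.2 (Or.inl ⟨s.2.2.1, rfl⟩))) _).trans
        tau_trans)

lemma greedy {Ω κ : Type*} [MeasurableSpace Ω] (μ : Measure Ω) (Y : κ → Set Ω) (s : κ → ℝ≥0∞)
    {x : ℝ≥0∞} (hx : x ≠ ⊤) (A : Finset κ) (hY : ∀ i ∈ A, MeasurableSet (Y i))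
    (h1 : ∀ i ∈ A, x * s i ≤ μ (Y i))
    (h2 : ∀ i ∈ A, ∀ j ∈ A, i ≠ j → μ (Y i ∩ Y j) ≤ s i * s j) :
    x ^ 2 ≤ 8 * μ (⋃ i ∈ A, Y i) ∨ x * ∑ i ∈ A, s i ≤ 2 * μ (⋃ i ∈ A, Y i) := by
  classical
  induction A using Finset.induction_on with
  | empty => simp
  | insert b A hb ih =>
    by_cases k : 2 * ∑ i ∈ insert b A, s i ≤ x
    · have f : ∑ i ∈ insert b A, s i ≠ ⊤ :=
        ne_top_of_le_ne_top hx ((le_mul_of_one_le_left' (by norm_num)).trans k)
      refine Or.inr (halve (ENNReal.mul_ne_top hx f) (le_trans ?_ (bonf μ _ Y s hY h2)) ?_)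
      · rw [Finset.mul_sum]; exact Finset.sum_le_sum h1
      · rw [sq, ← mul_assoc]; exact mul_le_mul_left k _
    have q : ∀ {y z}, x ≤ 4 * y → x * y ≤ 2 * z → x ^ 2 ≤ 8 * z := fun {y z} a b => by
      calc x ^ 2 ≤ x * (4 * y) := by rw [sq]; exact mul_le_mul_right a _
        _ = 4 * (x * y) := by ring
        _ ≤ 4 * (2 * z) := mul_le_mul_right b _
        _ = _ := by ring
    left
    rw [Finset.sum_insert hb] at k
    rw [Finset.set_biUnion_insert]
    rcases le_total (s b) (∑ i ∈ A, s i) with e | e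
    · have : x ≤ 4 * ∑ i ∈ A, s i := (not_le.1 k).le.trans
        ((mul_le_mul_right (add_le_add_left e _) _).trans_eq (by ring))
      refine le_trans ?_ (mul_le_mul_right (measure_mono subset_union_right) _)
      exact (ih (fun i hi => hY i (by simp [hi])) (fun i hi => h1 i (by simp [hi]))
        fun i hi j hj => h2 i (by simp [hi]) j (by simp [hj])).elim id (q this)
    · refine q (y := s b) ((not_le.1 k).le.trans
        ((mul_le_mul_right (add_le_add_right e _) _).trans_eq (by ring))) ?_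
      exact ((h1 b (by simp)).trans (measure_mono subset_union_left)).trans
        (le_mul_of_one_le_left' (by norm_num))

lemma sched (θ ρ : ℕ → ℝ≥0∞) (h0 : ∀ j, θ j ≠ 0) (h1 : ∀ j, θ j ≠ ⊤) (h2 : ∀ j, ρ j ≠ 0) :
    ∃ (J : ℕ → ℕ) (σ : ℕ → ℝ≥0∞), Tendsto J atTop atTop ∧ σ 0 ≠ 0 ∧ (∀ k, σ k ≤ θ (J k)) ∧
      ∀ k, (J (k + 1) = J k ∧ σ k ≤ 2 * σ (k + 1)) ∨
        (J (k + 1) = J k + 1 ∧ σ k ≤ ρ (J k) * σ (k + 1)) := by
  have : ∀ j, ∃ n : ℕ, θ j * 2⁻¹ ^ n ≤ ρ j * θ (j + 1) := fun j => by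
    have := ENNReal.Tendsto.const_mul (ENNReal.tendsto_pow_atTop_nhds_zero_of_lt_one
      (show (2⁻¹ : ℝ≥0∞) < 1 by simp)) (Or.inr (h1 j))
    rw [mul_zero] at this
    exact (this.eventually (eventually_le_nhds (pos_iff_ne_zero.2
      (mul_ne_zero (h2 j) (h0 _))))).exists
  choose n hn using this
  let st : ℕ → ℕ × ℕ := fun k => Nat.rec (0, 0)
    (fun _ x => if x.2 = n x.1 then (x.1 + 1, 0) else (x.1, x.2 + 1)) k
  have e : ∀ k, st (k + 1) =
    if (st k).2 = n (st k).1 then ((st k).1 + 1, 0) else ((st k).1, (st k).2 + 1) := fun _ => rfl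
  refine ⟨fun k => (st k).1, fun k => θ (st k).1 * 2⁻¹ ^ (st k).2, ?_, by simpa [st] using h0 0,
    fun k => mul_le_of_le_one_right' (pow_le_one₀ zero_le (by simp)), fun k => ?_⟩
  · refine tendsto_atTop_atTop_of_monotone (monotone_nat_of_le_succ fun k => ?_) fun j => ?_
    · rw [e]; split_ifs <;> simp
    suffices ∃ k, st k = (j, 0) from this.imp fun k hk => by rw [hk]
    induction j with
    | zero => exact ⟨0, rfl⟩
    | succ j ih =>
      obtain ⟨k, hk⟩ := ih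
      have : ∀ i ≤ n j, st (k + i) = (j, i) := by
        intro i
        induction i with
        | zero => exact fun _ => hk
        | succ i ih => intro h; rw [← add_assoc, e, ih (by omega), if_neg (by simp; omega)]
      exact ⟨k + n j + 1, by rw [e, this _ le_rfl, if_pos rfl]⟩
  · simp only [e]
    split_ifs with h
    · exact Or.inr ⟨rfl, by simpa [h] using hn (st k).1⟩
    · refine Or.inl ⟨rfl, le_of_eq ?_⟩
      rw [pow_succ', mul_left_comm, ← mul_assoc 2, ENNReal.mul_inv_cancel (by simp) (by simp),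
        one_mul]

variable {π : Pr} {a : List ℕ} {c : ℕ}

lemma hub_sp (k : ℕ) : ((0, 0) : ℕ × ℕ) ∈ π.sp k := ⟨by positivity, zero_le⟩

lemma end_sp {k i : ℕ} (h : i ∈ insert 0 (π.ch k)) : (i, π.l k i) ∈ π.sp k :=
  ⟨(mem_I h).trans_le le_self_add, le_rfl⟩

lemma jn_adj (hc : c ∈ π.ch a.length) :
    (GG π).Adj (a, c, π.l a.length c) (c :: a, 0, π.l (a.length + 1) 0) :=
  Or.inr (Or.inl ⟨rfl, hc, rfl, rfl⟩)

lemma tau_pc (a : List ℕ) (v w : ℕ × ℕ) (n : ℤ) :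
    tau (Z (GG π)) (cyl (Pc π a)) ((a, v), 0) ((a, w), n) =
      tau (Z (π.tg a.length)) (cyl (π.sp a.length)) (v, 0) (w, n) := by
  simpa [Pc] using cyl_lift (emb_inj a) (fun v _ w _ => emb_adj (π := π) a v w) 0 v w 0 n

lemma bx_pc (a : List ℕ) (v w : ℕ × ℕ) (lo hi n : ℤ) :
    tau (Z (GG π)) (bx (Pc π a \ {(a, 0, 0)}) lo hi) ((a, v), 0) ((a, w), n) =
      tau (Z (π.tg a.length)) (bx (π.sp a.length \ {(0, 0)}) lo hi) (v, 0) (w, n) := by
  have := bx_lift (S := π.sp a.length \ {(0, 0)}) (emb_inj a)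
    (fun v _ w _ => emb_adj (π := π) a v w) 0 lo hi v w 0 n
  rw [image_sdiff (emb_inj a), image_singleton] at this
  simpa [Pc] using this

lemma jump (hc : c ∈ π.ch a.length) :
    tau (Z (π.tg a.length)) (cyl (π.sp a.length)) ((0, 0), 0) ((c, π.l a.length c), 0) * p *
      tau (Z (π.tg (a.length + 1))) (cyl (π.sp (a.length + 1))) ((0, 0), 0)
        ((0, π.l (a.length + 1) 0), 0) ≤
      tau (Z (GG π)) (cyl (Pc π a ∪ Pc π (c :: a))) ((a, 0, 0), 0) ((c :: a, 0, 0), 0) := by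
  rw [← tau_pc, ← List.length_cons (a := c), ← tau_pc, tau_symm (x := ((c :: a, 0, 0), 0))]
  have h1 : p ≤ tau (Z (GG π)) (cyl (Pc π a ∪ Pc π (c :: a))) ((a, c, π.l a.length c), 0)
      ((c :: a, 0, π.l (a.length + 1) 0), 0) := tau_edge
    (Or.inl (mem_Pc.2 ⟨rfl, end_sp (Finset.mem_insert_of_mem hc)⟩))
    (Or.inr (mem_Pc.2 ⟨rfl, end_sp (Finset.mem_insert_self _ _)⟩)) (Z_adj.2 (Or.inl ⟨jn_adj hc, rfl⟩))
  exact le_trans (mul_le_mul' (le_trans (mul_le_mul' (tau_mono fun _ => Or.inl) h1) tau_trans)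
    (tau_mono fun _ => Or.inr)) tau_trans

lemma cross {j : ℕ} (hg : Good j (π.mu a.length) (π.D a.length) (π.l a.length))
    (e1 : π.mu (a.length + 1) = π.mu a.length) (e2 : π.D (a.length + 1) = π.D a.length)
    (e3 : π.l (a.length + 1) = π.l a.length) (hc : c ∈ π.ch a.length) : ∃ r,
    4 ≤ 2 ^ (2 * π.mu a.length) *
      tau (Z (GG π)) (cyl (Pc π a ∪ Pc π (c :: a))) ((a, 0, 0), 0) ((c :: a, 0, 0), r) := by
  obtain ⟨N, H, hN, b, hb, s, h⟩ := hg.cross
  obtain ⟨b', hb', s', h⟩ := h c hc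
  have hP := piece (m := 2 * π.mu a.length) (D := π.D a.length) (l := π.l a.length)
    (by have := hg.len 0 (by simp); omega)
  have t : π.tg (c :: a).length = π.tg a.length := by simp [Pr.tg, e1]
  have u : π.sp (c :: a).length = π.sp a.length := by simp [Pr.sp, e1, e2, e3]
  obtain ⟨r, hr⟩ := m9 (G := GG π) (S1 := Pc π a) (S2 := Pc π (c :: a)) (h1 := (a, 0, 0))
    (h2 := (c :: a, 0, 0)) (a1 := (a, b')) (a2 := (c :: a, b))
    (Set.disjoint_left.2 fun x h1 h2 =>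
      List.cons_ne_self c a ((mem_Pc.1 h2).1.symm.trans (mem_Pc.1 h1).1))
    (mem_Pc.2 ⟨rfl, hub_sp _⟩) (mem_Pc.2 ⟨rfl, hub_sp _⟩) (mem_Pc.2 ⟨rfl, ((hP.rt _).1 hb').1⟩)
    (mem_Pc.2 ⟨rfl, u ▸ ((hP.rt _).1 hb).1⟩) (mem_Pc.2 ⟨rfl, end_sp (by simp [hc])⟩)
    (mem_Pc.2 ⟨rfl, end_sp (by simp)⟩) ((emb_adj _ _ _).2 ((hP.rt _).1 hb').2.symm) (jn_adj hc)
    ((emb_adj _ _ _).2 (t ▸ ((hP.rt _).1 hb).2)) s' s N H hN rfl
  simp only [tau_pc, bx_pc, t, u, e3] at hr
  exact ⟨r, h _ _ _ tau_le rfl rfl hr⟩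

def Sub (π : Pr) (a : List ℕ) : Set Vh := {x | x ∈ Val π ∧ a <:+ x.1}

def Surv (π : Pr) (a : List ℕ) (n : ℤ) (K : ℕ) : Set (Sym2 (Vh × ℤ) → Bool) :=
  ⋃ y : Vh × ℤ, ⋃ _ : K ≤ y.1.1.length, conn (Z (GG π)) (cyl (Sub π a)) ((a, 0, 0), n) y

lemma inc_surv (n : ℤ) (K : ℕ) : Inc (Ed (cyl (Sub π a))) (Surv π a n K) :=
  Inc.iUnion fun _ => Inc.iUnion fun _ => inc_conn _ _ _ _

lemma surv_step (ha : va π a) (hc : c ∈ π.ch a.length) (n r : ℤ) (K : ℕ) :
    conn (Z (GG π)) (cyl (Pc π a ∪ Pc π (c :: a))) ((a, 0, 0), n) ((c :: a, 0, 0), r) ∩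
      Surv π (c :: a) r K ⊆ Surv π a n K := by
  rintro ω ⟨h1, h2⟩
  obtain ⟨y, hy, h2⟩ := mem_iUnion₂.1 h2
  refine mem_iUnion₂.2 ⟨y, hy, ReflTransGen.trans (conn_mono ?_ h1) (conn_mono ?_ h2)⟩
  · rintro ⟨⟨b, v⟩, n⟩ (k | k) <;> obtain ⟨rfl, k⟩ : b = _ ∧ _ := mem_Pc.1 k
    exacts [⟨⟨ha, k⟩, List.suffix_rfl⟩, ⟨⟨⟨hc, ha⟩, k⟩, List.suffix_cons _ _⟩]
  · exact fun x k => ⟨k.1, (List.suffix_cons _ _).trans k.2⟩

lemma surv_ge (σ : ℕ → ℝ≥0∞) (h1 : ∀ k, σ k ≤ 1) (h : ∀ a, va π a → ∃ x ≠ ⊤,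
      (∀ c ∈ π.ch a.length, ∃ r, x ≤ tau (Z (GG π)) (cyl (Pc π a ∪ Pc π (c :: a))) ((a, 0, 0), 0)
        ((c :: a, 0, 0), r)) ∧ 8 * σ a.length ≤ x ^ 2 ∧
        2 * σ a.length ≤ x * (2 ^ (2 * π.mu a.length) * σ (a.length + 1))) :
    ∀ d a, va π a → ∀ n, σ a.length ≤ P _ (Surv π a n (a.length + d)) := by
  intro d
  induction d with
  | zero =>
    intro a _ n
    rw [show Surv π a n (a.length + 0) = univ from eq_univ_of_forall fun ω =>
      mem_iUnion₂.2 ⟨((a, 0, 0), n), le_rfl, ReflTransGen.refl⟩, measure_univ]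
    exact h1 _
  | succ d ih =>
    intro a ha n
    obtain ⟨x, hx, k1, k2, k3⟩ := h a ha
    choose! r hr using k1
    let K := a.length + (d + 1)
    have := greedy (P _) (fun c => conn (Z (GG π)) (cyl (Pc π a ∪ Pc π (c :: a))) ((a, 0, 0), n)
      ((c :: a, 0, 0), n + r c) ∩ Surv π (c :: a) (n + r c) K)
      (fun c => P _ (Surv π (c :: a) (n + r c) K)) hx (π.ch a.length)
      (fun c _ => (inc_conn _ _ _ _).dep.meas.inter (inc_surv _ _).dep.meas)
      (fun c hc => le_trans (mul_le_mul_left ((hr c hc).trans_eq (by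
        rw [← tau, cyl_shift n, add_sub_cancel_left])) _)
        (harris (inc_conn _ _ _ _) (inc_surv _ _)))
      fun c _ c' _ e => (measure_mono (inter_subset_inter inter_subset_right
        inter_subset_right)).trans_eq (indep (Ed_disj (Set.disjoint_left.2 fun y k k' => e
          (List.cons.inj ((List.suffix_of_suffix_length_le k.2 k'.2 (by simp)).eq_of_length
            (by simp))).1)) (inc_surv _ _).dep (inc_surv _ _).dep)
    have m := measure_mono (μ := P _) (iUnion₂_subset fun c (hc : c ∈ π.ch a.length) =>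
      surv_step ha hc n (n + r c) K)
    refine le_trans ?_ m
    rcases this with k | k
    · exact (ENNReal.mul_le_mul_iff_right (by simp) (by simp)).1 (k2.trans k)
    · refine (ENNReal.mul_le_mul_iff_right (by simp) (by simp)).1 ((k3.trans
        (mul_le_mul_right ?_ _)).trans k)
      refine le_trans (le_of_eq ?_) (Finset.card_nsmul_le_sum _ _ (σ (a.length + 1)) fun c hc => ?_)
      · rw [Pr.ch, card_Ch, nsmul_eq_mul]; push_cast; rfl
      · have := ih (c :: a) ⟨hc, ha⟩ (n + r c)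
        rwa [List.length_cons, add_assoc, add_comm 1] at this

lemma surv_pos : ∃ (π : Pr) (J : ℕ → ℕ) (σ : ℝ≥0∞), (∀ k, Good (J k) (π.mu k) (π.D k) (π.l k)) ∧
    Tendsto J atTop atTop ∧ σ ≠ 0 ∧ ∀ K, σ ≤ P _ (Surv π [] 0 K) := by
  choose m D l hg using exists_good
  let π0 : Pr := ⟨m, D, l⟩
  let ρ := fun j => ∏ c ∈ π0.ch j, tau (Z (π0.tg j)) (cyl (π0.sp j)) ((0, 0), 0) ((c, l j c), 0) *
    p * tau (Z (π0.tg (j + 1))) (cyl (π0.sp (j + 1))) ((0, 0), 0) ((0, l (j + 1) 0), 0)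
  have t1 : ∀ j c, tau (Z (π0.tg j)) (cyl (π0.sp j)) ((0, 0), 0) ((c, l j c), 0) * p *
      tau (Z (π0.tg (j + 1))) (cyl (π0.sp (j + 1))) ((0, 0), 0) ((0, l (j + 1) 0), 0) ≤ 1 :=
    fun j c => mul_le_one' (mul_le_one' tau_le p_le) tau_le
  have ρ0 : ∀ j, ρ j ≠ 0 := fun j => Finset.prod_ne_zero_iff.2 fun c hc => mul_ne_zero
    (mul_ne_zero (tau_ne (reach _ _ (end_sp (π := π0) (Finset.mem_insert_of_mem hc)) rfl)) p_ne)
    (tau_ne (reach _ _ (end_sp (π := π0) (Finset.mem_insert_self _ _)) rfl))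
  let x := fun j => 4 * ((2 : ℝ≥0∞) ^ (2 * m j))⁻¹
  have i8 : ∀ y : ℝ≥0∞, 8 * (8⁻¹ * y) = y := fun y => by
    rw [← mul_assoc, ENNReal.mul_inv_cancel (by simp) (by simp), one_mul]
  obtain ⟨J, σ, h1, h2, h3, h4⟩ := sched (fun j => min 1 (min (8⁻¹ * x j ^ 2) (8⁻¹ * ρ j ^ 2))) ρ
    (fun j => by simp [x, ρ0]) (fun j => ne_top_of_le_ne_top (by simp) (min_le_left _ _)) ρ0
  simp only [le_min_iff] at h3
  refine ⟨⟨fun k => m (J k), fun k => D (J k), fun k => l (J k)⟩, J, σ 0, fun k => hg _, h1, h2,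
    fun K => ?_⟩
  have := surv_ge (π := ⟨fun k => m (J k), fun k => D (J k), fun k => l (J k)⟩) σ
    (fun k => (h3 k).1) (fun a ha => ?_) K [] trivial 0
  · simpa using this
  have iv : ∀ j, ((2 : ℝ≥0∞) ^ (2 * m j))⁻¹ * 2 ^ (2 * m j) = 1 := fun j =>
    ENNReal.inv_mul_cancel (by simp) (by simp)
  rcases h4 a.length with ⟨e, k⟩ | ⟨e, k⟩
  · refine ⟨x (J a.length), ENNReal.mul_ne_top (by simp) (by simp), fun c hc => ?_,
      (mul_le_mul_right (h3 _).2.1 _).trans_eq (i8 _), (mul_le_mul_right k _).trans_eq ?_⟩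
    · refine (cross (hg _) (by simp [e]) (by simp [e]) (by simp [e]) hc).imp fun r hr => ?_
      refine (mul_le_mul_left hr _).trans_eq ?_
      rw [mul_comm, ← mul_assoc, iv, one_mul]
    · simp only [x]
      rw [mul_assoc 4, ← mul_assoc _ (2 ^ _), iv]; ring
  · refine ⟨ρ (J a.length), ne_top_of_le_ne_top (by simp) (Finset.prod_le_one' fun c _ => t1 _ c),
      fun c hc => ⟨0, le_trans ?_ (jump hc)⟩, (mul_le_mul_right (h3 _).2.2 _).trans_eq (i8 _),
      (mul_le_mul_right k _).trans ?_⟩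
    · simp only [Pr.tg, Pr.sp, e]
      exact (Finset.prod_le_prod_of_subset_of_le_one' (Finset.singleton_subset_iff.2 hc)
        fun c _ _ => t1 _ c).trans_eq (Finset.prod_singleton _ _)
    · rw [mul_left_comm]
      refine mul_le_mul_right (mul_le_mul_left (le_self_pow₀ (by norm_num) ?_) _) _
      have := (hg (J a.length)).mu
      simp only; omega

def root (π : Pr) : Val π := ⟨([], 0, 0), trivial, hub_sp 0⟩

lemma conn_root : ∀ a, va π a → (fun _ => true) ∈ conn (GG π) (Val π) ([], 0, 0) (a, 0, 0) := by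
  have k : ∀ a, va π a → ∀ v ∈ π.sp a.length,
      (fun _ => true) ∈ conn (GG π) (Val π) (a, 0, 0) (a, v) := fun a ha v hv => by
    have := conn_map (Γ := GG π) (R := π.sp a.length) (emb_inj a)
      (fun v _ w _ => emb_adj a v w) (0, 0) v
    refine conn_mono (R := Pc π a) ?_ (this.ge (reach _ _ hv rfl))
    rintro _ ⟨w, hw, rfl⟩
    exact ⟨ha, hw⟩
  intro a
  induction a with
  | nil => exact fun _ => ReflTransGen.refl
  | cons c a ih =>
    intro h
    have h1 := end_sp (Finset.mem_insert_of_mem h.1)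
    have h2 := end_sp (π := π) (k := a.length + 1) (Finset.mem_insert_self _ _)
    exact ReflTransGen.trans (ReflTransGen.tail (c := (c :: a, 0, π.l (a.length + 1) 0))
      ((ih h.2).trans (k a h.2 _ h1)) ⟨⟨h.2, h1⟩, ⟨h, h2⟩, jn_adj h.1, rfl⟩)
      (conn_symm (k _ h _ h2))

lemma reach_iff {V : Type} (G : SimpleGraph V) (ω : Sym2 V → Bool) (x y : V) :
    (G ⊓ SimpleGraph.fromEdgeSet {e | ω e = true}).Reachable x y ↔ ω ∈ conn G univ x y := by
  rw [SimpleGraph.reachable_iff_reflTransGen, conn, mem_ofPred_eq]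
  congr! 1
  ext a b
  simp only [Step, SimpleGraph.inf_adj, SimpleGraph.fromEdgeSet_adj, mem_ofPred_eq, mem_univ,
    true_and]
  exact ⟨fun h => ⟨h.1, h.2.1⟩, fun h => ⟨h.1, h.2, h.1.ne⟩⟩

lemma GV_conn : (GV π).Connected := by
  refine (SimpleGraph.connected_iff_exists_forall_reachable _).2 ⟨root π, fun y => ?_⟩
  have := conn_map (Γ := GG π) (Γ' := GV π) (R := univ) Subtype.val_injective
    (fun _ _ _ _ => Iff.rfl) (root π) y
  rw [image_univ, Subtype.range_coe] at this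
  refine ((reach_iff _ (fun _ => true) _ _).2
    ((Set.ext_iff.1 this fun _ => true).1 ?_)).mono inf_le_left
  have h := conn_map (Γ := GG π) (R := π.sp y.1.1.length) (emb_inj y.1.1)
    (fun v _ w _ => emb_adj _ v w) (0, 0) y.1.2
  refine (conn_root _ y.2.1).trans (conn_mono (R := Pc π y.1.1) ?_ (h.ge (reach _ _ y.2.2 rfl)))
  rintro _ ⟨w, hw, rfl⟩
  exact ⟨y.2.1, hw⟩

lemma GV_fin (v : Val π) : ((GV π).neighborSet v).Finite := by
  refine ((fin_val (π := π) (v.1.1.length + 2)).preimage Subtype.val_injective.injOn).subset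
    fun y hy => ⟨y.2, ?_⟩
  rcases hy with ⟨e, -⟩ | ⟨e, -⟩ | ⟨e, -⟩ <;> simp only [e, List.length_cons] <;> omega

lemma val_inf : Infinite (Val π) := by
  have : ∀ n, ∃ a, va π a ∧ a.length = n := fun n => by
    induction n with
    | zero => exact ⟨[], trivial, rfl⟩
    | succ n ih =>
      obtain ⟨a, h1, h2⟩ := ih
      exact ⟨2 ^ (2 * π.mu a.length) :: a, ⟨by simp [Pr.ch, Ch, pow_succ], h1⟩, by simp [h2]⟩
  choose a h1 h2 using this
  exact Infinite.of_injective (fun n => (⟨(a n, 0, 0), h1 n, hub_sp _⟩ : Val π)) fun n m e => by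
    rw [← h2 n, ← h2 m, show a n = a m from congrArg (fun x : Val π => x.1.1) e]

def up (π : Pr) (x : Val π × ℤ) : Vh × ℤ := (x.1.1, x.2)

lemma up_inj : (up π).Injective := fun a b e => by
  simp only [up, Prod.mk.injEq] at e
  exact Prod.ext (Subtype.ext e.1) e.2

lemma up_im : up π '' univ = cyl (Val π) := by
  ext y
  exact ⟨by rintro ⟨x, -, rfl⟩; exact x.1.2, fun k => ⟨(⟨y.1, k⟩, y.2), trivial, rfl⟩⟩

lemma up_reach (w : Sym2 (Vh × ℤ) → Bool) (x y : Val π × ℤ) : (Z (GV π) ⊓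
    SimpleGraph.fromEdgeSet {e | w (Sym2.map (up π) e) = true}).Reachable x y ↔
    w ∈ conn (Z (GG π)) (cyl (Val π)) (up π x) (up π y) := by
  rw [reach_iff (Z (GV π)) fun e => w (Sym2.map (up π) e), ← up_im,
    conn_map (Γ' := Z (GV π)) up_inj, mem_preimage]
  intro a _ b _
  simp only [Z_adj, up, Subtype.val_inj, GV, SimpleGraph.comap_adj]

end Pool.Agent.H.MP_1775a6_pr
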